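import Pool.Agent.Q241.KL.Z

/-! # The correlations of the zeros of zeta at all levels -/

set_option autoImplicit false

namespace Q241.KL

open Finset Filter Topology MeasureTheory
open H370 TH803TW Pool.Agent.Y744

/-- the labelled zeros -/
def ZL (T : ℝ) : Set (ℂ × ℕ) :=
  {p | riemannZeta p.1 = 0 ∧ 0 < p.1.re ∧ p.1.re < 1 ∧ 0 < p.1.im ∧ p.1.im ≤ T ∧
    p.2 < analyticOrderNatAt riemannZeta p.1}

/-- the number of `(r + 1)`-tuples of distinct zeros -/
noncomputable def Nk (r : ℕ) (T : ℝ) (a b : Fin r → ℝ) : ℕ :=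
  {t : Fin (r + 1) → ℂ × ℕ | Function.Injective t ∧ (∀ i, t i ∈ ZL T) ∧
    ∀ i : Fin r, ((t i.castSucc).1.im - (t (Fin.last r)).1.im) * Real.log T / (2 * Real.pi) ∈
      Set.Icc (a i) (b i)}.ncard

/-- the normalisation -/
noncomputable def X (T : ℝ) : ℝ := T * Real.log T / (2 * Real.pi)

theorem mem_ZL {T : ℝ} {p : ℂ × ℕ} : p ∈ ZL T ↔ p ∈ JZ T := by
  rw [mem_JZ, mem_Zt]
  constructor
  · rintro ⟨h1, h2, h3, h4, h5, h6⟩
    exact ⟨⟨h2, h3, h4, h5, h1⟩, h6⟩
  · rintro ⟨⟨h2, h3, h4, h5, h1⟩, h6⟩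
    exact ⟨h1, h2, h3, h4, h5, h6⟩

theorem Nk_eq (r : ℕ) (T : ℝ) (a b : Fin r → ℝ) : Nk r T a b = cnt (JZ T) (xz T) r a b := by
  classical
  have h1 : {t : Fin (r + 1) → ℂ × ℕ | Function.Injective t ∧ (∀ i, t i ∈ ZL T) ∧
    ∀ i : Fin r, ((t i.castSucc).1.im - (t (Fin.last r)).1.im) * Real.log T / (2 * Real.pi) ∈
      Set.Icc (a i) (b i)} = ↑(((JZ T).sigma fun j => E (JZ T) (xz T) j r a b).image
        (fun q => (Fin.snoc q.2 q.1 : Fin (r + 1) → ℂ × ℕ))) := by
    ext t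
    rw [Finset.mem_coe, mem_image]
    constructor
    · rintro ⟨h1, h2, h3⟩
      refine ⟨⟨t (Fin.last r), fun i => t i.castSucc⟩, ?_, ?_⟩
      · rw [mem_sigma, mem_E]
        dsimp only
        refine ⟨mem_ZL.mp (h2 _), fun l => mem_ZL.mp (h2 _), fun l l' h => ?_, fun l h => ?_,
          fun l => ?_⟩
        · exact Fin.castSucc_injective r (h1 h)
        · exact absurd (h1 h) (Fin.castSucc_ne_last l)
        · have h4 := h3 l
          have e : xz T (t l.castSucc) - xz T (t (Fin.last r)) =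
              ((t l.castSucc).1.im - (t (Fin.last r)).1.im) * Real.log T / (2 * Real.pi) := by
            unfold xz
            ring
          rw [e]
          exact h4
      · exact Fin.snoc_init_self t
    · rintro ⟨⟨j, t'⟩, h, rfl⟩
      rw [mem_sigma, mem_E] at h
      dsimp only at h ⊢
      obtain ⟨hj, h1, h2, h3, h4⟩ := h
      refine ⟨?_, ?_, ?_⟩
      · intro i i'
        refine Fin.lastCases ?_ (fun i => ?_) i
        · refine Fin.lastCases ?_ (fun i' => ?_) i'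
          · intro _; rfl
          · intro h
            rw [Fin.snoc_last, Fin.snoc_castSucc] at h
            exact absurd h.symm (h3 i')
        · refine Fin.lastCases ?_ (fun i' => ?_) i'
          · intro h
            rw [Fin.snoc_last, Fin.snoc_castSucc] at h
            exact absurd h (h3 i)
          · intro h
            rw [Fin.snoc_castSucc, Fin.snoc_castSucc] at h
            rw [h2 h]
      · intro i
        refine Fin.lastCases ?_ (fun i => ?_) i
        · rw [Fin.snoc_last]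
          exact mem_ZL.mpr hj
        · rw [Fin.snoc_castSucc]
          exact mem_ZL.mpr (h1 i)
      · intro i
        rw [Fin.snoc_last, Fin.snoc_castSucc]
        have h5 := h4 i
        have e : xz T (t' i) - xz T j = ((t' i).1.im - j.1.im) * Real.log T / (2 * Real.pi) := by
          unfold xz
          ring
        rw [e] at h5
        exact h5
  unfold Nk
  rw [h1, Set.ncard_coe_finset, card_image_of_injective, card_sigma]
  · rfl
  · rintro ⟨j, t⟩ ⟨j', t'⟩ h
    dsimp only at h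
    have h2 : j = j' := by
      have := congrFun h (Fin.last r)
      rwa [Fin.snoc_last, Fin.snoc_last] at this
    have h3 : t = t' := by
      funext i
      have := congrFun h i.castSucc
      rwa [Fin.snoc_castSucc, Fin.snoc_castSucc] at this
    rw [h2, h3]

/-- the conjecture at level `k = r + 1` -/
def Conj (r : ℕ) : Prop := ∀ a b : Fin r → ℝ, (∀ i, a i < b i) →
  Tendsto (fun T => (Nk r T a b : ℝ) / X T) atTop (𝓝 (SI r a b))

/-- its upper half -/
def Upper (r : ℕ) : Prop := ∀ a b : Fin r → ℝ, (∀ i, a i < b i) → ∀ ε : ℝ, 0 < ε →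
  ∀ᶠ T : ℝ in atTop, (Nk r T a b : ℝ) ≤ (SI r a b + ε) * X T

theorem n_eq (r : ℕ) (a b : Fin r → ℝ) (T : ℝ) : FZ.n r a b T = (Nk r T a b : ℝ) / X T := by
  rw [Nk_eq]
  rfl

theorem Conj_iff (r : ℕ) : Conj r ↔ FZ.Full SI r := by
  constructor
  · intro h a b hab
    exact (h a b hab).congr fun T => (n_eq r a b T).symm
  · intro h a b hab
    exact (h a b hab).congr fun T => n_eq r a b T

theorem Upper_iff (r : ℕ) : Upper r ↔ FZ.Up SI r := by
  constructor
  · intro h a b hab ε hε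
    filter_upwards [h a b hab ε hε, eventually_gt_atTop (1 : ℝ)] with T h1 hT
    have hX : 0 < X T := Xf_pos hT
    rw [n_eq, div_le_iff₀ hX]
    exact h1
  · intro h a b hab ε hε
    filter_upwards [h a b hab ε hε, eventually_gt_atTop (1 : ℝ)] with T h1 hT
    have hX : 0 < X T := Xf_pos hT
    rw [n_eq, div_le_iff₀ hX] at h1
    exact h1

theorem conj_desc {r : ℕ} (hr : 1 ≤ r) (h : Conj (r + 1)) : Conj r := by
  rw [Conj_iff] at h ⊢
  exact full_desc FZ SI_int0 hr h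

theorem upper_desc {r : ℕ} (hr : 1 ≤ r) (h : Upper (r + 1)) : Upper r := by
  rw [Upper_iff] at h ⊢
  exact up_desc FZ SI_int0 hr h

theorem upper_one {r : ℕ} (hr : 1 ≤ r) (h : Upper r) : Upper 1 := by
  induction r, hr using Nat.le_induction with
  | base => exact h
  | succ r hr ih => exact ih (upper_desc hr h)

theorem conj_le {r r' : ℕ} (hr : 1 ≤ r) (hrr : r ≤ r') (h : Conj r') : Conj r := by
  induction r', hrr using Nat.le_induction with
  | base => exact h
  | succ r' hrr' ih => exact ih (conj_desc (hr.trans hrr') h)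

/-- pairs from level one -/
theorem Aa_n (T : ℝ) {y : ℝ} (hy : 0 ≤ y) :
    Aa T y = FZ.n 1 (fun _ => -y) (fun _ => y) T + FZ.N T := by
  have h1 : FZ.n 1 (fun _ => -y) (fun _ => y) T =
      (cnt (JZ T) (xz T) 1 (fun _ => -y) (fun _ => y) : ℝ) / Xf T := rfl
  have h2 : FZ.N T = ((JZ T).card : ℝ) / Xf T := rfl
  rw [h1, h2, cnt_one, Set.indicator_of_mem (show (0 : ℝ) ∈ Set.Icc (-y) y from ⟨by linarith, hy⟩),
    one_mul]
  unfold Aa
  have e : {x : ℝ | |x| ≤ y} = Set.Icc (-y) y := by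
    ext x
    show |x| ≤ y ↔ -y ≤ x ∧ x ≤ y
    exact abs_le
  rw [e]
  ring

theorem gp_tend0 : Tendsto gp (𝓝[>] 0) (𝓝 0) := by
  have h := gp_cont.continuousAt.tendsto (x := (0 : ℝ))
  rw [gp_zero] at h
  exact h.mono_left nhdsWithin_le_nhds

theorem diag_of_upper (h : Upper 1) : ∀ ε : ℝ, 0 < ε → ∀ᶠ T in atTop, Aa T 0 ≤ 1 + ε := by
  intro ε hε
  rw [Upper_iff] at h
  have h1 : ∀ᶠ y : ℝ in 𝓝[>] 0, gp y < ε / 8 := (tendsto_order.1 gp_tend0).2 _ (by positivity)
  have h2 : ∀ᶠ y : ℝ in 𝓝[>] 0, y ∈ Set.Ioi (0 : ℝ) := self_mem_nhdsWithin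
  obtain ⟨y, h3, h4⟩ := (h1.and h2).exists
  have hy : 0 < y := h4
  filter_upwards [h (fun _ => -y) (fun _ => y) (fun _ => by linarith) (ε / 4) (by positivity),
    FZ.N_le (ε / 4) (by positivity), eventually_gt_atTop (1 : ℝ)] with T b1 b2 hT
  rw [SI_one _ _ (by linarith : -y < y), gp_odd] at b1
  have b3 := Aa_mono hT hy.le
  have b4 := Aa_n T hy.le
  linarith

theorem N_le_Aa (T : ℝ) : FZ.N T ≤ Aa T 0 ∨ T ≤ 1 := by
  rcases le_or_gt T 1 with h | h
  · exact Or.inr h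
  · left
    rw [Aa_n T le_rfl]
    have hX : 0 < Xf T := Xf_pos h
    have : 0 ≤ FZ.n 1 (fun _ => -0) (fun _ => 0) T := by
      unfold Fam.n
      exact div_nonneg (Nat.cast_nonneg _) hX.le
    linarith

theorem upExp_of_upper (h : Upper 1) : Q241.HF.UpExp := by
  refine ⟨0, 1, 1, one_pos, fun β hβ ε hε => ?_⟩
  rw [Upper_iff] at h
  have hβ0 : 0 < β := by linarith
  filter_upwards [h (fun _ => -β) (fun _ => β) (fun _ => by linarith) ε hε,
    Q241.HF.N0_Dn hβ0.le, eventually_gt_atTop (1 : ℝ)] with T b1 b2 hT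
  have hX : 0 < Xf T := Xf_pos hT
  rw [SI_one _ _ (by linarith : -β < β), gp_odd] at b1
  have b4 := Aa_n T hβ0.le
  have b5 : FZ.N T ≤ Aa T 0 := by
    rcases N_le_Aa T with h | h
    · exact h
    · linarith
  rw [b2, Q241.OP.G.intF, gp_zero]
  have e : Q241.OP.G.X T = Xf T := rfl
  rw [e]
  unfold Q241.OP.Dn
  have b6 : Aa T β - Aa T 0 ≤ 2 * (gp β + ε) := by linarith
  have b7 : Xf T * (Aa T β - Aa T 0) ≤ Xf T * (2 * (gp β + ε)) := mul_le_mul_of_nonneg_left b6 hX.le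
  rw [zero_mul]
  linarith

theorem conj_one_of {h : ∀ x, Tendsto (fun T => Aa T x) atTop (𝓝 (AG x))} : Conj 1 := by
  rw [Conj_iff]
  intro a b hab
  have h1 := (Nr_all le_rfl h (hab 0)).sub (FZ.hJ.const_mul
    ((Set.Icc (a 0) (b 0)).indicator (fun _ => (1 : ℝ)) 0))
  have e : Pool.Agent.Y744.pr (a 0) (b 0) - (Set.Icc (a 0) (b 0)).indicator (fun _ => (1 : ℝ)) 0 * 1 = SI 1 a b := by
    rw [SI_one a b (hab 0)]
    unfold Pool.Agent.Y744.pr
    ring
  rw [e] at h1
  refine h1.congr fun T => ?_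
  have h2 : FZ.n 1 a b T = (cnt (JZ T) (xz T) 1 a b : ℝ) / Xf T := rfl
  rw [h2, cnt_one]
  unfold Nr
  have h3 : ((FZ.J T).card : ℝ) / FZ.X T = ((JZ T).card : ℝ) / Xf T := rfl
  rw [h3]
  ring

/-- **main theorem** -/
theorem main : (∀ r : ℕ, 1 ≤ r → Conj (r + 1) → Conj r) ∧ (∀ r : ℕ, 1 ≤ r → Upper (r + 1) → Upper r) ∧
    (∀ r : ℕ, 1 ≤ r → Upper r → Conj 1 ∧ Q241.OP.Good) ∧
    ((∀ r : ℕ, 1 ≤ r → Conj r) ↔ ∀ r0 : ℕ, ∃ r : ℕ, r0 ≤ r ∧ Conj r) := by
  refine ⟨fun r hr h => conj_desc hr h, fun r hr h => upper_desc hr h, fun r hr h => ?_, ?_⟩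
  · have h1 := upper_one hr h
    have hd : Q241.HF.Diag := Q241.HF.Diag_iff.2 (diag_of_upper h1)
    have h2 := Q241.HF.up_all hd (upExp_of_upper h1)
    exact ⟨conj_one_of (h := h2), (Q241.HF.all_of h2).2.1⟩
  · constructor
    · intro h r0
      exact ⟨max r0 1, le_max_left _ _, h _ (le_max_right _ _)⟩
    · intro h r hr
      obtain ⟨r', h1, h2⟩ := h r
      exact conj_le hr h1 h2

end Q241.KL
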