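import Pool.Agent.Q241.KL.C

/-! # Descent of the levels -/

set_option autoImplicit false

namespace Q241.KL

open Finset Filter Topology

variable {ι : Type*} [DecidableEq ι] (F : Fam ι)

/-- the number of points in long windows has small deviation -/
theorem dev {k : ℕ} (hk : 2 ≤ k) (h : F.Cube k) {ε : ℝ} (hε : 0 < ε) :
    ∃ L0 : ℝ, 0 < L0 ∧ ∀ L : ℝ, L0 ≤ L → ∀ᶠ T in atTop,
      (∑ j ∈ F.J T, |(w (F.J T) (F.x T) L j : ℝ) / (2 * L) - 1| ^ k) / F.X T ≤ ε := by
  have hk0 : (0 : ℝ) < k := by exact_mod_cast (by omega : 0 < k)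
  have hk1 : (1 : ℝ) ≤ k := by exact_mod_cast (by omega : 1 ≤ k)
  set η : ℝ := ε / 4 with hη
  have hη0 : 0 < η := by positivity
  set ζ : ℝ := min (1 / 2) (ε / (8 * k)) with hζ
  have hζ0 : 0 < ζ := by positivity
  have hζ1 : ζ < 1 := (min_le_left _ _).trans_lt (by norm_num)
  have hζk : 2 * k * ζ ≤ ε / 4 := by
    have h1 : ζ ≤ ε / (8 * k) := min_le_right _ _
    have h2 : 2 * k * ζ ≤ 2 * k * (ε / (8 * k)) := mul_le_mul_of_nonneg_left h1 (by positivity)
    have e : 2 * k * (ε / (8 * k)) = ε / 4 := by field_simp; ring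
    linarith
  obtain ⟨c, hc, h1⟩ := mom_le F h hη0
  obtain ⟨L1, hL1, h2⟩ := pr_low F hk h hζ0 hζ1
  refine ⟨max (max L1 (1 / 2)) ((c + 1) / (ε / 4)), by positivity, fun L hL => ?_⟩
  have hLL1 : L1 ≤ L := ((le_max_left _ _).trans (le_max_left _ _)).trans hL
  have hL2 : 1 / 2 ≤ L := ((le_max_right _ _).trans (le_max_left _ _)).trans hL
  have hLc : (c + 1) / (ε / 4) ≤ L := (le_max_right _ _).trans hL
  have hL0 : 0 < L := by linarith
  have hA : 0 < 2 * L := by linarith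
  have hA1 : 1 ≤ 2 * L := by linarith
  have hP : 0 < (2 * L) ^ k := by positivity
  have hPL : 2 * L ≤ (2 * L) ^ k := le_self_pow₀ hA1 (by omega)
  filter_upwards [F.pos, h1 L hL0 1 one_pos, h2 L hLL1, F.N_le (ε / (4 * k)) (by positivity)]
    with T hT b1 b2 b3
  have hX0 : 0 < F.X T := by linarith
  have key : (∑ j ∈ F.J T, |(w (F.J T) (F.x T) L j : ℝ) / (2 * L) - 1| ^ k) / F.X T ≤
      F.m k L T / (2 * L) ^ k + (k - 1) * F.N T - k * (F.p L T / (2 * L)) := by
    have e : F.m k L T / (2 * L) ^ k + (k - 1) * F.N T - k * (F.p L T / (2 * L)) =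
        (∑ j ∈ F.J T, (((w (F.J T) (F.x T) L j : ℝ) / (2 * L)) ^ k - 1 -
          k * ((w (F.J T) (F.x T) L j : ℝ) / (2 * L) - 1))) / F.X T := by
      have e2 : ∀ j ∈ F.J T, (((w (F.J T) (F.x T) L j : ℝ) / (2 * L)) ^ k - 1 -
          k * ((w (F.J T) (F.x T) L j : ℝ) / (2 * L) - 1)) =
          (w (F.J T) (F.x T) L j : ℝ) ^ k * (1 / (2 * L) ^ k) + ((k : ℝ) - 1) -
            (w (F.J T) (F.x T) L j : ℝ) * (k / (2 * L)) := by
        intro j _
        rw [div_pow]
        ring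
      rw [Finset.sum_congr rfl e2, Finset.sum_sub_distrib, Finset.sum_add_distrib, sum_const,
        nsmul_eq_mul, ← Finset.sum_mul, ← Finset.sum_mul]
      unfold Fam.m Fam.N Fam.p pr
      field_simp
    rw [e]
    refine div_le_div_of_nonneg_right ?_ hX0.le
    exact Finset.sum_le_sum fun j _ => tangent (by positivity) hk
  refine key.trans ?_
  have c1 : F.m k L T / (2 * L) ^ k ≤ 1 + η + ε / 4 := by
    rw [div_le_iff₀ hP]
    have h3 : c + 1 ≤ ε / 4 * (2 * L) ^ k := by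
      rw [div_le_iff₀ (by positivity)] at hLc
      have h4 : ε / 4 * (2 * L) ≤ ε / 4 * (2 * L) ^ k :=
        mul_le_mul_of_nonneg_left hPL (by positivity)
      nlinarith
    have e : (1 + η + ε / 4) * (2 * L) ^ k = (1 + η) * (2 * L) ^ k + ε / 4 * (2 * L) ^ k := by ring
    rw [e]
    linarith
  have c2 : ((k : ℝ) - 1) * F.N T ≤ ((k : ℝ) - 1) + ε / 4 := by
    have h3 : ((k : ℝ) - 1) * F.N T ≤ ((k : ℝ) - 1) * (1 + ε / (4 * k)) :=
      mul_le_mul_of_nonneg_left b3 (by linarith)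
    have h4 : ((k : ℝ) - 1) * (ε / (4 * k)) ≤ k * (ε / (4 * k)) :=
      mul_le_mul_of_nonneg_right (by linarith) (by positivity)
    have e : (k : ℝ) * (ε / (4 * k)) = ε / 4 := by field_simp
    have e2 : ((k : ℝ) - 1) * (1 + ε / (4 * k)) = ((k : ℝ) - 1) + ((k : ℝ) - 1) * (ε / (4 * k)) := by ring
    linarith
  have c3 : (k : ℝ) * (1 - 2 * ζ) ≤ k * (F.p L T / (2 * L)) := by
    apply mul_le_mul_of_nonneg_left _ hk0.le
    rw [le_div_iff₀ hA]
    linarith
  have e5 : (k : ℝ) * (1 - 2 * ζ) = k - 2 * k * ζ := by ring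
  rw [e5] at c3
  linarith

/-- **one step of the descent** -/
theorem step {r : ℕ} (hr : 1 ≤ r) (h : F.Cube (r + 1)) (a b : Fin r → ℝ) {ε : ℝ} (hε : 0 < ε) :
    ∃ L0 : ℝ, 0 < L0 ∧ ∀ L : ℝ, L0 ≤ L → ∀ᶠ T in atTop,
      |F.n r a b T - F.n (r + 1) (Fin.cons (-L) a) (Fin.cons L b) T / (2 * L)| ≤ ε := by
  -- a bound for the box
  obtain ⟨R, hR1, hRa, hRb⟩ : ∃ R : ℝ, 1 ≤ R ∧ (∀ l, -R ≤ a l) ∧ (∀ l, b l ≤ R) := by
    refine ⟨1 + ∑ l, (|a l| + |b l|), ?_, ?_, ?_⟩
    · have : 0 ≤ ∑ l, (|a l| + |b l|) := Finset.sum_nonneg fun l _ => by positivity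
      linarith
    · intro l
      have h1 : |a l| + |b l| ≤ ∑ l, (|a l| + |b l|) :=
        Finset.single_le_sum (f := fun l => |a l| + |b l|) (fun l _ => by positivity) (mem_univ l)
      have := neg_abs_le (a l)
      have := abs_nonneg (b l)
      linarith
    · intro l
      have h1 : |a l| + |b l| ≤ ∑ l, (|a l| + |b l|) :=
        Finset.single_le_sum (f := fun l => |a l| + |b l|) (fun l _ => by positivity) (mem_univ l)
      have := le_abs_self (b l)
      have := abs_nonneg (a l)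
      linarith
  have hR0 : 0 < R := by linarith
  obtain ⟨c, hc, h1⟩ := mom_le F h one_pos
  set M : ℝ := (1 + 1) * (2 * R) ^ (r + 1) + c + 1 with hM
  have hM0 : 0 < M := by positivity
  set δ : ℝ := ε / (4 * M) with hδ
  have hδ0 : 0 < δ := by positivity
  obtain ⟨L1, hL1, h2⟩ := dev F (by omega) h (ε := ε / 4 * δ ^ r) (by positivity)
  refine ⟨max (max L1 R) (2 * r * (M + 2) / ε), by positivity, fun L hL => ?_⟩
  have hLL1 : L1 ≤ L := ((le_max_left _ _).trans (le_max_left _ _)).trans hL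
  have hLR : R ≤ L := ((le_max_right _ _).trans (le_max_left _ _)).trans hL
  have hLr : 2 * r * (M + 2) / ε ≤ L := (le_max_right _ _).trans hL
  have hL0 : 0 < L := by linarith
  filter_upwards [F.pos, h1 R hR0 1 one_pos, h2 L hLL1, F.N_le 1 one_pos] with T hT b1 b2 b3
  have hX0 : 0 < F.X T := by linarith
  set J := F.J T
  set x := F.x T
  -- the difference
  have hpt : ∀ j ∈ J, |((E J x j r a b).card : ℝ) -
      ((E J x j (r + 1) (Fin.cons (-L) a) (Fin.cons L b)).card : ℝ) / (2 * L)| ≤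
      (δ * (w J x R j : ℝ) ^ (r + 1) + |(w J x L j : ℝ) / (2 * L) - 1| ^ (r + 1) / δ ^ r) +
        r / (2 * L) * ((w J x R j : ℝ) ^ (r + 1) + 1) := by
    intro j _
    rw [E_succ J x j r a b L (fun l => by have := hRa l; linarith) (fun l => by have := hRb l; linarith)]
    have hC : ((E J x j r a b).card : ℝ) ≤ (w J x R j : ℝ) ^ r := by
      exact_mod_cast E_le_pow J x j r a b R hRa hRb
    have hC0 : (0 : ℝ) ≤ ((E J x j r a b).card : ℝ) := Nat.cast_nonneg _
    have hV0 : (0 : ℝ) ≤ (w J x R j : ℝ) := Nat.cast_nonneg _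
    have hy := young hV0 (abs_nonneg ((w J x L j : ℝ) / (2 * L) - 1)) hδ0 r
    have hVr : (w J x R j : ℝ) ^ r ≤ (w J x R j : ℝ) ^ (r + 1) + 1 := by
      rcases Nat.eq_zero_or_pos (w J x R j) with h0 | h0
      · rw [h0, Nat.cast_zero, zero_pow (by omega), zero_pow (by omega)]; norm_num
      · have : (1 : ℝ) ≤ (w J x R j : ℝ) := by exact_mod_cast h0
        have := pow_le_pow_right₀ this (show r ≤ r + 1 by omega)
        linarith
    have hmain : |((E J x j r a b).card : ℝ) - (((E J x j r a b).card * (w J x L j - r) : ℕ) : ℝ) / (2 * L)| ≤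
        ((E J x j r a b).card : ℝ) * |(w J x L j : ℝ) / (2 * L) - 1| +
          r / (2 * L) * ((E J x j r a b).card : ℝ) := by
      rcases Nat.eq_zero_or_pos (E J x j r a b).card with h0 | h0
      · rw [h0]; simp
      · obtain ⟨t, ht⟩ := Finset.card_pos.mp h0
        have hw : r ≤ w J x L j :=
          le_w (fun l => by have := hRa l; linarith) (fun l => by have := hRb l; linarith) ht
        rw [Nat.cast_mul, Nat.cast_sub hw]
        have e : ((E J x j r a b).card : ℝ) - ((E J x j r a b).card : ℝ) * ((w J x L j : ℝ) - r) / (2 * L) =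
            -(((E J x j r a b).card : ℝ) * ((w J x L j : ℝ) / (2 * L) - 1)) +
              r / (2 * L) * ((E J x j r a b).card : ℝ) := by
          field_simp
          ring
        rw [e]
        refine (abs_add_le _ _).trans ?_
        rw [abs_neg, abs_mul, abs_of_nonneg hC0,
          abs_of_nonneg (show 0 ≤ r / (2 * L) * ((E J x j r a b).card : ℝ) by positivity)]
    refine hmain.trans ?_
    refine add_le_add ?_ ?_
    · exact (mul_le_mul_of_nonneg_right hC (abs_nonneg _)).trans hy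
    · exact mul_le_mul_of_nonneg_left (hC.trans hVr) (by positivity)
  have hsum : |F.n r a b T - F.n (r + 1) (Fin.cons (-L) a) (Fin.cons L b) T / (2 * L)| ≤
      δ * F.m (r + 1) R T + (∑ j ∈ J, |(w J x L j : ℝ) / (2 * L) - 1| ^ (r + 1)) / F.X T / δ ^ r +
        r / (2 * L) * (F.m (r + 1) R T + F.N T) := by
    have e1 : F.n r a b T - F.n (r + 1) (Fin.cons (-L) a) (Fin.cons L b) T / (2 * L) =
        (∑ j ∈ J, (((E J x j r a b).card : ℝ) -
      ((E J x j (r + 1) (Fin.cons (-L) a) (Fin.cons L b)).card : ℝ) / (2 * L))) / F.X T := by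
      have f1 : F.n r a b T = (∑ j ∈ J, ((E J x j r a b).card : ℝ)) / F.X T := by
        unfold Fam.n cnt
        push_cast
        rfl
      have f2 : F.n (r + 1) (Fin.cons (-L) a) (Fin.cons L b) T =
          (∑ j ∈ J, ((E J x j (r + 1) (Fin.cons (-L) a) (Fin.cons L b)).card : ℝ)) / F.X T := by
        unfold Fam.n cnt
        push_cast
        rfl
      rw [Finset.sum_sub_distrib, ← Finset.sum_div, f1, f2]
      field_simp
    rw [e1, abs_div, abs_of_pos hX0]
    have e2 : δ * F.m (r + 1) R T + (∑ j ∈ J, |(w J x L j : ℝ) / (2 * L) - 1| ^ (r + 1)) / F.X T / δ ^ r +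
        r / (2 * L) * (F.m (r + 1) R T + F.N T) =
        (∑ j ∈ J, ((δ * (w J x R j : ℝ) ^ (r + 1) + |(w J x L j : ℝ) / (2 * L) - 1| ^ (r + 1) / δ ^ r) +
        r / (2 * L) * ((w J x R j : ℝ) ^ (r + 1) + 1))) / F.X T := by
      rw [Finset.sum_add_distrib, Finset.sum_add_distrib, ← Finset.mul_sum, ← Finset.mul_sum,
        Finset.sum_add_distrib, sum_const, nsmul_eq_mul, mul_one, ← Finset.sum_div]
      have e3 : F.m (r + 1) R T = (∑ j ∈ J, (w J x R j : ℝ) ^ (r + 1)) / F.X T := rfl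
      have e4 : F.N T = (J.card : ℝ) / F.X T := rfl
      rw [e3, e4]
      field_simp
    rw [e2]
    refine div_le_div_of_nonneg_right ?_ hX0.le
    exact (Finset.abs_sum_le_sum_abs _ _).trans (Finset.sum_le_sum hpt)
  refine hsum.trans ?_
  have c1 : δ * F.m (r + 1) R T ≤ ε / 4 := by
    have h3 : δ * F.m (r + 1) R T ≤ δ * M := mul_le_mul_of_nonneg_left (by rw [hM]; linarith) hδ0.le
    have e : δ * M = ε / 4 := by rw [hδ]; field_simp
    linarith
  have c2 : (∑ j ∈ J, |(w J x L j : ℝ) / (2 * L) - 1| ^ (r + 1)) / F.X T / δ ^ r ≤ ε / 4 := by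
    rw [div_le_iff₀ (by positivity)]
    exact b2
  have c3 : r / (2 * L) * (F.m (r + 1) R T + F.N T) ≤ ε / 4 := by
    rw [div_mul_eq_mul_div, div_le_iff₀ (by positivity)]
    rw [div_le_iff₀ hε] at hLr
    have hr0 : (0 : ℝ) ≤ r := Nat.cast_nonneg r
    have h3 : (r : ℝ) * (F.m (r + 1) R T + F.N T) ≤ r * (M + 2) :=
      mul_le_mul_of_nonneg_left (by rw [hM]; linarith) hr0
    nlinarith
  linarith

/-- abstract properties of the limiting intensities -/
structure Int0 (I : (r : ℕ) → (Fin r → ℝ) → (Fin r → ℝ) → ℝ) : Prop where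
  cube : ∀ r : ℕ, ∀ R : ℝ, 0 < R → I r (fun _ => -R) (fun _ => R) ≤ (2 * R) ^ r
  lim : ∀ r : ℕ, 1 ≤ r → ∀ a b : Fin r → ℝ, (∀ l, a l < b l) → Tendsto
    (fun L : ℝ => I (r + 1) (Fin.cons (-L) a) (Fin.cons L b) / (2 * L)) atTop (𝓝 (I r a b))

/-- the upper half at level `r + 1` -/
def Fam.Up (I : (r : ℕ) → (Fin r → ℝ) → (Fin r → ℝ) → ℝ) (r : ℕ) : Prop :=
  ∀ a b : Fin r → ℝ, (∀ l, a l < b l) → Le (F.n r a b) (I r a b)

/-- the full statement at level `r + 1` -/
def Fam.Full (I : (r : ℕ) → (Fin r → ℝ) → (Fin r → ℝ) → ℝ) (r : ℕ) : Prop :=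
  ∀ a b : Fin r → ℝ, (∀ l, a l < b l) → Tendsto (F.n r a b) atTop (𝓝 (I r a b))

variable {I : (r : ℕ) → (Fin r → ℝ) → (Fin r → ℝ) → ℝ}

theorem Fam.Full.up {r : ℕ} (h : F.Full I r) : F.Up I r := fun a b hab => le_of_tendsto' (h a b hab)

theorem Fam.Up.cube (hI : Int0 I) {r : ℕ} (h : F.Up I r) : F.Cube r := by
  intro R hR
  exact (h _ _ fun _ => by linarith).mono (Eventually.of_forall fun T => le_rfl) (hI.cube r R hR)

theorem cons_lt {r : ℕ} {a b : Fin r → ℝ} (hab : ∀ l, a l < b l) {L : ℝ} (hL : 0 < L) :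
    ∀ l : Fin (r + 1), (Fin.cons (-L) a : Fin (r + 1) → ℝ) l < (Fin.cons L b : Fin (r + 1) → ℝ) l := by
  intro l
  refine Fin.cases ?_ (fun l => ?_) l
  · simp only [Fin.cons_zero]; linarith
  · simp only [Fin.cons_succ]; exact hab l

theorem up_desc (hI : Int0 I) {r : ℕ} (hr : 1 ≤ r) (h : F.Up I (r + 1)) : F.Up I r := by
  intro a b hab ε hε
  obtain ⟨L0, hL0, h1⟩ := step F hr (h.cube F hI) a b (ε := ε / 3) (by positivity)
  obtain ⟨L, h2, h3⟩ := (((tendsto_order.1 (hI.lim r hr a b hab)).2 (I r a b + ε / 3)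
    (by linarith)).and (eventually_ge_atTop (max L0 1))).exists
  have hLL : L0 ≤ L := (le_max_left _ _).trans h3
  have hL1 : 1 ≤ L := (le_max_right _ _).trans h3
  filter_upwards [h1 L hLL, h _ _ (cons_lt hab (by linarith : 0 < L)) (ε / 3) (by positivity)] with T b1 b2
  have b3 := (abs_le.mp b1).2
  have b4 : F.n (r + 1) (Fin.cons (-L) a) (Fin.cons L b) T / (2 * L) ≤
      I (r + 1) (Fin.cons (-L) a) (Fin.cons L b) / (2 * L) + ε / 3 := by
    rw [div_add' _ _ _ (by positivity)]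
    refine div_le_div_of_nonneg_right ?_ (by positivity)
    nlinarith
  linarith

theorem full_desc (hI : Int0 I) {r : ℕ} (hr : 1 ≤ r) (h : F.Full I (r + 1)) : F.Full I r := by
  intro a b hab
  rw [Metric.tendsto_nhds]
  intro ε hε
  obtain ⟨L0, hL0, h1⟩ := step F hr (h.up.cube F hI) a b (ε := ε / 4) (by positivity)
  have hlim := hI.lim r hr a b hab
  rw [Metric.tendsto_nhds] at hlim
  obtain ⟨L, h2, h3⟩ := ((hlim (ε / 4) (by positivity)).and (eventually_ge_atTop (max L0 1))).exists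
  have hLL : L0 ≤ L := (le_max_left _ _).trans h3
  have hL1 : 1 ≤ L := (le_max_right _ _).trans h3
  have h4 := h _ _ (cons_lt hab (by linarith : 0 < L))
  rw [Metric.tendsto_nhds] at h4
  filter_upwards [h1 L hLL, h4 (ε / 4) (by positivity)] with T b1 b2
  rw [Real.dist_eq] at b2 h2 ⊢
  have b4 : |F.n (r + 1) (Fin.cons (-L) a) (Fin.cons L b) T / (2 * L) -
      I (r + 1) (Fin.cons (-L) a) (Fin.cons L b) / (2 * L)| ≤ ε / 4 := by
    rw [← sub_div, abs_div, abs_of_pos (show (0 : ℝ) < 2 * L by linarith),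
      div_le_iff₀ (by linarith : (0 : ℝ) < 2 * L)]
    nlinarith
  have b5 := abs_le.mp b1
  have b6 := abs_le.mp b4
  have b7 := abs_lt.mp h2
  rw [abs_lt]
  constructor <;> linarith [b5.1, b5.2, b6.1, b6.2, b7.1, b7.2]

end Q241.KL
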