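import Pool.Agent.Q241.KL.K7

/-! # The upper half implies the conjecture, at every level: conclusion -/

set_option autoImplicit false

namespace Q241.KL

open Finset Filter Topology

variable {ι : Type*} [DecidableEq ι]

theorem desc_ineq (V t : ℕ) (y : ℝ) {δ : ℝ} (hδ : 0 < δ) :
    (V.descFactorial (t + 1) : ℝ) * |y| ≤
      δ * ((V.descFactorial (t + 2) : ℝ) + (V.descFactorial (t + 1) : ℝ)) +
        (V.descFactorial t : ℝ) * y ^ 2 / (4 * δ) := by
  have h0 : (0 : ℝ) ≤ (V.descFactorial t : ℝ) := Nat.cast_nonneg _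
  have key : ∀ x : ℝ, x * |y| ≤ δ * x ^ 2 + y ^ 2 / (4 * δ) := by
    intro x
    rw [← sub_nonneg]
    have e : δ * x ^ 2 + y ^ 2 / (4 * δ) - x * |y| = (2 * δ * x - |y|) ^ 2 / (4 * δ) := by
      rw [← sq_abs y]
      field_simp
      ring
    rw [e]
    positivity
  have e1 : V.descFactorial (t + 1) = (V - t) * V.descFactorial t := Nat.descFactorial_succ V t
  have e2 : V.descFactorial (t + 2) = (V - (t + 1)) * ((V - t) * V.descFactorial t) := by
    rw [Nat.descFactorial_succ V (t + 1), e1]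
  have e3 : (V.descFactorial (t + 2) : ℝ) + (V.descFactorial (t + 1) : ℝ) =
      (V.descFactorial t : ℝ) * ((V - t : ℕ) : ℝ) ^ 2 := by
    rw [e1, e2]
    rcases Nat.eq_zero_or_pos (V - t) with h | h
    · rw [h]
      simp
    · obtain ⟨x, hx⟩ : ∃ x, V - t = x + 1 := ⟨V - t - 1, by omega⟩
      have h4 : V - (t + 1) = x := by omega
      rw [h4, hx]
      push_cast
      ring
  rw [e3, e1]
  push_cast
  have h5 := mul_le_mul_of_nonneg_left (key ((V - t : ℕ) : ℝ)) h0
  calc ((V - t : ℕ) : ℝ) * (V.descFactorial t : ℝ) * |y| =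
      (V.descFactorial t : ℝ) * (((V - t : ℕ) : ℝ) * |y|) := by ring
    _ ≤ _ := h5
    _ = _ := by ring

theorem E_mono (J : Finset ι) (x : ι → ℝ) (j : ι) {r : ℕ} {a b a' b' : Fin r → ℝ}
    (ha : ∀ l, a' l ≤ a l) (hb : ∀ l, b l ≤ b' l) : E J x j r a b ⊆ E J x j r a' b' := by
  intro s hs
  rw [mem_E] at hs ⊢
  exact ⟨hs.1, hs.2.1, hs.2.2.1, fun l => ⟨(ha l).trans (hs.2.2.2 l).1, (hs.2.2.2 l).2.trans (hb l)⟩⟩

theorem cnt_cut (J : Finset ι) (x : ι → ℝ) {r : ℕ} (a b : Fin r → ℝ) (p c d q : ℝ) :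
    (cnt J x (r + 1) (Fin.cons p a) (Fin.cons q b) : ℝ) ≤
      cnt J x (r + 1) (Fin.cons p a) (Fin.cons c b) + cnt J x (r + 1) (Fin.cons c a) (Fin.cons d b) +
        cnt J x (r + 1) (Fin.cons d a) (Fin.cons q b) := by
  classical
  unfold cnt
  push_cast
  rw [← Finset.sum_add_distrib, ← Finset.sum_add_distrib]
  refine Finset.sum_le_sum fun j _ => ?_
  have hsub : E J x j (r + 1) (Fin.cons p a) (Fin.cons q b) ⊆
      E J x j (r + 1) (Fin.cons p a) (Fin.cons c b) ∪ E J x j (r + 1) (Fin.cons c a) (Fin.cons d b) ∪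
        E J x j (r + 1) (Fin.cons d a) (Fin.cons q b) := by
    intro s hs
    rw [mem_union, mem_union, mem_E, mem_E, mem_E]
    rw [mem_E] at hs
    obtain ⟨h1, h2, h3, h4⟩ := hs
    have h5 := h4 0
    simp only [Fin.cons_zero] at h5
    have h6 : ∀ l : Fin r, a l ≤ x (s l.succ) - x j ∧ x (s l.succ) - x j ≤ b l := by
      intro l
      have := h4 l.succ
      simp only [Fin.cons_succ] at this
      exact this
    have hcons : ∀ p q : ℝ, (p ≤ x (s 0) - x j ∧ x (s 0) - x j ≤ q) →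
        ∀ l : Fin (r + 1), (Fin.cons p a : Fin (r + 1) → ℝ) l ≤ x (s l) - x j ∧
          x (s l) - x j ≤ (Fin.cons q b : Fin (r + 1) → ℝ) l := by
      intro p q hpq l
      refine Fin.cases ?_ (fun l => ?_) l
      · simp only [Fin.cons_zero]
        exact hpq
      · simp only [Fin.cons_succ]
        exact h6 l
    rcases le_total (x (s 0) - x j) c with h7 | h7
    · left; left
      exact ⟨h1, h2, h3, hcons p c ⟨h5.1, h7⟩⟩
    · rcases le_total (x (s 0) - x j) d with h8 | h8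
      · left; right
        exact ⟨h1, h2, h3, hcons c d ⟨h7, h8⟩⟩
      · right
        exact ⟨h1, h2, h3, hcons d q ⟨h8, h5.2⟩⟩
  have h1 := (card_le_card hsub).trans ((card_union_le _ _).trans
    (Nat.add_le_add_right (card_union_le _ _) _))
  exact_mod_cast h1

/-- the number of tuples with one more coordinate in a window -/
theorem cnt_window (J : Finset ι) (x : ι → ℝ) {s : ℕ} (a b : Fin s → ℝ) {ρ : ℝ}
    (ha : ∀ l, -ρ ≤ a l) (hb : ∀ l, b l ≤ ρ) :
    (cnt J x (s + 1) (Fin.cons (-ρ) a) (Fin.cons ρ b) : ℝ) =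
      ∑ j ∈ J, ((E J x j s a b).card : ℝ) * ((w J x ρ j : ℝ) + 1 - 2 * ρ) +
        (2 * ρ - ((s + 1 : ℕ) : ℝ)) * cnt J x s a b := by
  unfold cnt
  push_cast
  rw [Finset.mul_sum, ← Finset.sum_add_distrib]
  refine Finset.sum_congr rfl fun j _ => ?_
  rw [E_succ J x j s a b ρ ha hb]
  rcases Nat.eq_zero_or_pos (E J x j s a b).card with h0 | h0
  · rw [h0]; simp
  · obtain ⟨u, hu⟩ := Finset.card_pos.mp h0
    have hw1 : s ≤ w J x ρ j := le_w ha hb hu
    rw [Nat.cast_mul, Nat.cast_sub hw1]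
    ring

theorem cnt_avg (J : Finset ι) (x : ι → ℝ) {s : ℕ} (a b : Fin s → ℝ) {R : ℝ}
    (ha : ∀ l, -R ≤ a l) (hb : ∀ l, b l ≤ R) {N : ℕ} (hN : 0 < N) {r : ℕ → ℝ} (hr : ∀ m, R ≤ r m) :
    (∑ m ∈ range N, (cnt J x (s + 1) (Fin.cons (-(r m)) a) (Fin.cons (r m) b) : ℝ)) / N =
      ∑ j ∈ J, ((E J x j s a b).card : ℝ) * psi J x N r j +
        ((∑ m ∈ range N, 2 * r m) / N - ((s + 1 : ℕ) : ℝ)) * cnt J x s a b := by
  have hN0 : (0 : ℝ) < N := by exact_mod_cast hN
  have h1 : ∀ m ∈ range N, (cnt J x (s + 1) (Fin.cons (-(r m)) a) (Fin.cons (r m) b) : ℝ) =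
      ∑ j ∈ J, ((E J x j s a b).card : ℝ) * ((w J x (r m) j : ℝ) + 1 - 2 * r m) +
        (2 * r m - ((s + 1 : ℕ) : ℝ)) * cnt J x s a b := fun m _ =>
    cnt_window J x a b (fun l => by linarith [ha l, hr m]) (fun l => by linarith [hb l, hr m])
  rw [Finset.sum_congr rfl h1, Finset.sum_add_distrib, ← Finset.sum_mul, Finset.sum_sub_distrib,
    sum_const, card_range, nsmul_eq_mul, Finset.sum_comm]
  have h2 : ∑ j ∈ J, ∑ m ∈ range N, ((E J x j s a b).card : ℝ) * ((w J x (r m) j : ℝ) + 1 - 2 * r m) =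
      N * ∑ j ∈ J, ((E J x j s a b).card : ℝ) * psi J x N r j := by
    rw [Finset.mul_sum]
    refine Finset.sum_congr rfl fun j _ => ?_
    unfold psi
    rw [← Finset.mul_sum]
    field_simp
  rw [h2]
  field_simp

variable (F : Fam ι)

/-- the weighted first moment is small -/
theorem first_small {t : ℕ} (h2 : F.Up SI (t + 2)) (h1 : F.Full SI (t + 1))
    (a b : Fin (t + 1) → ℝ) {R : ℝ} (hR : 1 ≤ R) (ha : ∀ l, -R ≤ a l) (hb : ∀ l, b l ≤ R)
    {δ ε : ℝ} (hδ : 0 < δ) {N : ℕ} {r : ℕ → ℝ}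
    (hpsi : Le (fun T => (∑ j ∈ F.J T,
      ((E (F.J T) (F.x T) j t (fun _ => -R) (fun _ => R)).card : ℝ) *
        psi (F.J T) (F.x T) N r j ^ 2) / F.X T) ε) :
    Le (fun T => (∑ j ∈ F.J T, ((E (F.J T) (F.x T) j (t + 1) a b).card : ℝ) *
      |psi (F.J T) (F.x T) N r j|) / F.X T)
      (δ * ((2 * R) ^ (t + 2) + (2 * R) ^ (t + 1)) + ε / (4 * δ)) := by
  have hR0 : 0 < R := by linarith
  have g2 := h2.cube F SI_int0 R hR0
  have g1 := (h1.up).cube F SI_int0 R hR0
  have g := ((g2.add g1).const_mul hδ.le).add (hpsi.const_mul (show 0 ≤ 1 / (4 * δ) by positivity))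
  refine g.mono ?_ (le_of_eq (by ring))
  filter_upwards [F.pos] with T hT
  have hX0 : 0 < F.X T := by linarith
  have e : δ * (F.n (t + 2) (fun _ => -R) (fun _ => R) T + F.n (t + 1) (fun _ => -R) (fun _ => R) T) +
      1 / (4 * δ) * ((∑ j ∈ F.J T,
      ((E (F.J T) (F.x T) j t (fun _ => -R) (fun _ => R)).card : ℝ) *
        psi (F.J T) (F.x T) N r j ^ 2) / F.X T) =
      (∑ j ∈ F.J T, (δ * (((w (F.J T) (F.x T) R j).descFactorial (t + 2) : ℝ) +
        ((w (F.J T) (F.x T) R j).descFactorial (t + 1) : ℝ)) +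
        ((w (F.J T) (F.x T) R j).descFactorial t : ℝ) * psi (F.J T) (F.x T) N r j ^ 2 / (4 * δ))) /
        F.X T := by
    unfold Fam.n cnt
    simp_rw [E_desc]
    push_cast
    rw [Finset.sum_add_distrib, ← Finset.mul_sum, Finset.sum_add_distrib, ← Finset.sum_div]
    field_simp
  rw [e]
  refine div_le_div_of_nonneg_right (Finset.sum_le_sum fun j _ => ?_) hX0.le
  refine le_trans ?_ (desc_ineq (w (F.J T) (F.x T) R j) t (psi (F.J T) (F.x T) N r j) hδ)
  refine mul_le_mul_of_nonneg_right ?_ (abs_nonneg _)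
  rw [← E_desc]
  exact_mod_cast card_le_card (E_mono (F.J T) (F.x T) j ha hb)

theorem avg_n {s : ℕ} (a b : Fin s → ℝ) {R : ℝ}
    (ha : ∀ l, -R ≤ a l) (hb : ∀ l, b l ≤ R) {N : ℕ} (hN : 0 < N) {r : ℕ → ℝ} (hr : ∀ m, R ≤ r m)
    (T : ℝ) :
    (∑ m ∈ range N, F.n (s + 1) (Fin.cons (-(r m)) a) (Fin.cons (r m) b) T) / N =
      (∑ j ∈ F.J T, ((E (F.J T) (F.x T) j s a b).card : ℝ) * psi (F.J T) (F.x T) N r j) / F.X T +
        ((∑ m ∈ range N, 2 * r m) / N - ((s + 1 : ℕ) : ℝ)) * F.n s a b T := by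
  have h3 := cnt_avg (F.J T) (F.x T) a b ha hb hN hr
  unfold Fam.n
  rw [← Finset.sum_div, div_right_comm, h3, add_div, mul_div_assoc]

theorem neg_le_first {s : ℕ} (a b : Fin s → ℝ) (N : ℕ) (r : ℕ → ℝ) {T : ℝ} (hX0 : 0 < F.X T) :
    -((∑ j ∈ F.J T, ((E (F.J T) (F.x T) j s a b).card : ℝ) *
        |psi (F.J T) (F.x T) N r j|) / F.X T) ≤
        (∑ j ∈ F.J T, ((E (F.J T) (F.x T) j s a b).card : ℝ) * psi (F.J T) (F.x T) N r j) /
          F.X T := by
  rw [← neg_div, ← Finset.sum_neg_distrib]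
  refine div_le_div_of_nonneg_right (Finset.sum_le_sum fun j _ => ?_) hX0.le
  have h3 := neg_abs_le (psi (F.J T) (F.x T) N r j)
  have h4 : (0 : ℝ) ≤ ((E (F.J T) (F.x T) j s a b).card : ℝ) := Nat.cast_nonneg _
  have h5 := mul_le_mul_of_nonneg_left h3 h4
  linarith

theorem cut_n {s : ℕ} (a b : Fin s → ℝ) (c d : ℝ) (N : ℕ) (r : ℕ → ℝ) {T : ℝ} (hX0 : 0 < F.X T) :
    (∑ m ∈ range N, F.n (s + 1) (Fin.cons (-(r m)) a) (Fin.cons (r m) b) T) ≤
      (∑ m ∈ range N, (F.n (s + 1) (Fin.cons (-(r m)) a) (Fin.cons c b) T +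
        F.n (s + 1) (Fin.cons d a) (Fin.cons (r m) b) T)) +
          N * F.n (s + 1) (Fin.cons c a) (Fin.cons d b) T := by
  have h3 : (N : ℝ) * F.n (s + 1) (Fin.cons c a) (Fin.cons d b) T =
      ∑ m ∈ range N, F.n (s + 1) (Fin.cons c a) (Fin.cons d b) T := by
    rw [sum_const, card_range, nsmul_eq_mul]
  rw [h3, ← Finset.sum_add_distrib]
  refine Finset.sum_le_sum fun m _ => ?_
  have h4 := cnt_cut (F.J T) (F.x T) a b (-(r m)) c d (r m)
  unfold Fam.n
  rw [← add_div, ← add_div]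
  refine div_le_div_of_nonneg_right ?_ hX0.le
  linarith

omit [DecidableEq ι] in
theorem cut_SI {s : ℕ} (a b : Fin s → ℝ) {c d R : ℝ} (hcd : c ≤ d) (hc : -R ≤ c) (hd : d ≤ R)
    {N : ℕ} (hN : 0 < N) {r : ℕ → ℝ} (hr : ∀ m, R ≤ r m) {κ : ℝ} (hκ : ∀ m, SB s a b (r m) ≤ κ) :
    ∑ m ∈ range N, (SI (s + 1) (Fin.cons (-(r m)) a) (Fin.cons c b) +
      SI (s + 1) (Fin.cons d a) (Fin.cons (r m) b)) ≤
      N * κ + N * (((∑ m ∈ range N, 2 * r m) / N - ((s + 1 : ℕ) : ℝ)) * SI s a b) -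
        N * SI (s + 1) (Fin.cons c a) (Fin.cons d b) := by
  have hN0 : (0 : ℝ) < N := by exact_mod_cast hN
  have h3 : ∀ m ∈ range N, SI (s + 1) (Fin.cons (-(r m)) a) (Fin.cons c b) +
      SI (s + 1) (Fin.cons d a) (Fin.cons (r m) b) ≤
      κ + (2 * r m - ((s + 1 : ℕ) : ℝ)) * SI s a b - SI (s + 1) (Fin.cons c a) (Fin.cons d b) := by
    intro m _
    have hm := hr m
    have h4 := hκ m
    unfold SB at h4
    have h5 := SI_split s a b (c := -(r m)) (d := c) (e := r m) (by linarith) (by linarith)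
    have h6 := SI_split s a b (c := c) (d := d) (e := r m) hcd (by linarith)
    rw [h5, h6] at h4
    linarith
  refine (Finset.sum_le_sum h3).trans (le_of_eq ?_)
  rw [Finset.sum_sub_distrib, Finset.sum_add_distrib, sum_const, sum_const, card_range,
    nsmul_eq_mul, nsmul_eq_mul, ← Finset.sum_mul, Finset.sum_sub_distrib, sum_const, card_range,
    nsmul_eq_mul]
  have h7 : (∑ m ∈ range N, 2 * r m) = N * ((∑ m ∈ range N, 2 * r m) / N) := by
    field_simp
  rw [h7]
  generalize (∑ m ∈ range N, 2 * r m) / N = z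
  generalize SI s a b = z2
  generalize SI (s + 1) (Fin.cons c a) (Fin.cons d b) = z3
  field_simp

/-- **the upper half at a level implies the full statement at this level**, if the two lower levels
are known -/
theorem full_of_up {t : ℕ} (h2 : F.Up SI (t + 2)) (h1 : F.Full SI (t + 1)) (h0 : F.Full SI t) :
    F.Full SI (t + 2) := by
  intro A B hAB
  obtain ⟨c, a, rfl⟩ : ∃ c a, A = Fin.cons c a := ⟨A 0, Fin.tail A, (Fin.cons_self_tail A).symm⟩
  obtain ⟨d, b, rfl⟩ : ∃ d b, B = Fin.cons d b := ⟨B 0, Fin.tail B, (Fin.cons_self_tail B).symm⟩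
  have hcd : c < d := by
    have := hAB 0
    simpa using this
  have hab : ∀ l, a l < b l := by
    intro l
    have := hAB l.succ
    simpa using this
  rw [tendsto_order]
  refine ⟨fun y hy => ?_, fun y hy => ?_⟩
  · -- the lower bound
    set ε : ℝ := SI (t + 2) (Fin.cons c a) (Fin.cons d b) - y with hε
    have hε0 : 0 < ε := by
      have : y < SI (t + 2) (Fin.cons c a) (Fin.cons d b) := hy
      linarith
    obtain ⟨R, hR1, hRc, hRd, hRa, hRb⟩ : ∃ R : ℝ, 1 ≤ R ∧ -R < c ∧ d < R ∧ (∀ l, -R ≤ a l) ∧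
        (∀ l, b l ≤ R) := by
      have hs : 0 ≤ ∑ l, (|a l| + |b l|) := Finset.sum_nonneg fun l _ => by positivity
      have h3 := abs_nonneg c
      have h4 := abs_nonneg d
      have h5 := neg_abs_le c
      have h6 := le_abs_self d
      refine ⟨1 + |c| + |d| + ∑ l, (|a l| + |b l|), by linarith, by linarith, by linarith, ?_, ?_⟩
      · intro l
        have h1 : |a l| + |b l| ≤ ∑ l, (|a l| + |b l|) :=
          Finset.single_le_sum (f := fun l => |a l| + |b l|) (fun l _ => by positivity) (mem_univ l)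
        have := neg_abs_le (a l)
        have := abs_nonneg (b l)
        linarith
      · intro l
        have h1 : |a l| + |b l| ≤ ∑ l, (|a l| + |b l|) :=
          Finset.single_le_sum (f := fun l => |a l| + |b l|) (fun l _ => by positivity) (mem_univ l)
        have := le_abs_self (b l)
        have := abs_nonneg (a l)
        linarith
    set K : ℝ := (2 * R) ^ (t + 2) + (2 * R) ^ (t + 1) with hK
    have hK0 : 0 < K := by positivity
    set δ : ℝ := ε / (8 * K) with hδ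
    have hδ0 : 0 < δ := by positivity
    have hδK : δ * K = ε / 8 := by
      rw [hδ]
      field_simp
    -- the screening defect of the box
    obtain ⟨R0, hR0⟩ : ∃ R0 : ℝ, ∀ ρ, R0 ≤ ρ → SB (t + 1) a b ρ ≤ ε / 8 := by
      obtain ⟨R0, h4⟩ := eventually_atTop.1 ((tendsto_order.1 (SB_lim (t + 1) a b)).2 (ε / 8)
        (by positivity))
      exact ⟨R0, fun ρ hρ => (h4 ρ hρ).le⟩
    obtain ⟨N, hN, r, hrR, hrR0, hpsi⟩ := psi_small F h2 h1 h0 hR1 (ε := ε * δ / 2)
      (by positivity) R0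
    have hN0 : (0 : ℝ) < N := by exact_mod_cast hN
    have hfirst := first_small F h2 h1 a b hR1 hRa hRb hδ0 hpsi
    have hc1 : δ * ((2 * R) ^ (t + 2) + (2 * R) ^ (t + 1)) + ε * δ / 2 / (4 * δ) = ε / 4 := by
      rw [← hK, hδK]
      field_simp
      ring
    rw [hc1] at hfirst
    -- the two outer parts
    have hout : Le (fun T => ∑ m ∈ range N, (F.n (t + 2) (Fin.cons (-(r m)) a) (Fin.cons c b) T +
        F.n (t + 2) (Fin.cons d a) (Fin.cons (r m) b) T))
        (∑ m ∈ range N, (SI (t + 2) (Fin.cons (-(r m)) a) (Fin.cons c b) +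
          SI (t + 2) (Fin.cons d a) (Fin.cons (r m) b))) := by
      refine Le.sum _ fun m _ => ?_
      have hm := hrR m
      refine Le.add (h2 _ _ fun l => ?_) (h2 _ _ fun l => ?_)
      · refine Fin.cases ?_ (fun l => ?_) l
        · simp only [Fin.cons_zero]; linarith
        · simp only [Fin.cons_succ]; exact hab l
      · refine Fin.cases ?_ (fun l => ?_) l
        · simp only [Fin.cons_zero]; linarith
        · simp only [Fin.cons_succ]; exact hab l
    set M : ℝ := (∑ m ∈ range N, 2 * r m) / N with hM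
    have hmid : Tendsto (fun T => (M - ((t + 1 + 1 : ℕ) : ℝ)) * F.n (t + 1) a b T) atTop
        (𝓝 ((M - ((t + 1 + 1 : ℕ) : ℝ)) * SI (t + 1) a b)) := (h1 a b hab).const_mul _
    filter_upwards [F.pos, hfirst (ε / 8) (by positivity), hout (N * (ε / 8)) (by positivity),
      (tendsto_order.1 hmid).1 ((M - ((t + 1 + 1 : ℕ) : ℝ)) * SI (t + 1) a b - ε / 8) (by linarith)]
      with T hT b1 b2 b3
    have hX0 : 0 < F.X T := by linarith
    have e1 := avg_n F a b hRa hRb hN hrR T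
    have e2 := neg_le_first F a b N r hX0
    have e3 := cut_n F a b c d N r hX0
    have e4 := cut_SI a b hcd.le hRc.le hRd.le hN hrR (fun m => hR0 (r m) (hrR0 m))
    rw [← hM] at e1 e4
    generalize F.n (t + 2) (Fin.cons c a) (Fin.cons d b) T = Z at *
    have e5 : (∑ m ∈ range N, F.n (t + 2) (Fin.cons (-(r m)) a) (Fin.cons (r m) b) T) / N ≤
        2 * (ε / 8) + (M - ((t + 1 + 1 : ℕ) : ℝ)) * SI (t + 1) a b -
          SI (t + 2) (Fin.cons c a) (Fin.cons d b) + Z := by
      rw [div_le_iff₀ hN0]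
      linarith
    rw [e1] at e5
    have e6 : y = SI (t + 2) (Fin.cons c a) (Fin.cons d b) - ε := by rw [hε]; ring
    rw [e6]
    linarith
  · -- the upper bound
    set ε : ℝ := y - SI (t + 2) (Fin.cons c a) (Fin.cons d b) with hε
    have hε0 : 0 < ε := by
      have : SI (t + 2) (Fin.cons c a) (Fin.cons d b) < y := hy
      linarith
    filter_upwards [h2 _ _ hAB (ε / 2) (by positivity)] with T hT
    linarith

/-- level zero -/
theorem full_zero : F.Full SI 0 := by
  intro a b _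
  have h1 : SI 0 a b = 1 := by
    unfold SI
    have e : ∀ u : Fin 0 → ℝ, (SA (Fin.snoc u 0 : Fin (0 + 1) → ℝ)).det = 1 := by
      intro u
      show (SA (Fin.snoc u 0 : Fin 1 → ℝ)).det = 1
      rw [Matrix.det_fin_one, SA_eq]
      unfold SG
      rw [Matrix.of_apply, sub_self, sc_zero]
    simp_rw [e]
    have hI : Set.Icc a b = Set.univ := by
      ext u
      simp [Subsingleton.elim a u, Subsingleton.elim b u]
    rw [hI, MeasureTheory.Measure.restrict_univ, MeasureTheory.integral_const, smul_eq_mul,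
      mul_one, MeasureTheory.volume_pi, MeasureTheory.Measure.pi_of_empty _ a]
    exact MeasureTheory.probReal_univ
  rw [h1]
  refine F.hJ.congr fun T => ?_
  unfold Fam.n cnt
  congr 2
  rw [Finset.card_eq_sum_ones]
  refine Finset.sum_congr rfl fun j _ => ?_
  symm
  rw [Finset.card_eq_one]
  refine ⟨Fin.elim0, ?_⟩
  ext s
  rw [mem_E, mem_singleton]
  constructor
  · intro _
    funext l
    exact l.elim0
  · intro _
    exact ⟨fun l => l.elim0, fun l => l.elim0, fun l => l.elim0, fun l => l.elim0⟩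

/-- the upper half implies the full statement, at every level, if this is so at the first one -/
theorem full_of_up_all (hone : F.Up SI 1 → F.Full SI 1) : ∀ r : ℕ, F.Up SI r → F.Full SI r := by
  intro r
  induction r with
  | zero => exact fun _ => full_zero F
  | succ r ih =>
    rcases Nat.eq_zero_or_pos r with h | h
    · subst h
      exact hone
    · intro h2
      obtain ⟨t, rfl⟩ : ∃ t, r = t + 1 := ⟨r - 1, by omega⟩
      have h1 := ih (up_desc F SI_int0 (by omega) h2)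
      have h0 : F.Full SI t := by
        rcases Nat.eq_zero_or_pos t with h3 | h3
        · subst h3
          exact full_zero F
        · exact full_desc F SI_int0 h3 h1
      exact full_of_up F h2 h1 h0

end Q241.KL
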