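import Pool.Agent.Q241.KL.Fin
import Pool.Agent.Q241.KL.K8

/-! # The upper half at every level, for the zeros of zeta -/

set_option autoImplicit false

namespace Q241.KL

open Finset Filter Topology MeasureTheory
open H370 TH803TW Pool.Agent.Y744

theorem conj_upper {r : ℕ} (h : Conj r) : Upper r := by
  rw [Conj_iff] at h
  rw [Upper_iff]
  exact h.up

theorem conj_one_of_upper (h : Upper 1) : Conj 1 := by
  have hd : Q241.HF.Diag := Q241.HF.Diag_iff.2 (diag_of_upper h)
  exact conj_one_of (h := Q241.HF.up_all hd (upExp_of_upper h))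

/-- **the upper half at a level implies the conjecture at this level** -/
theorem upper_conj {r : ℕ} (h : Upper r) : Conj r := by
  rw [Conj_iff]
  refine full_of_up_all FZ (fun h1 => ?_) r ?_
  · rw [← Conj_iff]
    rw [← Upper_iff] at h1
    exact conj_one_of_upper h1
  · rwa [← Upper_iff]

theorem good_of_conj {r : ℕ} (hr : 1 ≤ r) (h : Conj r) : Q241.OP.Good := by
  have h1 : Upper 1 := conj_upper (conj_le le_rfl hr h)
  have hd : Q241.HF.Diag := Q241.HF.Diag_iff.2 (diag_of_upper h1)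
  exact (Q241.HF.all_of (Q241.HF.up_all hd (upExp_of_upper h1))).2.1

/-- **main theorem** -/
theorem main2 : (∀ r : ℕ, 1 ≤ r → (Conj r ↔ Upper r)) ∧ (∀ r : ℕ, 1 ≤ r → Conj (r + 1) → Conj r) ∧
    ((∀ r : ℕ, 1 ≤ r → Conj r) ↔ ∀ r0 : ℕ, ∃ r : ℕ, r0 ≤ r ∧ Upper r) ∧
    (∀ r : ℕ, 1 ≤ r → Upper r → Q241.OP.Good) := by
  refine ⟨fun r _ => ⟨conj_upper, upper_conj⟩, fun r hr h => conj_desc hr h, ⟨fun h r0 => ?_,
    fun h r hr => ?_⟩, fun r hr h => good_of_conj hr (upper_conj h)⟩
  · exact ⟨max r0 1, le_max_left _ _, conj_upper (h _ (le_max_right _ _))⟩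
  · obtain ⟨r', h1, h2⟩ := h r
    exact conj_le hr h1 (upper_conj h2)

end Q241.KL
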