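import Mathlib

/-! # Counting tuples of points near a point -/

set_option autoImplicit false

namespace Q241.KL

open Finset

variable {ι : Type*} [DecidableEq ι]

open Classical in
/-- the injective `r`-tuples of points of `J` different from `j` whose differences with `x j` lie
in a box -/
noncomputable def E (J : Finset ι) (x : ι → ℝ) (j : ι) (r : ℕ) (a b : Fin r → ℝ) :
    Finset (Fin r → ι) :=
  (Fintype.piFinset fun _ => J).filter fun t => Function.Injective t ∧ (∀ l, t l ≠ j) ∧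
    ∀ l, a l ≤ x (t l) - x j ∧ x (t l) - x j ≤ b l

/-- the points of `J` at distance at most `R` of `j`, except `j` -/
noncomputable def nb (J : Finset ι) (x : ι → ℝ) (R : ℝ) (j : ι) : Finset ι :=
  J.filter fun i => i ≠ j ∧ |x i - x j| ≤ R

/-- the number of points of `J` at distance at most `R` of `j`, except `j` -/
noncomputable def w (J : Finset ι) (x : ι → ℝ) (R : ℝ) (j : ι) : ℕ := (nb J x R j).card

/-- the number of tuples -/
noncomputable def cnt (J : Finset ι) (x : ι → ℝ) (r : ℕ) (a b : Fin r → ℝ) : ℕ :=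
  ∑ j ∈ J, (E J x j r a b).card

theorem mem_E {J : Finset ι} {x : ι → ℝ} {j : ι} {r : ℕ} {a b : Fin r → ℝ} {t : Fin r → ι} :
    t ∈ E J x j r a b ↔ (∀ l, t l ∈ J) ∧ Function.Injective t ∧ (∀ l, t l ≠ j) ∧
      ∀ l, a l ≤ x (t l) - x j ∧ x (t l) - x j ≤ b l := by
  classical
  unfold E
  rw [mem_filter, Fintype.mem_piFinset]

theorem mem_nb {J : Finset ι} {x : ι → ℝ} {R : ℝ} {j i : ι} :
    i ∈ nb J x R j ↔ i ∈ J ∧ i ≠ j ∧ |x i - x j| ≤ R := by
  unfold nb
  rw [mem_filter]

theorem image_sub {J : Finset ι} {x : ι → ℝ} {j : ι} {r : ℕ} {a b : Fin r → ℝ} {t : Fin r → ι}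
    {R : ℝ} (ha : ∀ l, -R ≤ a l) (hb : ∀ l, b l ≤ R) (ht : t ∈ E J x j r a b) :
    univ.image t ⊆ nb J x R j := by
  rw [mem_E] at ht
  intro i hi
  obtain ⟨l, _, rfl⟩ := mem_image.mp hi
  rw [mem_nb]
  refine ⟨ht.1 l, ht.2.2.1 l, ?_⟩
  rw [abs_le]
  exact ⟨(ha l).trans (ht.2.2.2 l).1, ((ht.2.2.2 l).2).trans (hb l)⟩

theorem card_image {J : Finset ι} {x : ι → ℝ} {j : ι} {r : ℕ} {a b : Fin r → ℝ} {t : Fin r → ι}
    (ht : t ∈ E J x j r a b) : (univ.image t).card = r := by
  rw [mem_E] at ht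
  rw [card_image_of_injective _ ht.2.1, card_univ, Fintype.card_fin]

theorem le_w {J : Finset ι} {x : ι → ℝ} {j : ι} {r : ℕ} {a b : Fin r → ℝ} {t : Fin r → ι}
    {R : ℝ} (ha : ∀ l, -R ≤ a l) (hb : ∀ l, b l ≤ R) (ht : t ∈ E J x j r a b) :
    r ≤ w J x R j := by
  rw [← card_image ht]
  exact card_le_card (image_sub ha hb ht)

theorem E_succ (J : Finset ι) (x : ι → ℝ) (j : ι) (r : ℕ) (a b : Fin r → ℝ) (R : ℝ)
    (ha : ∀ l, -R ≤ a l) (hb : ∀ l, b l ≤ R) :
    (E J x j (r + 1) (Fin.cons (-R) a) (Fin.cons R b)).card =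
      (E J x j r a b).card * (w J x R j - r) := by
  have h1 : ∀ t ∈ E J x j r a b, (nb J x R j \ univ.image t).card = w J x R j - r := by
    intro t ht
    rw [card_sdiff_of_subset (image_sub ha hb ht), card_image ht]
    rfl
  have h2 : (E J x j (r + 1) (Fin.cons (-R) a) (Fin.cons R b)).card =
      ((E J x j r a b).sigma fun t => nb J x R j \ univ.image t).card := by
    symm
    refine card_nbij' (fun p => Fin.cons p.2 p.1) (fun f => ⟨Fin.tail f, f 0⟩) ?_ ?_ ?_ ?_
    · rintro ⟨t, i⟩ hp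
      rw [mem_coe, mem_sigma, mem_sdiff, mem_nb] at hp
      obtain ⟨ht, ⟨h1, h2, h3⟩, h4⟩ := hp
      rw [mem_E] at ht
      rw [mem_coe, mem_E]
      dsimp only at *
      have h4' : ∀ l, t l ≠ i := fun l hl => h4 (mem_image.mpr ⟨l, mem_univ _, hl⟩)
      refine ⟨?_, ?_, ?_, ?_⟩
      · intro l
        refine Fin.cases ?_ (fun l => ?_) l
        · simpa using h1
        · simpa using ht.1 l
      · intro l l'
        refine Fin.cases ?_ (fun l => ?_) l
        · refine Fin.cases ?_ (fun l' => ?_) l'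
          · intro _; rfl
          · intro h
            simp only [Fin.cons_zero, Fin.cons_succ] at h
            exact absurd h.symm (h4' l')
        · refine Fin.cases ?_ (fun l' => ?_) l'
          · intro h
            simp only [Fin.cons_zero, Fin.cons_succ] at h
            exact absurd h (h4' l)
          · intro h
            simp only [Fin.cons_succ] at h
            rw [ht.2.1 h]
      · intro l
        refine Fin.cases ?_ (fun l => ?_) l
        · simpa using h2
        · simpa using ht.2.2.1 l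
      · intro l
        refine Fin.cases ?_ (fun l => ?_) l
        · simp only [Fin.cons_zero]
          exact abs_le.mp h3
        · simp only [Fin.cons_succ]
          exact ht.2.2.2 l
    · intro f hf
      rw [mem_coe, mem_E] at hf
      obtain ⟨h1, h2, h3, h4⟩ := hf
      rw [mem_coe, mem_sigma, mem_sdiff, mem_nb, mem_E]
      dsimp only
      refine ⟨⟨fun l => h1 l.succ, fun l l' h => ?_, fun l => h3 l.succ, fun l => ?_⟩,
        ⟨h1 0, h3 0, ?_⟩, ?_⟩
      · exact Fin.succ_injective _ (h2 h)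
      · have := h4 l.succ
        simp only [Fin.cons_succ] at this
        exact this
      · have := h4 0
        simp only [Fin.cons_zero] at this
        exact abs_le.mpr this
      · intro h
        obtain ⟨l, _, hl⟩ := mem_image.mp h
        have := h2 hl
        exact absurd this (Fin.succ_ne_zero l)
    · rintro ⟨t, i⟩ _
      simp
    · intro f _
      exact Fin.cons_self_tail f
  rw [h2, card_sigma, sum_congr rfl h1, sum_const, smul_eq_mul]

theorem E_desc (J : Finset ι) (x : ι → ℝ) (j : ι) (k : ℕ) (R : ℝ) :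
    (E J x j k (fun _ => -R) (fun _ => R)).card = (w J x R j).descFactorial k := by
  induction k with
  | zero =>
    rw [Nat.descFactorial_zero, card_eq_one]
    refine ⟨Fin.elim0, ?_⟩
    ext t
    rw [mem_E, mem_singleton]
    constructor
    · intro _
      funext l
      exact l.elim0
    · intro _
      exact ⟨fun l => l.elim0, fun l => l.elim0, fun l => l.elim0, fun l => l.elim0⟩
  | succ k ih =>
    have h1 : (fun _ : Fin (k + 1) => -R) = Fin.cons (-R) (fun _ => -R) := by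
      funext l
      refine Fin.cases ?_ (fun l => ?_) l <;> simp
    have h2 : (fun _ : Fin (k + 1) => R) = Fin.cons R (fun _ => R) := by
      funext l
      refine Fin.cases ?_ (fun l => ?_) l <;> simp
    rw [h1, h2, E_succ J x j k _ _ R (fun _ => le_rfl) (fun _ => le_rfl), ih,
      Nat.descFactorial_succ, mul_comm]

theorem E_le_pow (J : Finset ι) (x : ι → ℝ) (j : ι) (r : ℕ) (a b : Fin r → ℝ) (R : ℝ)
    (ha : ∀ l, -R ≤ a l) (hb : ∀ l, b l ≤ R) : (E J x j r a b).card ≤ (w J x R j) ^ r := by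
  classical
  have h1 : E J x j r a b ⊆ Fintype.piFinset fun _ => nb J x R j := by
    intro t ht
    rw [Fintype.mem_piFinset]
    intro l
    exact image_sub ha hb ht (mem_image.mpr ⟨l, mem_univ _, rfl⟩)
  have h2 := card_le_card h1
  rw [Fintype.card_piFinset, prod_const, card_univ, Fintype.card_fin] at h2
  exact h2

theorem w_mono (J : Finset ι) (x : ι → ℝ) (j : ι) {R R' : ℝ} (h : R ≤ R') :
    w J x R j ≤ w J x R' j := by
  apply card_le_card
  intro i hi
  rw [mem_nb] at hi ⊢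
  exact ⟨hi.1, hi.2.1, hi.2.2.trans h⟩

/-! ### Elementary inequalities -/

theorem pow_le_desc (k : ℕ) {η : ℝ} (hη : 0 < η) :
    ∃ c : ℝ, 0 ≤ c ∧ ∀ W : ℕ, (W : ℝ) ^ k ≤ (1 + η) * (W.descFactorial k : ℝ) + c := by
  -- choose `θ` with `(1 + θ)^k ≤ 1 + η`
  obtain ⟨θ, hθ, hθk⟩ : ∃ θ : ℝ, 0 < θ ∧ (1 + θ) ^ k ≤ 1 + η := by
    have hc : Filter.Tendsto (fun θ : ℝ => (1 + θ) ^ k) (nhdsWithin 0 (Set.Ioi 0)) (nhds ((1 + 0) ^ k)) :=
      ((continuous_const.add continuous_id).pow k).continuousAt.tendsto.mono_left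
        nhdsWithin_le_nhds
    rw [add_zero, one_pow] at hc
    have h1 : ∀ᶠ θ in nhdsWithin (0 : ℝ) (Set.Ioi 0), (1 + θ) ^ k < 1 + η :=
      hc.eventually (gt_mem_nhds (by linarith))
    have h2 : ∀ᶠ θ in nhdsWithin (0 : ℝ) (Set.Ioi 0), θ ∈ Set.Ioi (0 : ℝ) := self_mem_nhdsWithin
    obtain ⟨θ, h3, h4⟩ := (h1.and h2).exists
    exact ⟨θ, h4, h3.le⟩
  refine ⟨((k : ℝ) / θ + k) ^ k, by positivity, fun W => ?_⟩
  set u : ℕ := W + 1 - k with hu
  have h1 : (W : ℝ) ≤ u + k := by
    have : W ≤ u + k := by omega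
    exact_mod_cast this
  have h2 : ((u : ℝ)) ^ k ≤ (W.descFactorial k : ℝ) := by
    have := Nat.pow_sub_le_descFactorial W k
    exact_mod_cast this
  have h3 : (W : ℝ) ^ k ≤ ((u : ℝ) + k) ^ k := pow_le_pow_left₀ (Nat.cast_nonneg W) h1 k
  have hu0 : (0 : ℝ) ≤ u := Nat.cast_nonneg u
  have hk0 : (0 : ℝ) ≤ k := Nat.cast_nonneg k
  refine h3.trans ?_
  by_cases h : (k : ℝ) / θ ≤ u
  · have h4 : (u : ℝ) + k ≤ (1 + θ) * u := by
      rw [div_le_iff₀ hθ] at h
      linarith
    calc ((u : ℝ) + k) ^ k ≤ ((1 + θ) * u) ^ k := pow_le_pow_left₀ (by positivity) h4 k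
      _ = (1 + θ) ^ k * (u : ℝ) ^ k := mul_pow _ _ _
      _ ≤ (1 + η) * (W.descFactorial k : ℝ) := mul_le_mul hθk h2 (by positivity) (by linarith)
      _ ≤ _ := le_add_of_nonneg_right (by positivity)
  · push Not at h
    calc ((u : ℝ) + k) ^ k ≤ ((k : ℝ) / θ + k) ^ k :=
          pow_le_pow_left₀ (by positivity) (by linarith) k
      _ ≤ _ := le_add_of_nonneg_left (by positivity)

theorem tangent {y : ℝ} (hy : 0 ≤ y) {k : ℕ} (hk : 2 ≤ k) :
    |y - 1| ^ k ≤ y ^ k - 1 - k * (y - 1) := by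
  set s : ℝ := y - 1 with hs
  have hys : y = 1 + s := by rw [hs]; ring
  rw [hys]
  have hs1 : -1 ≤ s := by rw [hs]; linarith
  rcases le_total 0 s with h | h
  · rw [abs_of_nonneg h]
    induction k, hk using Nat.le_induction with
    | base => push_cast; nlinarith
    | succ k hk ih =>
      have h1 : (1 + s) ^ (k + 1) = (1 + s) ^ k * (1 + s) := pow_succ _ _
      have h2 : s ^ (k + 1) = s ^ k * s := pow_succ _ _
      have h3 : 0 ≤ s ^ k := pow_nonneg h k
      rw [h1, h2]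
      push_cast
      have hk0 : (0 : ℝ) ≤ k := Nat.cast_nonneg k
      have h4 := mul_le_mul_of_nonneg_right ih (show 0 ≤ 1 + s by linarith)
      nlinarith [mul_nonneg hk0 (mul_nonneg h h)]
  · have h1 : |s| ^ k ≤ s ^ 2 := by
      have h2 : |s| ≤ 1 := by rw [abs_le]; exact ⟨hs1, by linarith⟩
      rw [← sq_abs]
      exact pow_le_pow_of_le_one (abs_nonneg s) h2 hk
    refine h1.trans ?_
    clear h1
    induction k, hk using Nat.le_induction with
    | base => push_cast; nlinarith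
    | succ k hk ih =>
      have h1 : (1 + s) ^ (k + 1) = (1 + s) ^ k * (1 + s) := pow_succ _ _
      rw [h1]
      push_cast
      have hk2 : (2 : ℝ) ≤ k := by exact_mod_cast hk
      have h3 : 0 ≤ 1 + s := by linarith
      have h4 := mul_le_mul_of_nonneg_right ih h3
      nlinarith [mul_nonneg (sq_nonneg s) (show (0 : ℝ) ≤ k + s by linarith)]

theorem young {V v δ : ℝ} (hV : 0 ≤ V) (hv : 0 ≤ v) (hδ : 0 < δ) (r : ℕ) :
    V ^ r * v ≤ δ * V ^ (r + 1) + v ^ (r + 1) / δ ^ r := by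
  have h0 : 0 ≤ v ^ (r + 1) / δ ^ r := by positivity
  have h1 : 0 ≤ δ * V ^ (r + 1) := by positivity
  by_cases h : v ≤ δ * V
  · have : V ^ r * v ≤ V ^ r * (δ * V) := mul_le_mul_of_nonneg_left h (by positivity)
    have e : V ^ r * (δ * V) = δ * V ^ (r + 1) := by rw [pow_succ]; ring
    linarith
  · push Not at h
    have h2 : V ≤ v / δ := by
      rw [le_div_iff₀ hδ]; linarith
    have h3 : V ^ r * v ≤ (v / δ) ^ r * v :=
      mul_le_mul_of_nonneg_right (pow_le_pow_left₀ hV h2 r) hv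
    have e : (v / δ) ^ r * v = v ^ (r + 1) / δ ^ r := by
      rw [div_pow, pow_succ]; ring
    linarith

/-- the mean is bounded by the `k`-th moment -/
theorem mean_le {W A : ℝ} (hW : 0 ≤ W) (hA : 0 < A) {k : ℕ} (hk : 1 ≤ k) :
    W ≤ W ^ k / (k * A ^ (k - 1)) + (1 - 1 / k) * A := by
  have hk0 : (0 : ℝ) < k := by exact_mod_cast hk
  obtain ⟨m, rfl⟩ : ∃ m, k = m + 1 := ⟨k - 1, by omega⟩
  have h1 := one_add_mul_le_pow (a := W / A - 1) (by
    have : 0 ≤ W / A := by positivity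
    linarith) (m + 1)
  have e : (1 + (W / A - 1)) = W / A := by ring
  rw [e, div_pow] at h1
  have hA1 : 0 < A ^ (m + 1) := by positivity
  rw [le_div_iff₀ hA1] at h1
  have e2 : W ^ (m + 1) / (((m + 1 : ℕ) : ℝ) * A ^ (m + 1 - 1)) =
      W ^ (m + 1) / (((m + 1 : ℕ) : ℝ) * A ^ m) := by
    rw [Nat.add_sub_cancel]
  rw [e2]
  have hA2 : 0 < A ^ m := by positivity
  have hden : (0 : ℝ) < ((m + 1 : ℕ) : ℝ) * A ^ m := by positivity
  have key : (W - (1 - 1 / ((m + 1 : ℕ) : ℝ)) * A) * (((m + 1 : ℕ) : ℝ) * A ^ m) ≤ W ^ (m + 1) := by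
    have e3 : (W - (1 - 1 / ((m + 1 : ℕ) : ℝ)) * A) * (((m + 1 : ℕ) : ℝ) * A ^ m) =
        (1 + ((m + 1 : ℕ) : ℝ) * (W / A - 1)) * A ^ (m + 1) := by
      rw [pow_succ]
      field_simp
      ring
    rw [e3]
    exact h1
  have h5 := (le_div_iff₀ hden).mpr key
  linarith

end Q241.KL
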