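import Pool.Agent.Q241.KL.A

/-! # The mean number of neighbours: a lower bound from the Cauchy-Schwarz inequality -/

set_option autoImplicit false

namespace Q241.KL

open Finset MeasureTheory

variable {ι : Type*} [DecidableEq ι]

theorem vol_inter (L a b : ℝ) :
    (volume (Set.Ioc (a - L) a ∩ Set.Ioc (b - L) b)).toReal = max (L - |a - b|) 0 := by
  rw [Set.Ioc_inter_Ioc, Real.volume_Ioc]
  rcases le_total a b with h | h
  · have h1 : max (a - L) (b - L) = b - L := max_eq_right (by linarith)
    have h2 : min a b = a := min_eq_left h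
    have h3 : |a - b| = b - a := by rw [abs_of_nonpos (by linarith)]; ring
    rw [h1, h2, h3, ENNReal.toReal_ofReal']
    congr 1
    ring
  · have h1 : max (a - L) (b - L) = a - L := max_eq_left (by linarith)
    have h2 : min a b = b := min_eq_right h
    have h3 : |a - b| = a - b := abs_of_nonneg (by linarith)
    rw [h1, h2, h3, ENNReal.toReal_ofReal']
    congr 1
    ring

/-- Cauchy-Schwarz for the number of points in a moving window. -/
theorem tri (J : Finset ι) (x : ι → ℝ) {Y L : ℝ} (hL : 0 < L) (hY : 0 ≤ Y)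
    (hx : ∀ j ∈ J, 0 ≤ x j ∧ x j ≤ Y) :
    ((J.card : ℝ) * L) ^ 2 ≤ (Y + L) * ∑ i ∈ J, ∑ j ∈ J, max (L - |x i - x j|) 0 := by
  classical
  set f : ℝ → ℝ := fun y => ∑ j ∈ J, (Set.Ioc (x j - L) (x j)).indicator (fun _ => (1 : ℝ)) y with hf
  set g : ℝ → ℝ := (Set.Ioc (-L) Y).indicator (fun _ => (1 : ℝ)) with hg
  have hvol : ∀ a b : ℝ, volume (Set.Ioc a b) ≠ ⊤ := fun a b => by
    rw [Real.volume_Ioc]; exact ENNReal.ofReal_ne_top
  have hind : ∀ a b : ℝ, Integrable ((Set.Ioc a b).indicator (fun _ => (1 : ℝ))) := fun a b =>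
    (integrable_indicator_iff measurableSet_Ioc).mpr (integrableOn_const (hvol a b))
  have hint : ∀ a b : ℝ, ∫ y, (Set.Ioc a b).indicator (fun _ => (1 : ℝ)) y = max (b - a) 0 := by
    intro a b
    rw [integral_indicator measurableSet_Ioc, setIntegral_const, smul_eq_mul, mul_one,
      Measure.real, Real.volume_Ioc, ENNReal.toReal_ofReal']
  have hfint : Integrable f := integrable_finsetSum _ fun j _ => hind _ _
  have hfI : ∫ y, f y = J.card * L := by
    rw [hf, integral_finsetSum _ fun j _ => hind _ _]
    rw [Finset.sum_congr rfl fun j _ => hint _ _]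
    have : ∀ j ∈ J, max (x j - (x j - L)) 0 = L := by
      intro j _
      rw [max_eq_left]
      · ring
      · linarith
    rw [Finset.sum_congr rfl this, sum_const, nsmul_eq_mul]
  have hfg : ∀ y, f y * g y = f y := by
    intro y
    by_cases hy : y ∈ Set.Ioc (-L) Y
    · rw [hg, Set.indicator_of_mem hy, mul_one]
    · have h0 : f y = 0 := by
        rw [hf]
        apply Finset.sum_eq_zero
        intro j hj
        apply Set.indicator_of_notMem
        intro hy'
        apply hy
        have := hx j hj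
        exact ⟨by linarith [hy'.1], by linarith [hy'.2]⟩
      rw [h0, zero_mul]
  have hff : ∀ y, f y * f y = ∑ i ∈ J, ∑ j ∈ J,
      (Set.Ioc (x i - L) (x i) ∩ Set.Ioc (x j - L) (x j)).indicator (fun _ => (1 : ℝ)) y := by
    intro y
    rw [hf, Finset.sum_mul_sum]
    refine Finset.sum_congr rfl fun i _ => Finset.sum_congr rfl fun j _ => ?_
    rw [← Set.inter_indicator_mul]
    simp
  have hind2 : ∀ i j : ι, Integrable ((Set.Ioc (x i - L) (x i) ∩
      Set.Ioc (x j - L) (x j)).indicator (fun _ => (1 : ℝ))) := by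
    intro i j
    refine (integrable_indicator_iff (measurableSet_Ioc.inter measurableSet_Ioc)).mpr
      (integrableOn_const ?_)
    exact ne_top_of_le_ne_top (hvol _ _) (measure_mono Set.inter_subset_left)
  have hffint : Integrable (fun y => f y * f y) := by
    simp_rw [hff]
    exact integrable_finsetSum _ fun i _ => integrable_finsetSum _ fun j _ => hind2 i j
  have hffI : ∫ y, f y * f y = ∑ i ∈ J, ∑ j ∈ J, max (L - |x i - x j|) 0 := by
    simp_rw [hff]
    rw [integral_finsetSum _ fun i _ => integrable_finsetSum _ fun j _ => hind2 i j]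
    refine Finset.sum_congr rfl fun i _ => ?_
    rw [integral_finsetSum _ fun j _ => hind2 i j]
    refine Finset.sum_congr rfl fun j _ => ?_
    rw [integral_indicator (measurableSet_Ioc.inter measurableSet_Ioc), setIntegral_const,
      smul_eq_mul, mul_one, Measure.real, vol_inter]
  have hgg : ∀ y, g y * g y = g y := by
    intro y
    rw [hg]
    by_cases hy : y ∈ Set.Ioc (-L) Y
    · rw [Set.indicator_of_mem hy, mul_one]
    · rw [Set.indicator_of_notMem hy, mul_zero]
  have hgI : ∫ y, g y = Y + L := by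
    rw [hg, hint, max_eq_left (by linarith)]
    ring
  set c : ℝ := J.card * L / (Y + L) with hc
  have hYL : 0 < Y + L := by linarith
  have h1 : 0 ≤ ∫ y, (f y - c * g y) * (f y - c * g y) :=
    integral_nonneg fun y => mul_self_nonneg _
  have h2 : ∀ y, (f y - c * g y) * (f y - c * g y) = f y * f y - 2 * c * f y + c ^ 2 * g y := by
    intro y
    have := hfg y
    have := hgg y
    calc (f y - c * g y) * (f y - c * g y) = f y * f y - 2 * c * (f y * g y) + c ^ 2 * (g y * g y) := by ring
      _ = _ := by rw [hfg y, hgg y]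
  have hgint : Integrable g := hind _ _
  have e1 : ∫ y, (f y * f y - 2 * c * f y + c ^ 2 * g y) =
      (∫ y, f y * f y) - 2 * c * (∫ y, f y) + c ^ 2 * ∫ y, g y := by
    have i3 : Integrable (fun y => 2 * c * f y) := hfint.const_mul _
    have i1 : Integrable (fun y => f y * f y - 2 * c * f y) := hffint.sub i3
    have i2 : Integrable (fun y => c ^ 2 * g y) := hgint.const_mul _
    rw [integral_add i1 i2, integral_sub hffint i3, integral_const_mul, integral_const_mul]
  simp_rw [h2] at h1
  rw [e1, hffI, hfI, hgI] at h1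
  have h3 : c * (Y + L) = J.card * L := div_mul_cancel₀ _ hYL.ne'
  have h4 : ∑ i ∈ J, ∑ j ∈ J, max (L - |x i - x j|) 0 ≥ 2 * c * (J.card * L) - c ^ 2 * (Y + L) := by
    linarith
  have h5 : 2 * c * (J.card * L) - c ^ 2 * (Y + L) = c * (J.card * L) := by
    rw [← h3]; ring
  rw [h5] at h4
  calc ((J.card : ℝ) * L) ^ 2 = (Y + L) * (c * (J.card * L)) := by rw [← h3]; ring
    _ ≤ _ := mul_le_mul_of_nonneg_left h4 hYL.le

/-- the number of pairs of distinct points at distance at most `R` -/
noncomputable def pr (J : Finset ι) (x : ι → ℝ) (R : ℝ) : ℝ := ∑ j ∈ J, (w J x R j : ℝ)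

/-- comparison of the triangular weight with intervals -/
theorem tri_le {θ L u : ℝ} (hθ0 : 0 < θ) (hL : 0 < L) (hu : 0 ≤ u) {m : ℕ}
    (hm : 0 < m) :
    max (L - u) 0 ≤ (1 - θ) * L * (if u ≤ L then 1 else 0) +
      ∑ i ∈ range m, (θ * L / m) * (if u ≤ ((i : ℝ) + 1) * (θ * L / m) then 1 else 0) := by
  have hm0 : (0 : ℝ) < m := by exact_mod_cast hm
  set h : ℝ := θ * L / m with hh
  have hh0 : 0 < h := by positivity
  have hmh : (m : ℝ) * h = θ * L := by rw [hh]; field_simp
  have hsum0 : 0 ≤ ∑ i ∈ range m, h * (if u ≤ ((i : ℝ) + 1) * h then (1 : ℝ) else 0) := by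
    apply Finset.sum_nonneg
    intro i _
    apply mul_nonneg hh0.le
    split_ifs <;> norm_num
  by_cases h1 : u ≤ L
  · rw [if_pos h1, mul_one]
    have h2 : max (L - u) 0 = L - u := max_eq_left (by linarith)
    rw [h2]
    -- the sum is at least `θ L - u`
    have h3 : θ * L - u ≤ ∑ i ∈ range m, h * (if u ≤ ((i : ℝ) + 1) * h then (1 : ℝ) else 0) := by
      by_cases h4 : θ * L ≤ u
      · linarith
      · push Not at h4
        set n : ℕ := ⌊u / h⌋₊ with hn
        have hn1 : (n : ℝ) ≤ u / h := Nat.floor_le (by positivity)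
        have hn2 : u / h < n + 1 := Nat.lt_floor_add_one _
        have hnm : n ≤ m := by
          have h5 : u / h < m := by
            rw [div_lt_iff₀ hh0, hmh]; exact h4
          have : (n : ℝ) < m := lt_of_le_of_lt hn1 h5
          exact_mod_cast this.le
        have h6 : ∑ i ∈ range m, h * (if u ≤ ((i : ℝ) + 1) * h then (1 : ℝ) else 0) ≥
            ∑ i ∈ range m, h * (if n ≤ i then (1 : ℝ) else 0) := by
          apply Finset.sum_le_sum
          intro i _
          apply mul_le_mul_of_nonneg_left _ hh0.le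
          by_cases h7 : n ≤ i
          · have h8 : u ≤ ((i : ℝ) + 1) * h := by
              have h9 : u / h ≤ (i : ℝ) + 1 := by
                have : (n : ℝ) ≤ i := by exact_mod_cast h7
                linarith
              rwa [div_le_iff₀ hh0] at h9
            rw [if_pos h7, if_pos h8]
          · rw [if_neg h7]
            split_ifs <;> norm_num
        have h7 : ∑ i ∈ range m, h * (if n ≤ i then (1 : ℝ) else 0) = h * (m - n) := by
          rw [← Finset.mul_sum, ← Finset.sum_filter, sum_const, nsmul_eq_mul, mul_one]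
          have h8 : (range m).filter (fun i => n ≤ i) = Finset.Ico n m := by
            ext i
            rw [mem_filter, mem_range, Finset.mem_Ico]
            tauto
          rw [h8, Nat.card_Ico, Nat.cast_sub hnm]
        have h8 : h * (m - n) ≥ θ * L - u := by
          have h9 : (n : ℝ) * h ≤ u := by rwa [le_div_iff₀ hh0] at hn1
          have e : h * (m - n) = m * h - n * h := by ring
          rw [e, hmh]
          linarith
        linarith
    linarith
  · push Not at h1
    have h2 : max (L - u) 0 = 0 := max_eq_right (by linarith)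
    rw [h2, if_neg (not_le.mpr h1), mul_zero, zero_add]
    exact hsum0

/-- **the mean number of neighbours is large** -/
theorem pr_lower (J : Finset ι) (x : ι → ℝ) {Y L θ : ℝ} (hL : 0 < L) (hY : 0 ≤ Y)
    (hθ0 : 0 < θ) {m : ℕ} (hm : 0 < m) (hx : ∀ j ∈ J, 0 ≤ x j ∧ x j ≤ Y) :
    ((J.card : ℝ) * L) ^ 2 ≤ (Y + L) * (J.card * L + (1 - θ) * L * pr J x L +
      ∑ i ∈ range m, (θ * L / m) * pr J x (((i : ℝ) + 1) * (θ * L / m))) := by
  classical
  refine (tri J x hL hY hx).trans (mul_le_mul_of_nonneg_left ?_ (by linarith))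
  have h1 : ∀ i ∈ J, ∑ j ∈ J, max (L - |x i - x j|) 0 ≤
      L + ((1 - θ) * L * (w J x L i : ℝ) +
        ∑ l ∈ range m, (θ * L / m) * (w J x (((l : ℝ) + 1) * (θ * L / m)) i : ℝ)) := by
    intro i hi
    rw [← Finset.add_sum_erase J _ hi]
    have e0 : max (L - |x i - x i|) 0 = L := by
      rw [sub_self, abs_zero, sub_zero, max_eq_left hL.le]
    rw [e0]
    have h2 : ∀ R : ℝ, (w J x R i : ℝ) = ∑ j ∈ J.erase i, (if |x i - x j| ≤ R then (1 : ℝ) else 0) := by
      intro R
      unfold w nb
      rw [Finset.card_filter]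
      push_cast
      rw [← Finset.add_sum_erase J _ hi]
      simp only [ne_eq, not_true_eq_false, false_and, if_false, zero_add]
      refine Finset.sum_congr rfl fun j hj => ?_
      rw [Finset.mem_erase] at hj
      rw [abs_sub_comm]
      by_cases h3 : |x i - x j| ≤ R
      · rw [if_pos ⟨hj.1, h3⟩, if_pos h3]
      · rw [if_neg (fun h => h3 h.2), if_neg h3]
    have h3 : ∑ j ∈ J.erase i, max (L - |x i - x j|) 0 ≤ (1 - θ) * L * (w J x L i : ℝ) +
        ∑ l ∈ range m, (θ * L / m) * (w J x (((l : ℝ) + 1) * (θ * L / m)) i : ℝ) := by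
      calc ∑ j ∈ J.erase i, max (L - |x i - x j|) 0
          ≤ ∑ j ∈ J.erase i, ((1 - θ) * L * (if |x i - x j| ≤ L then (1 : ℝ) else 0) +
            ∑ l ∈ range m, (θ * L / m) *
              (if |x i - x j| ≤ ((l : ℝ) + 1) * (θ * L / m) then (1 : ℝ) else 0)) :=
            Finset.sum_le_sum fun j _ => tri_le hθ0 hL (abs_nonneg _) hm
        _ = _ := by
            rw [Finset.sum_add_distrib, ← Finset.mul_sum, ← h2, Finset.sum_comm]
            congr 1
            refine Finset.sum_congr rfl fun l _ => ?_
            rw [← Finset.mul_sum, ← h2]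
    linarith
  calc ∑ i ∈ J, ∑ j ∈ J, max (L - |x i - x j|) 0
      ≤ ∑ i ∈ J, (L + ((1 - θ) * L * (w J x L i : ℝ) +
        ∑ l ∈ range m, (θ * L / m) * (w J x (((l : ℝ) + 1) * (θ * L / m)) i : ℝ))) :=
        Finset.sum_le_sum h1
    _ = _ := by
        rw [Finset.sum_add_distrib, sum_const, nsmul_eq_mul, Finset.sum_add_distrib,
          ← Finset.mul_sum, Finset.sum_comm]
        unfold pr
        rw [add_assoc]
        congr 2
        refine Finset.sum_congr rfl fun l _ => ?_
        rw [← Finset.mul_sum]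

end Q241.KL
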