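import Pool.Agent.Q241.KL.B

/-! # Descent of the levels: the asymptotic argument -/

set_option autoImplicit false

namespace Q241.KL

open Finset Filter Topology

/-- a family of finite point configurations with mean density one -/
structure Fam (ι : Type*) where
  /-- labels -/
  J : ℝ → Finset ι
  /-- positions -/
  x : ℝ → ι → ℝ
  /-- the length -/
  X : ℝ → ℝ
  hX : Tendsto X atTop atTop
  hJ : Tendsto (fun T => ((J T).card : ℝ) / X T) atTop (𝓝 1)
  hx : ∀ᶠ T in atTop, ∀ j ∈ J T, 0 ≤ x T j ∧ x T j ≤ X T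

/-- the upper limit is at most `c` -/
def Le (f : ℝ → ℝ) (c : ℝ) : Prop := ∀ ε : ℝ, 0 < ε → ∀ᶠ T : ℝ in atTop, f T ≤ c + ε

theorem Le.add {f g : ℝ → ℝ} {c d : ℝ} (hf : Le f c) (hg : Le g d) :
    Le (fun T => f T + g T) (c + d) := by
  intro ε hε
  filter_upwards [hf (ε / 2) (by positivity), hg (ε / 2) (by positivity)] with T h1 h2
  linarith

theorem Le.const_mul {f : ℝ → ℝ} {c : ℝ} (hf : Le f c) {a : ℝ} (ha : 0 ≤ a) :
    Le (fun T => a * f T) (a * c) := by
  intro ε hε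
  filter_upwards [hf (ε / (a + 1)) (by positivity)] with T h1
  have h2 : a * f T ≤ a * (c + ε / (a + 1)) := mul_le_mul_of_nonneg_left h1 ha
  have h3 : a * (ε / (a + 1)) ≤ ε := by
    rw [← mul_div_assoc, div_le_iff₀ (by linarith)]
    nlinarith
  linarith

theorem Le.mono {f g : ℝ → ℝ} {c d : ℝ} (hf : Le f c) (h : ∀ᶠ T in atTop, g T ≤ f T)
    (hcd : c ≤ d) : Le g d := by
  intro ε hε
  filter_upwards [hf ε hε, h] with T h1 h2
  linarith

theorem Le.sum {κ : Type*} (s : Finset κ) {f : κ → ℝ → ℝ} {c : κ → ℝ}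
    (h : ∀ i ∈ s, Le (f i) (c i)) : Le (fun T => ∑ i ∈ s, f i T) (∑ i ∈ s, c i) := by
  classical
  induction s using Finset.induction_on with
  | empty =>
    intro ε hε
    filter_upwards with T
    simp [hε.le]
  | insert i s hi ih =>
    have h1 := ih fun j hj => h j (mem_insert_of_mem hj)
    have h2 := (h i (mem_insert_self _ _)).add h1
    rw [sum_insert hi]
    refine h2.mono ?_ le_rfl
    filter_upwards with T
    rw [sum_insert hi]

theorem le_of_tendsto' {f : ℝ → ℝ} {c : ℝ} (h : Tendsto f atTop (𝓝 c)) : Le f c := by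
  intro ε hε
  filter_upwards [(tendsto_order.1 h).2 (c + ε) (by linarith)] with T hT
  exact hT.le

variable {ι : Type*} [DecidableEq ι] (F : Fam ι)

/-- normalised number of tuples -/
noncomputable def Fam.n (r : ℕ) (a b : Fin r → ℝ) (T : ℝ) : ℝ :=
  (cnt (F.J T) (F.x T) r a b : ℝ) / F.X T

/-- the moments of the number of neighbours -/
noncomputable def Fam.m (k : ℕ) (R : ℝ) (T : ℝ) : ℝ :=
  (∑ j ∈ F.J T, (w (F.J T) (F.x T) R j : ℝ) ^ k) / F.X T

/-- mean number of neighbours -/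
noncomputable def Fam.p (R : ℝ) (T : ℝ) : ℝ := pr (F.J T) (F.x T) R / F.X T

/-- number of points -/
noncomputable def Fam.N (T : ℝ) : ℝ := ((F.J T).card : ℝ) / F.X T

omit [DecidableEq ι] in
theorem Fam.pos : ∀ᶠ T in atTop, 1 ≤ F.X T := F.hX.eventually_ge_atTop 1

/-- the cubes -/
def Fam.Cube (k : ℕ) : Prop := ∀ R : ℝ, 0 < R → Le (F.n k (fun _ => -R) (fun _ => R)) ((2 * R) ^ k)

omit [DecidableEq ι] in
theorem Fam.N_le : Le F.N 1 := le_of_tendsto' F.hJ

theorem mom_le {k : ℕ} (h : F.Cube k) {η : ℝ} (hη : 0 < η) :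
    ∃ c : ℝ, 0 ≤ c ∧ ∀ R : ℝ, 0 < R → Le (F.m k R) ((1 + η) * (2 * R) ^ k + c) := by
  obtain ⟨c, hc, h1⟩ := pow_le_desc k hη
  refine ⟨c, hc, fun R hR => ?_⟩
  have h2 := ((h R hR).const_mul (show 0 ≤ 1 + η by linarith)).add (F.N_le.const_mul hc)
  refine h2.mono ?_ (by linarith)
  filter_upwards [F.pos] with T hT
  have hX0 : 0 < F.X T := by linarith
  unfold Fam.m Fam.n Fam.N cnt
  rw [← mul_div_assoc, ← mul_div_assoc, ← add_div]
  refine div_le_div_of_nonneg_right ?_ hX0.le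
  push_cast
  rw [Finset.mul_sum]
  have h3 : c * ((F.J T).card : ℝ) = ∑ j ∈ F.J T, c := by
    rw [sum_const, nsmul_eq_mul, mul_comm]
  rw [h3, ← Finset.sum_add_distrib]
  refine Finset.sum_le_sum fun j _ => ?_
  rw [E_desc]
  exact h1 _

theorem pr_mono (J : Finset ι) (x : ι → ℝ) {R R' : ℝ} (h : R ≤ R') : pr J x R ≤ pr J x R' :=
  Finset.sum_le_sum fun j _ => by exact_mod_cast w_mono J x j h

theorem pr_up {k : ℕ} (hk : 2 ≤ k) (h : F.Cube k) {η : ℝ} (hη : 0 < η) :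
    ∃ c : ℝ, 0 ≤ c ∧ ∀ R : ℝ, 0 < R → Le (F.p R) (2 * R * (1 + η) + c) := by
  obtain ⟨c, hc, h1⟩ := mom_le F h hη
  have hk0 : (0 : ℝ) < k := by exact_mod_cast (by omega : 0 < k)
  have hk1 : (1 : ℝ) ≤ k := by exact_mod_cast (by omega : 1 ≤ k)
  have key : ∀ R : ℝ, 1 / 2 ≤ R → Le (F.p R) (2 * R * (1 + η) + c) := by
    intro R hR
    have hR0 : 0 < R := by linarith
    have hA : 0 < 2 * R := by linarith
    have hA1 : 1 ≤ 2 * R := by linarith
    have hP : 0 < (2 * R) ^ (k - 1) := by positivity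
    have hP1 : 1 ≤ (2 * R) ^ (k - 1) := one_le_pow₀ hA1
    have hc1 : 0 ≤ 1 / (k * (2 * R) ^ (k - 1)) := by positivity
    have hc2 : 0 ≤ (1 - 1 / (k : ℝ)) * (2 * R) := by
      have : 1 / (k : ℝ) ≤ 1 := by rw [div_le_one hk0]; exact hk1
      apply mul_nonneg _ hA.le
      linarith
    have h2 := ((h1 R hR0).const_mul hc1).add (F.N_le.const_mul hc2)
    refine h2.mono ?_ ?_
    · filter_upwards [F.pos] with T hT
      have hX0 : 0 < F.X T := by linarith
      unfold Fam.p Fam.m Fam.N pr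
      rw [← mul_div_assoc, ← mul_div_assoc, ← add_div]
      refine div_le_div_of_nonneg_right ?_ hX0.le
      have h3 : (1 - 1 / (k : ℝ)) * (2 * R) * ((F.J T).card : ℝ) =
          ∑ j ∈ F.J T, (1 - 1 / (k : ℝ)) * (2 * R) := by
        rw [sum_const, nsmul_eq_mul, mul_comm]
      rw [h3, Finset.mul_sum, ← Finset.sum_add_distrib]
      refine Finset.sum_le_sum fun j _ => ?_
      have h4 := mean_le (W := (w (F.J T) (F.x T) R j : ℝ)) (Nat.cast_nonneg _) hA (k := k) (by omega)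
      have e : 1 / ((k : ℝ) * (2 * R) ^ (k - 1)) * (w (F.J T) (F.x T) R j : ℝ) ^ k =
          (w (F.J T) (F.x T) R j : ℝ) ^ k / (k * (2 * R) ^ (k - 1)) := by
        rw [one_div, div_eq_inv_mul]
      rw [e]
      exact h4
    · have e1 : (2 * R) ^ k = (2 * R) ^ (k - 1) * (2 * R) := by
        rw [← pow_succ]
        congr 1
        omega
      have e2 : 1 / ((k : ℝ) * (2 * R) ^ (k - 1)) * ((1 + η) * (2 * R) ^ k + c) =
          (1 + η) * (2 * R) / k + c / (k * (2 * R) ^ (k - 1)) := by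
        rw [e1]
        field_simp
      rw [e2]
      have h5 : c / (k * (2 * R) ^ (k - 1)) ≤ c := by
        apply div_le_self hc
        nlinarith
      have h6 : (1 + η) * (2 * R) / k + (1 - 1 / (k : ℝ)) * (2 * R) * 1 ≤ 2 * R * (1 + η) := by
        have e3 : (1 + η) * (2 * R) / k + (1 - 1 / (k : ℝ)) * (2 * R) * 1 =
            2 * R + 2 * R * η * (1 / k) := by
          field_simp
          ring
        rw [e3]
        have h7 : 1 / (k : ℝ) ≤ 1 := by rw [div_le_one hk0]; exact hk1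
        have h8 : 0 ≤ 2 * R * η := by positivity
        nlinarith
      linarith
  refine ⟨1 + η + c, by positivity, fun R hR => ?_⟩
  rcases le_total (1 / 2) R with hR2 | hR2
  · exact (key R hR2).mono (Eventually.of_forall fun T => le_rfl) (by linarith)
  · refine (key (1 / 2) le_rfl).mono ?_ (by nlinarith)
    filter_upwards [F.pos] with T hT
    have hX0 : 0 < F.X T := by linarith
    exact div_le_div_of_nonneg_right (pr_mono _ _ hR2) hX0.le

theorem pr_low {k : ℕ} (hk : 2 ≤ k) (h : F.Cube k) {ζ : ℝ} (hζ : 0 < ζ) (hζ1 : ζ < 1) :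
    ∃ L0 : ℝ, 0 < L0 ∧ ∀ L : ℝ, L0 ≤ L → ∀ᶠ T in atTop, 2 * L * (1 - 2 * ζ) ≤ F.p L T := by
  set η : ℝ := ζ ^ 2 / 4 with hη
  have hη0 : 0 < η := by positivity
  have hη1 : η ≤ 1 / 4 := by rw [hη]; nlinarith
  obtain ⟨c, hc, h1⟩ := pr_up F hk h hη0
  obtain ⟨m, hm⟩ := exists_nat_ge (8 / ζ ^ 2)
  have hm0 : (0 : ℝ) < m := lt_of_lt_of_le (by positivity) hm
  have hmn : 0 < m := by exact_mod_cast hm0
  have hm1 : (1 + η) / m ≤ ζ ^ 2 / 4 := by
    rw [div_le_iff₀ hm0]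
    rw [div_le_iff₀ (by positivity)] at hm
    nlinarith
  refine ⟨(c + 2) / ζ ^ 2, by positivity, fun L hL => ?_⟩
  have hL0 : 0 < L := lt_of_lt_of_le (by positivity) hL
  rw [div_le_iff₀ (by positivity)] at hL
  set θ : ℝ := 1 - ζ with hθ
  have hθ0 : 0 < θ := by rw [hθ]; linarith
  have hθ1 : θ ≤ 1 := by rw [hθ]; linarith
  set S : ℝ := ∑ i ∈ range m, (θ / m) * (2 * (((i : ℝ) + 1) * (θ * L / m)) * (1 + η) + c) with hS
  set P0 : ℝ := 2 * L * (1 - 2 * ζ) with hP0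
  have hSval : S ≤ θ ^ 2 * L * (1 + η) * (1 + 1 / m) + c * θ := by
    have e1 : S = (∑ i ∈ range m, ((i : ℝ) + 1)) * (2 * θ ^ 2 * L * (1 + η) / m ^ 2) + m * (θ / m * c) := by
      rw [hS, Finset.sum_mul]
      have : ∀ i ∈ range m, (θ / m) * (2 * (((i : ℝ) + 1) * (θ * L / m)) * (1 + η) + c) =
          ((i : ℝ) + 1) * (2 * θ ^ 2 * L * (1 + η) / m ^ 2) + θ / m * c := by
        intro i _
        field_simp
      rw [Finset.sum_congr rfl this, Finset.sum_add_distrib, sum_const, card_range, nsmul_eq_mul]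
    have e2 : ∀ n : ℕ, ∑ i ∈ range n, ((i : ℝ) + 1) = n * (n + 1) / 2 := by
      intro n
      induction n with
      | zero => simp
      | succ n ih => rw [Finset.sum_range_succ, ih]; push_cast; ring
    rw [e1, e2]
    apply le_of_eq
    field_simp
  have hgap : 1 + S + ζ * P0 < L := by
    have h2 : θ ^ 2 * L * (1 + η) * (1 + 1 / m) ≤ θ ^ 2 * L + L * η + L * ((1 + η) / m) := by
      have e : θ ^ 2 * L * (1 + η) * (1 + 1 / m) = θ ^ 2 * (L + L * η + L * ((1 + η) / m)) := by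
        field_simp
      rw [e]
      have h3 : θ ^ 2 ≤ 1 := by nlinarith
      have h4 : 0 ≤ L * η + L * ((1 + η) / m) := by positivity
      nlinarith
    have h3 : L * ((1 + η) / m) ≤ L * (ζ ^ 2 / 4) := mul_le_mul_of_nonneg_left hm1 hL0.le
    have h4 : c * θ ≤ c := mul_le_of_le_one_right hc hθ1
    have h5 : S ≤ θ ^ 2 * L + L * (ζ ^ 2 / 4) + L * (ζ ^ 2 / 4) + c := by
      have : L * η = L * (ζ ^ 2 / 4) := by rw [hη]
      linarith
    have e6 : θ ^ 2 * L = L - 2 * ζ * L + ζ ^ 2 * L := by rw [hθ]; ring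
    have e7 : ζ * P0 = 2 * ζ * L - 4 * (L * ζ ^ 2) := by rw [hP0]; ring
    rw [e6] at h5
    rw [e7]
    nlinarith [mul_pos hL0 (pow_pos hζ 2)]
  -- choice of the small parameter
  obtain ⟨ε, hε, hεL⟩ : ∃ ε : ℝ, 0 < ε ∧ (1 + ε) * (1 + 2 * ε + S + ζ * P0) + ε < L := by
    have hcont : Tendsto (fun ε : ℝ => (1 + ε) * (1 + 2 * ε + S + ζ * P0) + ε) (𝓝[>] 0)
        (𝓝 ((1 + 0) * (1 + 2 * 0 + S + ζ * P0) + 0)) := by
      have : Continuous fun ε : ℝ => (1 + ε) * (1 + 2 * ε + S + ζ * P0) + ε := by fun_prop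
      exact this.continuousAt.tendsto.mono_left nhdsWithin_le_nhds
    have h2 : (1 + 0) * (1 + 2 * 0 + S + ζ * P0) + 0 < L := by linarith
    have h3 : ∀ᶠ ε : ℝ in 𝓝[>] 0, ε ∈ Set.Ioi (0 : ℝ) := self_mem_nhdsWithin
    obtain ⟨ε, h4, h5⟩ := (h3.and (hcont.eventually (gt_mem_nhds h2))).exists
    exact ⟨ε, h4, h5⟩
  have hsum : Le (fun T => ∑ i ∈ range m, (θ / m) * F.p (((i : ℝ) + 1) * (θ * L / m)) T) S :=
    Le.sum _ fun i _ => (h1 _ (by positivity)).const_mul (by positivity)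
  have hN2 : Tendsto (fun T => (F.N T) ^ 2 * L) atTop (𝓝 (1 ^ 2 * L)) := (F.hJ.pow 2).mul_const L
  have hXL : Tendsto (fun T => 1 + L / F.X T) atTop (𝓝 (1 + 0)) :=
    (Tendsto.div_atTop tendsto_const_nhds F.hX).const_add 1
  filter_upwards [F.pos, F.hx, hsum ε hε, F.N_le ε hε,
    (tendsto_order.1 hN2).1 (L - ε) (by linarith), (tendsto_order.1 hXL).2 (1 + ε) (by linarith)]
    with T hT hxT b1 b2 b3 b4
  by_contra hcon
  push Not at hcon
  have hX0 : 0 < F.X T := by linarith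
  have h5 := pr_lower (F.J T) (F.x T) hL0 hX0.le hθ0 hmn hxT
  -- divide
  have h6 : (F.N T) ^ 2 * L ≤ (1 + L / F.X T) * (F.N T + ζ * F.p L T +
      ∑ i ∈ range m, (θ / m) * F.p (((i : ℝ) + 1) * (θ * L / m)) T) := by
    have e1 : (F.N T) ^ 2 * L = (((F.J T).card : ℝ) * L) ^ 2 / (F.X T ^ 2 * L) := by
      unfold Fam.N
      field_simp
    have e2 : (1 + L / F.X T) * (F.N T + ζ * F.p L T +
        ∑ i ∈ range m, (θ / m) * F.p (((i : ℝ) + 1) * (θ * L / m)) T) =
        ((F.X T + L) * ((F.J T).card * L + (1 - θ) * L * pr (F.J T) (F.x T) L +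
      ∑ i ∈ range m, (θ * L / m) * pr (F.J T) (F.x T) (((i : ℝ) + 1) * (θ * L / m)))) /
        (F.X T ^ 2 * L) := by
      have e3 : ∑ i ∈ range m, (θ * L / m) * pr (F.J T) (F.x T) (((i : ℝ) + 1) * (θ * L / m)) =
          F.X T * L * ∑ i ∈ range m, (θ / m) * F.p (((i : ℝ) + 1) * (θ * L / m)) T := by
        rw [Finset.mul_sum]
        refine Finset.sum_congr rfl fun i _ => ?_
        unfold Fam.p
        field_simp
      have e4 : (1 : ℝ) - θ = ζ := by rw [hθ]; ring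
      rw [e3, e4]
      unfold Fam.N
      have e5 : F.p L T = pr (F.J T) (F.x T) L / F.X T := rfl
      rw [e5]
      field_simp
    rw [e1, e2]
    exact div_le_div_of_nonneg_right h5 (by positivity)
  have hp0 : ∀ R : ℝ, 0 ≤ F.p R T := by
    intro R
    unfold Fam.p pr
    positivity
  have hN0 : 0 ≤ F.N T := by unfold Fam.N; positivity
  have hs0 : 0 ≤ ∑ i ∈ range m, (θ / m) * F.p (((i : ℝ) + 1) * (θ * L / m)) T :=
    Finset.sum_nonneg fun i _ => mul_nonneg (by positivity) (hp0 _)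
  have h7 : F.N T + ζ * F.p L T +
      ∑ i ∈ range m, (θ / m) * F.p (((i : ℝ) + 1) * (θ * L / m)) T ≤ 1 + 2 * ε + S + ζ * P0 := by
    have := mul_le_mul_of_nonneg_left hcon.le hζ.le
    linarith
  have h8 : 0 ≤ F.N T + ζ * F.p L T +
      ∑ i ∈ range m, (θ / m) * F.p (((i : ℝ) + 1) * (θ * L / m)) T := by
    have := mul_nonneg hζ.le (hp0 L)
    linarith
  have h9 := mul_le_mul b4.le h7 h8 (by linarith)
  linarith

end Q241.KL
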