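import Pool.Agent.Q241.KL.S

/-! # The reproducing property of the sine kernel -/

set_option autoImplicit false

namespace Q241.KL

open Filter Topology MeasureTheory Complex
open scoped FourierTransform Convolution

/-- the sine kernel -/
noncomputable def sc (y : ℝ) : ℝ := Real.sinc (Real.pi * y)

theorem sc_cont : Continuous sc := Real.continuous_sinc.comp (continuous_const.mul continuous_id)

theorem sc_abs (y : ℝ) : |sc y| ≤ 1 := Real.abs_sinc_le_one _

theorem sc_zero : sc 0 = 1 := by simp [sc]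

theorem sc_neg (y : ℝ) : sc (-y) = sc y := by
  unfold sc
  rw [mul_neg, Real.sinc_neg]

theorem sc_swap (a b : ℝ) : sc (a - b) = sc (b - a) := by
  rw [← sc_neg]
  congr 1
  ring

theorem sc_sq_le (y : ℝ) : sc y ^ 2 ≤ (1 / (|y| + 1 / 2)) ^ 2 := by
  have h0 : 0 ≤ |y| := abs_nonneg y
  have hpi := Real.pi_gt_three
  rw [← sq_abs (sc y)]
  apply pow_le_pow_left₀ (abs_nonneg _)
  rcases le_total |y| (1 / 2) with h | h
  · refine (sc_abs y).trans ?_
    rw [le_div_iff₀ (by linarith)]
    linarith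
  · have hy : Real.pi * y ≠ 0 := by
      intro h1
      rcases mul_eq_zero.mp h1 with h2 | h2
      · linarith
      · rw [h2, abs_zero] at h
        linarith
    unfold sc
    rw [Real.sinc_of_ne_zero hy, abs_div, abs_mul, abs_of_pos Real.pi_pos]
    have h1 : |Real.sin (Real.pi * y)| / (Real.pi * |y|) ≤ 1 / (Real.pi * |y|) :=
      div_le_div_of_nonneg_right (Real.abs_sin_le_one _) (by positivity)
    refine h1.trans ?_
    apply one_div_le_one_div_of_le (by linarith)
    nlinarith

theorem sc_sq_int : Integrable fun y => sc y ^ 2 := by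
  have h1 : Integrable fun y : ℝ => 4 * (1 + y ^ 2)⁻¹ := integrable_inv_one_add_sq.const_mul 4
  refine h1.mono' (sc_cont.pow 2).aestronglyMeasurable (Eventually.of_forall fun y => ?_)
  rw [Real.norm_eq_abs, abs_of_nonneg (sq_nonneg _)]
  refine (sc_sq_le y).trans ?_
  rw [div_pow, one_pow, div_le_iff₀ (by positivity)]
  have h2 : 0 < 1 + y ^ 2 := by positivity
  rw [mul_assoc, mul_comm, mul_assoc]
  have h3 : |y| ^ 2 = y ^ 2 := sq_abs y
  have h4 : (1 + y ^ 2)⁻¹ * (1 + y ^ 2) = 1 := inv_mul_cancel₀ h2.ne'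
  have h5 : 0 ≤ |y| := abs_nonneg y
  have h6 : 0 < (1 + y ^ 2)⁻¹ := inv_pos.mpr h2
  have h7 : 1 + y ^ 2 ≤ (|y| + 1 / 2) ^ 2 * 4 := by nlinarith
  calc (1 : ℝ) = (1 + y ^ 2)⁻¹ * (1 + y ^ 2) := h4.symm
    _ ≤ (1 + y ^ 2)⁻¹ * ((|y| + 1 / 2) ^ 2 * 4) := mul_le_mul_of_nonneg_left h7 h6.le

theorem sc_mul_int (a b : ℝ) : Integrable fun y => sc (y - a) * sc (y - b) := by
  have h1 : Integrable fun y => sc (y - a) ^ 2 := sc_sq_int.comp_sub_right a
  have h2 : Integrable fun y => sc (y - b) ^ 2 := sc_sq_int.comp_sub_right b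
  refine (h1.add h2).mono' ?_ (Eventually.of_forall fun y => ?_)
  · exact ((sc_cont.comp (continuous_id.sub continuous_const)).mul
      (sc_cont.comp (continuous_id.sub continuous_const))).aestronglyMeasurable
  · rw [Real.norm_eq_abs, abs_mul]
    show |sc (y - a)| * |sc (y - b)| ≤ sc (y - a) ^ 2 + sc (y - b) ^ 2
    nlinarith [sq_abs (sc (y - a)), sq_abs (sc (y - b)), sq_nonneg (|sc (y - a)| - |sc (y - b)|),
      sq_nonneg (|sc (y - a)|), sq_nonneg (|sc (y - b)|)]

/-- the box function times an exponential -/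
noncomputable def bx (δ t : ℝ) : ℂ :=
  (Set.Ioc (-1 / 2 : ℝ) (1 / 2)).indicator (fun t => Complex.exp ((2 * Real.pi * δ * t : ℝ) * I)) t

theorem bx_int (δ : ℝ) : Integrable (bx δ) := by
  unfold bx
  refine (integrable_indicator_iff measurableSet_Ioc).mpr ?_
  apply ContinuousOn.integrableOn_Icc (a := -1 / 2) (b := 1 / 2) _ |>.mono_set Set.Ioc_subset_Icc_self
  fun_prop

theorem exp_int (ξ : ℝ) : ∫ t in (-1 / 2 : ℝ)..(1 / 2), Complex.exp ((2 * Real.pi * ξ * t : ℝ) * I) =
    (sc ξ : ℂ) := by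
  by_cases h : ξ = 0
  · subst h
    simp [sc]
    norm_num
  · have hpi := Real.pi_pos
    have hc : (2 * Real.pi * ξ * I : ℂ) ≠ 0 := by
      simp [h, Real.pi_ne_zero]
    have e : ∀ t : ℝ, Complex.exp ((2 * Real.pi * ξ * t : ℝ) * I) =
        Complex.exp ((2 * Real.pi * ξ * I : ℂ) * t) := by
      intro t
      congr 1
      push_cast
      ring
    simp_rw [e]
    rw [integral_exp_mul_complex hc]
    unfold sc
    rw [Real.sinc_of_ne_zero (by positivity)]
    have e1 : (2 * Real.pi * ξ * I : ℂ) * ((1 / 2 : ℝ) : ℂ) = (Real.pi * ξ : ℝ) * I := by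
      push_cast; ring
    have e2 : (2 * Real.pi * ξ * I : ℂ) * ((-1 / 2 : ℝ) : ℂ) = -((Real.pi * ξ : ℝ) * I) := by
      push_cast; ring
    rw [e1, e2]
    push_cast
    rw [Complex.sin]
    have hx : (ξ : ℂ) ≠ 0 := by exact_mod_cast h
    have hp : (Real.pi : ℂ) ≠ 0 := by exact_mod_cast hpi.ne'
    field_simp
    have hI : I ^ 2 = -1 := I_sq
    ring_nf
    rw [hI]
    ring_nf

theorem bx_fourier (δ ξ : ℝ) : 𝓕 (bx δ) ξ = (sc (ξ - δ) : ℂ) := by
  rw [Real.fourier_real_eq_integral_exp_smul, ← sc_neg, ← exp_int]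
  have e : ∀ t : ℝ, Complex.exp ((-2 * Real.pi * t * ξ : ℝ) * I) • bx δ t =
      (Set.Ioc (-1 / 2 : ℝ) (1 / 2)).indicator
        (fun t => Complex.exp ((2 * Real.pi * (-(ξ - δ)) * t : ℝ) * I)) t := by
    intro t
    unfold bx
    by_cases ht : t ∈ Set.Ioc (-1 / 2 : ℝ) (1 / 2)
    · rw [Set.indicator_of_mem ht, Set.indicator_of_mem ht, smul_eq_mul, ← Complex.exp_add]
      congr 1
      push_cast
      ring
    · rw [Set.indicator_of_notMem ht, Set.indicator_of_notMem ht, smul_zero]
  simp_rw [e]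
  rw [integral_indicator measurableSet_Ioc, intervalIntegral.integral_of_le (by norm_num)]

theorem bx_contAt (δ : ℝ) {x : ℝ} (hx : |x| ≠ 1 / 2) : ContinuousAt (bx δ) x := by
  rcases lt_or_gt_of_ne hx with h | h
  · have h1 : (bx δ) =ᶠ[𝓝 x] fun t => Complex.exp ((2 * Real.pi * δ * t : ℝ) * I) := by
      have h2 : Set.Ioo (-1 / 2 : ℝ) (1 / 2) ∈ 𝓝 x := by
        refine Ioo_mem_nhds ?_ ?_
        · linarith [(abs_lt.mp h).1]
        · exact (abs_lt.mp h).2
      filter_upwards [h2] with t ht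
      unfold bx
      rw [Set.indicator_of_mem (Set.Ioo_subset_Ioc_self ht)]
    refine ContinuousAt.congr ?_ h1.symm
    have : Continuous fun t : ℝ => Complex.exp ((2 * Real.pi * δ * t : ℝ) * I) := by fun_prop
    exact this.continuousAt
  · have h1 : (bx δ) =ᶠ[𝓝 x] fun _ => 0 := by
      have h2 : {t : ℝ | 1 / 2 < |t|} ∈ 𝓝 x :=
        (isOpen_lt continuous_const continuous_abs).mem_nhds h
      filter_upwards [h2] with t ht
      unfold bx
      rw [Set.indicator_of_notMem]
      rintro ⟨h3, h4⟩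
      have h5 : (1 : ℝ) / 2 < |t| := ht
      rcases abs_cases t with ⟨h6, _⟩ | ⟨h6, _⟩
      · linarith
      · linarith
    exact (continuousAt_const (y := (0 : ℂ))).congr h1.symm

theorem bx_norm (δ t : ℝ) : ‖bx δ t‖ ≤ 1 := by
  unfold bx
  by_cases ht : t ∈ Set.Ioc (-1 / 2 : ℝ) (1 / 2)
  · rw [Set.indicator_of_mem ht, Complex.norm_exp_ofReal_mul_I]
  · rw [Set.indicator_of_notMem ht, norm_zero]
    norm_num

/-- the reproducing property at a difference `δ` -/
theorem sc_conv0 (δ : ℝ) : ∫ ξ, sc ξ * sc (ξ - δ) = sc δ := by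
  set h : ℝ → ℂ := (bx 0) ⋆[ContinuousLinearMap.mul ℂ ℂ] (bx δ) with hh
  have hv : ∀ v, h v = ∫ t, bx 0 t * bx δ (v - t) := by
    intro v
    rw [hh, convolution_def]
    rfl
  have hint : Integrable h := (bx_int 0).integrable_convolution _ (bx_int δ)
  have hF : ∀ ξ, 𝓕 h ξ = ((sc ξ * sc (ξ - δ) : ℝ) : ℂ) := by
    intro ξ
    rw [hh, Real.fourier_mul_convolution_eq (bx_int 0) (bx_int δ), bx_fourier, bx_fourier]
    push_cast
    rw [sub_zero]
  have hFint : Integrable (𝓕 h) := by
    have h1 := (sc_mul_int 0 δ).ofReal (𝕜 := ℂ)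
    refine h1.congr (Eventually.of_forall fun ξ => ?_)
    rw [hF]
    simp
  have hmeas : ∀ v, AEStronglyMeasurable (fun t => bx 0 t * bx δ (v - t)) volume := by
    intro v
    refine (bx_int 0).aestronglyMeasurable.mul ?_
    exact ((bx_int δ).comp_sub_left v).aestronglyMeasurable
  have hcont : ContinuousAt h 0 := by
    have h1 : ContinuousAt (fun v => ∫ t, bx 0 t * bx δ (v - t)) 0 := by
      refine continuousAt_of_dominated (bound := fun t => ‖bx 0 t‖) ?_ ?_ ?_ ?_
      · exact Eventually.of_forall hmeas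
      · refine Eventually.of_forall fun v => Eventually.of_forall fun t => ?_
        rw [norm_mul]
        exact mul_le_of_le_one_right (norm_nonneg _) (bx_norm _ _)
      · exact (bx_int 0).norm
      · have h2 : ∀ᵐ t : ℝ, t ∉ ({-1 / 2, 1 / 2} : Set ℝ) := by
          refine measure_eq_zero_iff_ae_notMem.mp ?_
          exact (Set.toFinite _).measure_zero _
        filter_upwards [h2] with t ht
        refine ContinuousAt.mul continuousAt_const ?_
        have h3 : |0 - t| ≠ 1 / 2 := by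
          intro h4
          apply ht
          rw [zero_sub, abs_neg] at h4
          rcases abs_cases t with ⟨h6, _⟩ | ⟨h6, _⟩
          · right
            show t = 1 / 2
            linarith
          · left
            linarith
        exact ContinuousAt.comp (f := fun v : ℝ => v - t) (bx_contAt δ h3)
          (continuous_id.sub continuous_const).continuousAt
    have h2 : h = fun v => ∫ t, bx 0 t * bx δ (v - t) := funext hv
    rw [h2]
    exact h1
  have hinv := hint.fourierInv_fourier_eq hFint hcont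
  rw [Real.fourierInv_eq] at hinv
  have e1 : ∫ v : ℝ, Real.fourierChar (inner ℝ v (0 : ℝ)) • 𝓕 h v = ((∫ ξ, sc ξ * sc (ξ - δ) : ℝ) : ℂ) := by
    rw [← integral_complex_ofReal]
    refine integral_congr_ae (Eventually.of_forall fun ξ => ?_)
    dsimp only
    rw [hF, inner_zero_right, AddChar.map_zero_eq_one, one_smul]
  rw [e1] at hinv
  have e2 : h 0 = (sc δ : ℂ) := by
    rw [hv, ← sc_neg, ← exp_int]
    have e : ∀ t : ℝ, t ∉ ({-1 / 2, 1 / 2} : Set ℝ) → bx 0 t * bx δ (0 - t) =
        (Set.Ioc (-1 / 2 : ℝ) (1 / 2)).indicator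
          (fun t => Complex.exp ((2 * Real.pi * (-δ) * t : ℝ) * I)) t := by
      intro t ht
      unfold bx
      by_cases h1 : t ∈ Set.Ioc (-1 / 2 : ℝ) (1 / 2)
      · have h2 : 0 - t ∈ Set.Ioc (-1 / 2 : ℝ) (1 / 2) := by
          refine ⟨?_, by linarith [h1.1]⟩
          have h3 : t ≠ 1 / 2 := fun h3 => ht (by right; exact h3)
          have := lt_of_le_of_ne h1.2 h3
          linarith
        rw [Set.indicator_of_mem h1, Set.indicator_of_mem h2, Set.indicator_of_mem h1,
          ← Complex.exp_add]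
        congr 1
        push_cast
        ring
      · rw [Set.indicator_of_notMem h1, Set.indicator_of_notMem h1, zero_mul]
    have h2 : ∀ᵐ t : ℝ, t ∉ ({-1 / 2, 1 / 2} : Set ℝ) := by
      refine measure_eq_zero_iff_ae_notMem.mp ?_
      exact (Set.toFinite _).measure_zero _
    rw [integral_congr_ae (h2.mono e), integral_indicator measurableSet_Ioc,
      intervalIntegral.integral_of_le (by norm_num)]
  rw [e2] at hinv
  exact_mod_cast hinv

/-- **the reproducing property** -/
theorem sc_conv (a b : ℝ) : ∫ y, sc (y - a) * sc (y - b) = sc (a - b) := by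
  have h := integral_sub_right_eq_self (fun ξ => sc ξ * sc (ξ - (b - a))) a (μ := volume)
  rw [sc_conv0] at h
  rw [sc_swap, ← h]
  refine integral_congr_ae (Eventually.of_forall fun y => ?_)
  dsimp only
  congr 2
  ring

theorem sc_sq_total (a : ℝ) : ∫ y, sc (y - a) ^ 2 = 1 := by
  have h := sc_conv a a
  rw [sub_self, sc_zero] at h
  rw [← h]
  refine integral_congr_ae (Eventually.of_forall fun y => ?_)
  dsimp only
  ring

end Q241.KL
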