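import Pool.Agent.Q241.KL.K1

/-! # Schur complements of the matrices of the sine kernel -/

set_option autoImplicit false

namespace Q241.KL

open Filter Topology MeasureTheory Matrix

variable {n : ℕ}

/-- the matrix of the sine kernel, general index set -/
noncomputable def SG {κ : Type*} (p : κ → ℝ) : Matrix κ κ ℝ :=
  Matrix.of fun i j => sc (p i - p j)

theorem SA_eq (p : Fin n → ℝ) : SA p = SG p := rfl

/-- the vector of the kernel at `v` -/
noncomputable def av (p : Fin n → ℝ) (v : ℝ) : Fin n → ℝ := fun i => sc (v - p i)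

/-- the kernel of the projection to the span of the kernel functions at the points of `p` -/
noncomputable def PK (p : Fin n → ℝ) (v w : ℝ) : ℝ := av p v ⬝ᵥ ((SA p)⁻¹ *ᵥ av p w)

theorem schur {m : ℕ} (p : Fin n → ℝ) (hp : (SA p).det ≠ 0) (q : Fin m → ℝ) :
    (SG (Sum.elim q p)).det = (SA p).det *
      (Matrix.of fun i j : Fin m => sc (q i - q j) - PK p (q i) (q j)).det := by
  have e : SG (Sum.elim q p) = Matrix.fromBlocks (SA q) (Matrix.of fun i j => sc (q i - p j))
      (Matrix.of fun i j => sc (p i - q j)) (SA p) := by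
    ext i j
    rcases i with i | i <;> rcases j with j | j <;> rfl
  have hinv : Invertible (SA p) := Matrix.invertibleOfIsUnitDet _ (isUnit_iff_ne_zero.mpr hp)
  rw [e, Matrix.det_fromBlocks₂₂, Matrix.invOf_eq_nonsing_inv]
  congr 2
  ext i j
  rw [Matrix.sub_apply, Matrix.mul_assoc, Matrix.mul_apply, Matrix.of_apply]
  have e1 : SA q i j = sc (q i - q j) := rfl
  rw [e1]
  congr 1
  unfold PK dotProduct av
  refine Finset.sum_congr rfl fun k _ => ?_
  rw [Matrix.of_apply]
  congr 1
  rw [Matrix.mul_apply]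
  unfold Matrix.mulVec dotProduct
  refine Finset.sum_congr rfl fun l _ => ?_
  rw [Matrix.of_apply, sc_swap]

theorem det_cons (p : Fin n → ℝ) (v : ℝ) :
    (SA (Fin.cons v p : Fin (n + 1) → ℝ)).det = (SG (Sum.elim (fun _ : Fin 1 => v) p)).det := by
  let e : Fin 1 ⊕ Fin n ≃ Fin (n + 1) := finSumFinEquiv.trans (finCongr (Nat.add_comm 1 n))
  have h : SG (Sum.elim (fun _ : Fin 1 => v) p) =
      (SA (Fin.cons v p : Fin (n + 1) → ℝ)).submatrix e e := by
    have h1 : ∀ i, (Fin.cons v p : Fin (n + 1) → ℝ) (e i) = Sum.elim (fun _ : Fin 1 => v) p i := by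
      intro i
      rcases i with i | i
      · have : e (Sum.inl i) = 0 := by
          apply Fin.ext
          simp [e]
        rw [this]
        rfl
      · have : e (Sum.inr i) = i.succ := by
          apply Fin.ext
          simp [e]
        rw [this]
        rfl
    ext i j
    rw [Matrix.submatrix_apply, SA_eq]
    unfold SG
    rw [Matrix.of_apply, Matrix.of_apply, h1, h1]
  rw [h, Matrix.det_submatrix_equiv_self]

theorem det_cons2 (p : Fin n → ℝ) (v w : ℝ) :
    (SA (Fin.cons w (Fin.cons v p : Fin (n + 1) → ℝ) : Fin (n + 2) → ℝ)).det =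
      (SG (Sum.elim ![w, v] p)).det := by
  let e : Fin 2 ⊕ Fin n ≃ Fin (n + 2) := finSumFinEquiv.trans (finCongr (Nat.add_comm 2 n))
  have h : SG (Sum.elim ![w, v] p) =
      (SA (Fin.cons w (Fin.cons v p : Fin (n + 1) → ℝ) : Fin (n + 2) → ℝ)).submatrix e e := by
    have h1 : ∀ i, (Fin.cons w (Fin.cons v p : Fin (n + 1) → ℝ) : Fin (n + 2) → ℝ) (e i) =
        Sum.elim ![w, v] p i := by
      intro i
      rcases i with i | i
      · fin_cases i
        · have : e (Sum.inl 0) = 0 := by
            apply Fin.ext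
            simp [e]
          show (Fin.cons w (Fin.cons v p : Fin (n + 1) → ℝ) : Fin (n + 2) → ℝ) (e (Sum.inl 0)) = w
          rw [this]
          rfl
        · have : e (Sum.inl 1) = 1 := by
            apply Fin.ext
            simp [e]
          show (Fin.cons w (Fin.cons v p : Fin (n + 1) → ℝ) : Fin (n + 2) → ℝ) (e (Sum.inl 1)) = v
          rw [this]
          rfl
      · have : e (Sum.inr i) = i.succ.succ := by
          apply Fin.ext
          simp [e]
        rw [this]
        rfl
    ext i j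
    rw [Matrix.submatrix_apply, SA_eq]
    unfold SG
    rw [Matrix.of_apply, Matrix.of_apply, h1, h1]
  rw [h, Matrix.det_submatrix_equiv_self]

/-- one more point -/
theorem det_one (p : Fin n → ℝ) (hp : (SA p).det ≠ 0) (v : ℝ) :
    (SA (Fin.cons v p : Fin (n + 1) → ℝ)).det = (SA p).det * (1 - PK p v v) := by
  rw [det_cons, schur p hp]
  congr 1
  rw [Matrix.det_fin_one, Matrix.of_apply, sub_self, sc_zero]

/-- two more points -/
theorem det_two (p : Fin n → ℝ) (hp : (SA p).det ≠ 0) (v w : ℝ) :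
    (SA (Fin.cons w (Fin.cons v p : Fin (n + 1) → ℝ) : Fin (n + 2) → ℝ)).det =
      (SA p).det * ((1 - PK p v v) * (1 - PK p w w) - (sc (v - w) - PK p v w) * (sc (v - w) - PK p w v)) := by
  rw [det_cons2, schur p hp]
  congr 1
  rw [Matrix.det_fin_two]
  simp only [Matrix.of_apply, Matrix.cons_val_zero, Matrix.cons_val_one, sub_self, sc_zero]
  rw [sc_swap w v]
  ring

theorem SA_symm (p : Fin n → ℝ) : (SA p)ᵀ = SA p := by
  ext i j
  rw [Matrix.transpose_apply]
  show sc (p j - p i) = sc (p i - p j)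
  exact sc_swap _ _

theorem inv_symm (p : Fin n → ℝ) : ((SA p)⁻¹)ᵀ = (SA p)⁻¹ := by
  rw [Matrix.transpose_nonsing_inv, SA_symm]

theorem PK_symm (p : Fin n → ℝ) (v w : ℝ) : PK p v w = PK p w v := by
  unfold PK
  rw [Matrix.dotProduct_mulVec, ← Matrix.mulVec_transpose, inv_symm, dotProduct_comm]

theorem PK_nonneg (p : Fin n → ℝ) (v : ℝ) : 0 ≤ PK p v v := by
  have h := (SA_psd p).inv
  have := h.dotProduct_mulVec_nonneg (av p v)
  simpa [PK] using this

/-- singular matrices stay singular -/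
theorem det_cons_zero (p : Fin n → ℝ) (hp : (SA p).det = 0) (v : ℝ) :
    (SA (Fin.cons v p : Fin (n + 1) → ℝ)).det = 0 := by
  obtain ⟨x, hx0, hx⟩ := Matrix.exists_mulVec_eq_zero_iff.mpr hp
  apply Matrix.exists_mulVec_eq_zero_iff.mp
  refine ⟨Fin.cons 0 x, ?_, ?_⟩
  · intro h
    apply hx0
    funext i
    have := congrFun h i.succ
    simpa using this
  · rw [← (SA_psd (Fin.cons v p : Fin (n + 1) → ℝ)).dotProduct_mulVec_zero_iff]
    have e : star (Fin.cons 0 x : Fin (n + 1) → ℝ) ⬝ᵥ
        (SA (Fin.cons v p : Fin (n + 1) → ℝ) *ᵥ (Fin.cons 0 x : Fin (n + 1) → ℝ)) =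
        x ⬝ᵥ (SA p *ᵥ x) := by
      simp only [dotProduct, Matrix.mulVec, star_trivial, Fin.sum_univ_succ, Fin.cons_zero,
        Fin.cons_succ, zero_mul, mul_zero, zero_add, SA, Matrix.of_apply]
    rw [e, hx]
    simp

end Q241.KL
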