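import Pool.Agent.Q241.KL.K2

/-! # Screening for the determinants of the sine kernel -/

set_option autoImplicit false

namespace Q241.KL

open Filter Topology MeasureTheory Matrix

variable {n : ℕ}

/-- the coefficients of the projection of the kernel function at `v` -/
noncomputable def cv (p : Fin n → ℝ) (v : ℝ) : Fin n → ℝ := (SA p)⁻¹ *ᵥ av p v

theorem PK_cv (p : Fin n → ℝ) (v w : ℝ) : PK p v w = ∑ j, cv p v j * sc (w - p j) := by
  rw [PK_symm]
  unfold PK
  show av p w ⬝ᵥ cv p v = _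
  unfold dotProduct av
  exact Finset.sum_congr rfl fun j _ => mul_comm _ _

theorem SA_cv (p : Fin n → ℝ) (hp : (SA p).det ≠ 0) (v : ℝ) : SA p *ᵥ cv p v = av p v := by
  unfold cv
  rw [Matrix.mulVec_mulVec, Matrix.mul_nonsing_inv _ (isUnit_iff_ne_zero.mpr hp),
    Matrix.one_mulVec]

theorem PK_cont (p : Fin n → ℝ) : Continuous fun x : ℝ × ℝ => PK p x.1 x.2 := by
  have e : (fun x : ℝ × ℝ => PK p x.1 x.2) = fun x : ℝ × ℝ =>
      ∑ i, ∑ j, sc (x.1 - p i) * ((SA p)⁻¹ i j * sc (x.2 - p j)) := by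
    funext x
    unfold PK dotProduct Matrix.mulVec dotProduct av
    refine Finset.sum_congr rfl fun i _ => ?_
    rw [Finset.mul_sum]
  rw [e]
  refine continuous_finsetSum _ fun i _ => continuous_finsetSum _ fun j _ => ?_
  exact (sc_cont.comp (continuous_fst.sub continuous_const)).mul
    (continuous_const.mul (sc_cont.comp (continuous_snd.sub continuous_const)))

theorem PKd_cont (p : Fin n → ℝ) : Continuous fun v : ℝ => PK p v v :=
  (PK_cont p).comp (continuous_id.prodMk continuous_id)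

theorem dbl_int (C : Fin n → Fin n → ℝ) (p : Fin n → ℝ) :
    Integrable fun v : ℝ => ∑ i, ∑ j, C i j * (sc (v - p i) * sc (v - p j)) :=
  integrable_finsetSum _ fun i _ => integrable_finsetSum _ fun j _ => (sc_mul_int _ _).const_mul _

theorem dbl_total (C : Fin n → Fin n → ℝ) (p : Fin n → ℝ) :
    ∫ v : ℝ, ∑ i, ∑ j, C i j * (sc (v - p i) * sc (v - p j)) =
      ∑ i, ∑ j, C i j * sc (p i - p j) := by
  rw [integral_finsetSum _ fun i _ => integrable_finsetSum _ fun j _ =>
    (sc_mul_int _ _).const_mul _]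
  refine Finset.sum_congr rfl fun i _ => ?_
  rw [integral_finsetSum _ fun j _ => (sc_mul_int _ _).const_mul _]
  refine Finset.sum_congr rfl fun j _ => ?_
  rw [integral_const_mul, sc_conv]

theorem PKd_eq (p : Fin n → ℝ) : (fun v : ℝ => PK p v v) = fun v : ℝ =>
    ∑ i, ∑ j, (fun i j => (SA p)⁻¹ i j) i j * (sc (v - p i) * sc (v - p j)) := by
  funext v
  unfold PK dotProduct Matrix.mulVec dotProduct av
  refine Finset.sum_congr rfl fun i _ => ?_
  rw [Finset.mul_sum]
  refine Finset.sum_congr rfl fun j _ => ?_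
  dsimp only
  ring

theorem PKd_int (p : Fin n → ℝ) : Integrable fun v => PK p v v := by
  rw [PKd_eq]
  exact dbl_int _ p

theorem PKd_total (p : Fin n → ℝ) (hp : (SA p).det ≠ 0) : ∫ v, PK p v v = n := by
  have e : (∫ v, PK p v v) = ∫ v : ℝ,
    ∑ i, ∑ j, (fun i j => (SA p)⁻¹ i j) i j * (sc (v - p i) * sc (v - p j)) :=
    congrArg (fun f : ℝ → ℝ => ∫ v, f v) (PKd_eq p)
  rw [e, dbl_total]
  have h1 : ∀ i : Fin n, ∑ j, (SA p)⁻¹ i j * sc (p i - p j) = 1 := by
    intro i
    have h2 : ∀ j : Fin n, (SA p)⁻¹ i j * sc (p i - p j) = (SA p)⁻¹ i j * SA p j i := by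
      intro j
      rw [sc_swap]
      rfl
    rw [Finset.sum_congr rfl fun j _ => h2 j, ← Matrix.mul_apply,
      Matrix.nonsing_inv_mul _ (isUnit_iff_ne_zero.mpr hp), Matrix.one_apply_eq]
  rw [Finset.sum_congr rfl fun i _ => h1 i]
  simp

theorem PKrow_int (p : Fin n → ℝ) (v : ℝ) : Integrable fun w => PK p v w ^ 2 := by
  have e : (fun w : ℝ => PK p v w ^ 2) = fun w : ℝ =>
      ∑ i, ∑ j, (cv p v i * cv p v j) * (sc (w - p i) * sc (w - p j)) := by
    funext w
    rw [PK_cv, sq, Finset.sum_mul_sum]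
    refine Finset.sum_congr rfl fun i _ => Finset.sum_congr rfl fun j _ => ?_
    ring
  rw [e]
  exact integrable_finsetSum _ fun i _ => integrable_finsetSum _ fun j _ =>
    (sc_mul_int _ _).const_mul _

theorem PKrow_total (p : Fin n → ℝ) (hp : (SA p).det ≠ 0) (v : ℝ) :
    ∫ w, PK p v w ^ 2 = PK p v v := by
  have e : (fun w : ℝ => PK p v w ^ 2) = fun w : ℝ =>
      ∑ i, ∑ j, (cv p v i * cv p v j) * (sc (w - p i) * sc (w - p j)) := by
    funext w
    rw [PK_cv, sq, Finset.sum_mul_sum]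
    refine Finset.sum_congr rfl fun i _ => Finset.sum_congr rfl fun j _ => ?_
    ring
  rw [e, integral_finsetSum _ fun i _ => integrable_finsetSum _ fun j _ =>
    (sc_mul_int _ _).const_mul _]
  have h1 : ∀ i : Fin n, ∫ w, ∑ j, (cv p v i * cv p v j) * (sc (w - p i) * sc (w - p j)) =
      cv p v i * av p v i := by
    intro i
    rw [integral_finsetSum _ fun j _ => (sc_mul_int _ _).const_mul _]
    have h2 : ∀ j : Fin n, ∫ w, (cv p v i * cv p v j) * (sc (w - p i) * sc (w - p j)) =
        cv p v i * (SA p i j * cv p v j) := by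
      intro j
      rw [integral_const_mul, sc_conv]
      have : SA p i j = sc (p i - p j) := rfl
      rw [this]
      ring
    rw [Finset.sum_congr rfl fun j _ => h2 j, ← Finset.mul_sum, ← SA_cv p hp v]
    rfl
  rw [Finset.sum_congr rfl fun i _ => h1 i, PK_cv]
  rfl

theorem cross_int (p : Fin n → ℝ) (v : ℝ) : Integrable fun w => sc (v - w) * PK p v w := by
  have e : (fun w : ℝ => sc (v - w) * PK p v w) = fun w : ℝ =>
      ∑ j, cv p v j * (sc (w - v) * sc (w - p j)) := by
    funext w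
    rw [PK_cv, Finset.mul_sum, sc_swap]
    refine Finset.sum_congr rfl fun j _ => ?_
    ring
  rw [e]
  exact integrable_finsetSum _ fun j _ => (sc_mul_int _ _).const_mul _

theorem cross_total (p : Fin n → ℝ) (v : ℝ) : ∫ w, sc (v - w) * PK p v w = PK p v v := by
  have e : (fun w : ℝ => sc (v - w) * PK p v w) = fun w : ℝ =>
      ∑ j, cv p v j * (sc (w - v) * sc (w - p j)) := by
    funext w
    rw [PK_cv, Finset.mul_sum, sc_swap]
    refine Finset.sum_congr rfl fun j _ => ?_
    ring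
  rw [e, integral_finsetSum _ fun j _ => (sc_mul_int _ _).const_mul _, PK_cv]
  refine Finset.sum_congr rfl fun j _ => ?_
  rw [integral_const_mul, sc_conv]

theorem sc_row_int (v : ℝ) : Integrable fun w => sc (v - w) ^ 2 := by
  have h := sc_sq_int.comp_sub_right v
  refine h.congr (Eventually.of_forall fun w => ?_)
  dsimp only
  rw [sc_swap]

theorem sc_row_total (v : ℝ) : ∫ w, sc (v - w) ^ 2 = 1 := by
  rw [← sc_sq_total v]
  refine integral_congr_ae (Eventually.of_forall fun w => ?_)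
  dsimp only
  rw [sc_swap]

/-- the reduced kernel is again a projection -/
theorem Kp_int (p : Fin n → ℝ) (v : ℝ) : Integrable fun w => (sc (v - w) - PK p v w) ^ 2 := by
  have h := ((sc_row_int v).sub ((cross_int p v).const_mul 2)).add (PKrow_int p v)
  refine h.congr (Eventually.of_forall fun w => ?_)
  show sc (v - w) ^ 2 - 2 * (sc (v - w) * PK p v w) + PK p v w ^ 2 = (sc (v - w) - PK p v w) ^ 2
  ring

theorem Kp_total (p : Fin n → ℝ) (hp : (SA p).det ≠ 0) (v : ℝ) :
    ∫ w, (sc (v - w) - PK p v w) ^ 2 = 1 - PK p v v := by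
  have i1 : Integrable fun w => sc (v - w) ^ 2 - 2 * (sc (v - w) * PK p v w) :=
    (sc_row_int v).sub ((cross_int p v).const_mul 2)
  have e : (fun w => (sc (v - w) - PK p v w) ^ 2) =
      fun w => (sc (v - w) ^ 2 - 2 * (sc (v - w) * PK p v w)) + PK p v w ^ 2 := by
    funext w; ring
  rw [e, integral_add i1 (PKrow_int p v), integral_sub (sc_row_int v) ((cross_int p v).const_mul 2),
    integral_const_mul, sc_row_total, cross_total, PKrow_total p hp]
  ring

theorem PK_cs (p : Fin n → ℝ) (v w : ℝ) : PK p v w ^ 2 ≤ PK p v v * PK p w w := by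
  have hB := (SA_psd p).inv
  have key : ∀ t : ℝ, 0 ≤ PK p w w * (t * t) + (2 * PK p v w) * t + PK p v v := by
    intro t
    have h := hB.dotProduct_mulVec_nonneg (av p v + t • av p w)
    have e : star (av p v + t • av p w) ⬝ᵥ ((SA p)⁻¹ *ᵥ (av p v + t • av p w)) =
        PK p w w * (t * t) + (2 * PK p v w) * t + PK p v v := by
      rw [star_trivial, Matrix.mulVec_add, Matrix.mulVec_smul]
      simp only [add_dotProduct, dotProduct_add, smul_dotProduct, dotProduct_smul, smul_eq_mul]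
      have h1 : av p v ⬝ᵥ ((SA p)⁻¹ *ᵥ av p v) = PK p v v := rfl
      have h2 : av p v ⬝ᵥ ((SA p)⁻¹ *ᵥ av p w) = PK p v w := rfl
      have h3 : av p w ⬝ᵥ ((SA p)⁻¹ *ᵥ av p v) = PK p v w := PK_symm p w v
      have h4 : av p w ⬝ᵥ ((SA p)⁻¹ *ᵥ av p w) = PK p w w := rfl
      rw [h1, h2, h3, h4]
      ring
    rw [e] at h
    exact h
  have h := discrim_le_zero key
  unfold discrim at h
  nlinarith

theorem PK_le_one (p : Fin n → ℝ) (hp : (SA p).det ≠ 0) (v : ℝ) : PK p v v ≤ 1 := by
  have h1 := det_one p hp v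
  have h2 := SA_det_nonneg (Fin.cons v p : Fin (n + 1) → ℝ)
  have h3 := SA_det_nonneg p
  have h4 : 0 < (SA p).det := lt_of_le_of_ne h3 (Ne.symm hp)
  rw [h1] at h2
  have := nonneg_of_mul_nonneg_right h2 h4
  linarith

end Q241.KL
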