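import Pool.Agent.Q241.KL.K3

/-! # Two extra points -/

set_option autoImplicit false

namespace Q241.KL

open Filter Topology MeasureTheory Matrix

variable {n : ℕ}

/-- the part of the projection outside of a window -/
noncomputable def bt (p : Fin n → ℝ) (ρ : ℝ) : ℝ := n - ∫ v in Set.Icc (-ρ) ρ, PK p v v

theorem bt_eq (p : Fin n → ℝ) (hp : (SA p).det ≠ 0) (ρ : ℝ) :
    bt p ρ = ∫ v in (Set.Icc (-ρ) ρ)ᶜ, PK p v v := by
  have h := integral_add_compl (measurableSet_Icc (a := -ρ) (b := ρ)) (PKd_int p)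
  rw [PKd_total p hp] at h
  unfold bt
  linarith

theorem bt_nonneg (p : Fin n → ℝ) (hp : (SA p).det ≠ 0) (ρ : ℝ) : 0 ≤ bt p ρ := by
  rw [bt_eq p hp]
  exact integral_nonneg fun v => PK_nonneg p v

theorem bt_le (p : Fin n → ℝ) (ρ : ℝ) : bt p ρ ≤ n := by
  unfold bt
  have : 0 ≤ ∫ v in Set.Icc (-ρ) ρ, PK p v v := integral_nonneg fun v => PK_nonneg p v
  linarith

theorem bt_lim (p : Fin n → ℝ) (hp : (SA p).det ≠ 0) : Tendsto (bt p) atTop (𝓝 0) := by
  have h1 := intervalIntegral_tendsto_integral (PKd_int p) tendsto_neg_atTop_atBot tendsto_id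
    (l := atTop)
  rw [PKd_total p hp] at h1
  have h2 := h1.const_sub (n : ℝ)
  rw [sub_self] at h2
  refine h2.congr' ?_
  filter_upwards [eventually_ge_atTop (0 : ℝ)] with ρ hρ
  unfold bt
  rw [integral_Icc_eq_integral_Ioc, intervalIntegral.integral_of_le (show -ρ ≤ id ρ by
    simp only [id]; linarith)]
  rfl

/-- the screening defect -/
noncomputable def be (p : Fin n → ℝ) (ρ : ℝ) : ℝ :=
  (n - 2 * ρ) * (SA p).det + ∫ v in Set.Icc (-ρ) ρ, (SA (Fin.cons v p : Fin (n + 1) → ℝ)).det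

theorem vol_Icc {ρ : ℝ} (hρ : 0 ≤ ρ) : volume.real (Set.Icc (-ρ) ρ) = 2 * ρ := by
  rw [Measure.real, Real.volume_Icc, ENNReal.toReal_ofReal (by linarith)]
  ring

theorem k_eq (p : Fin n → ℝ) {ρ : ℝ} (hρ : 0 ≤ ρ) :
    ∫ v in Set.Icc (-ρ) ρ, (1 - PK p v v) = 2 * ρ - n + bt p ρ := by
  have hfin : volume (Set.Icc (-ρ) ρ) ≠ ⊤ := isCompact_Icc.measure_ne_top
  have i0 : IntegrableOn (fun _ : ℝ => (1 : ℝ)) (Set.Icc (-ρ) ρ) := integrableOn_const hfin
  rw [integral_sub i0 (PKd_int p).integrableOn, setIntegral_const,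
    vol_Icc hρ, smul_eq_mul]
  unfold bt
  ring

theorem be_eq (p : Fin n → ℝ) (hp : (SA p).det ≠ 0) {ρ : ℝ} (hρ : 0 ≤ ρ) :
    be p ρ = (SA p).det * bt p ρ := by
  unfold be
  have h1 : ∀ v : ℝ, (SA (Fin.cons v p : Fin (n + 1) → ℝ)).det = (SA p).det * (1 - PK p v v) :=
    det_one p hp
  simp_rw [h1]
  rw [integral_const_mul, k_eq p hρ]
  ring

theorem be_zero (p : Fin n → ℝ) (hp : (SA p).det = 0) (ρ : ℝ) : be p ρ = 0 := by
  unfold be
  have h1 : ∀ v : ℝ, (SA (Fin.cons v p : Fin (n + 1) → ℝ)).det = 0 := det_cons_zero p hp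
  simp_rw [h1]
  rw [hp]
  simp

theorem be_nonneg (p : Fin n → ℝ) {ρ : ℝ} (hρ : 0 ≤ ρ) : 0 ≤ be p ρ := by
  by_cases hp : (SA p).det = 0
  · rw [be_zero p hp]
  · rw [be_eq p hp hρ]
    exact mul_nonneg (SA_det_nonneg p) (bt_nonneg p hp ρ)

theorem be_le (p : Fin n → ℝ) {ρ : ℝ} (hρ : 0 ≤ ρ) : be p ρ ≤ n := by
  by_cases hp : (SA p).det = 0
  · rw [be_zero p hp]
    exact Nat.cast_nonneg n
  · rw [be_eq p hp hρ]
    exact (mul_le_of_le_one_left (bt_nonneg p hp ρ) (SA_det_le p)).trans (bt_le p ρ)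

theorem be_lim (p : Fin n → ℝ) : Tendsto (be p) atTop (𝓝 0) := by
  by_cases hp : (SA p).det = 0
  · refine tendsto_const_nhds.congr fun ρ => (be_zero p hp ρ).symm
  · have h1 := (bt_lim p hp).const_mul (SA p).det
    rw [mul_zero] at h1
    refine h1.congr' ?_
    filter_upwards [eventually_ge_atTop (0 : ℝ)] with ρ hρ
    exact (be_eq p hp hρ).symm

/-- the covariance of the numbers of points in two windows, for the sine process -/
noncomputable def c0 (ρ ρ' : ℝ) : ℝ :=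
  ∫ v in Set.Icc (-ρ) ρ, (1 - ∫ w in Set.Icc (-ρ') ρ', sc (v - w) ^ 2)

theorem c0_inner (v ρ' : ℝ) : 1 - ∫ w in Set.Icc (-ρ') ρ', sc (v - w) ^ 2 =
    ∫ w in (Set.Icc (-ρ') ρ')ᶜ, sc (v - w) ^ 2 := by
  have h := integral_add_compl (measurableSet_Icc (a := -ρ') (b := ρ')) (sc_row_int v)
  rw [sc_row_total] at h
  linarith

theorem c0_inner_nonneg (v ρ' : ℝ) : 0 ≤ 1 - ∫ w in Set.Icc (-ρ') ρ', sc (v - w) ^ 2 := by
  rw [c0_inner]
  exact integral_nonneg fun w => sq_nonneg _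

theorem c0_nonneg (ρ ρ' : ℝ) : 0 ≤ c0 ρ ρ' := integral_nonneg fun v => c0_inner_nonneg v ρ'

/-- the second moment of the numbers of points in two windows -/
noncomputable def Ga (p : Fin n → ℝ) (ρ ρ' : ℝ) : ℝ :=
  (∫ v in Set.Icc (-ρ) ρ, ∫ w in Set.Icc (-ρ') ρ',
    (SA (Fin.cons w (Fin.cons v p : Fin (n + 1) → ℝ) : Fin (n + 2) → ℝ)).det) +
  (n + 1 - 2 * ρ') * (∫ v in Set.Icc (-ρ) ρ, (SA (Fin.cons v p : Fin (n + 1) → ℝ)).det) +
  (n - 2 * ρ) * (∫ w in Set.Icc (-ρ') ρ', (SA (Fin.cons w p : Fin (n + 1) → ℝ)).det) +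
  (n - 2 * ρ) * (n - 2 * ρ') * (SA p).det

theorem Ga_le (p : Fin n → ℝ) {ρ ρ' : ℝ} (hρ : 0 ≤ ρ) (hρ' : 0 ≤ ρ') :
    Ga p ρ ρ' ≤ 3 * n * be p ρ' + 2 * c0 ρ ρ' := by
  by_cases hp : (SA p).det = 0
  · have h1 : ∀ v : ℝ, (SA (Fin.cons v p : Fin (n + 1) → ℝ)).det = 0 := det_cons_zero p hp
    have h2 : ∀ v w : ℝ,
        (SA (Fin.cons w (Fin.cons v p : Fin (n + 1) → ℝ) : Fin (n + 2) → ℝ)).det = 0 :=
      fun v w => det_cons_zero _ (h1 v) w
    unfold Ga
    simp_rw [h1, h2]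
    rw [hp, be_zero p hp]
    have := c0_nonneg ρ ρ'
    simp
    exact this
  · set d : ℝ := (SA p).det with hd
    have hd0 : 0 ≤ d := SA_det_nonneg p
    have hd1 : d ≤ 1 := SA_det_le p
    have hcont2 : Continuous fun x : ℝ × ℝ => (sc (x.1 - x.2) - PK p x.1 x.2) ^ 2 :=
      ((sc_cont.comp (continuous_fst.sub continuous_snd)).sub (PK_cont p)).pow 2
    have hcK : Continuous fun v : ℝ => ∫ w in Set.Icc (-ρ') ρ', (sc (v - w) - PK p v w) ^ 2 :=
      continuous_parametric_integral_of_continuous hcont2 isCompact_Icc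
    have hcontS : Continuous fun x : ℝ × ℝ => sc (x.1 - x.2) ^ 2 :=
      (sc_cont.comp (continuous_fst.sub continuous_snd)).pow 2
    have hcS : Continuous fun v : ℝ => ∫ w in Set.Icc (-ρ') ρ', sc (v - w) ^ 2 :=
      continuous_parametric_integral_of_continuous
        (f := fun v w : ℝ => sc (v - w) ^ 2) hcontS isCompact_Icc
    -- the double integral
    have e1 : ∀ v : ℝ, ∫ w in Set.Icc (-ρ') ρ',
        (SA (Fin.cons w (Fin.cons v p : Fin (n + 1) → ℝ) : Fin (n + 2) → ℝ)).det =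
        d * ((1 - PK p v v) * (2 * ρ' - n + bt p ρ') -
          ∫ w in Set.Icc (-ρ') ρ', (sc (v - w) - PK p v w) ^ 2) := by
      intro v
      have e2 : ∀ w : ℝ, (SA (Fin.cons w (Fin.cons v p : Fin (n + 1) → ℝ) : Fin (n + 2) → ℝ)).det =
          d * ((1 - PK p v v) * (1 - PK p w w) - (sc (v - w) - PK p v w) ^ 2) := by
        intro w
        rw [det_two p hp, PK_symm p w v, sq]
      simp_rw [e2]
      have i1 : IntegrableOn (fun w => (1 - PK p v v) * (1 - PK p w w)) (Set.Icc (-ρ') ρ') :=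
        (continuous_const.mul (continuous_const.sub (PKd_cont p))).continuousOn.integrableOn_compact
          isCompact_Icc
      rw [integral_const_mul, integral_sub i1 (Kp_int p v).integrableOn, integral_const_mul,
        k_eq p hρ']
    have e3 : ∀ v : ℝ, (SA (Fin.cons v p : Fin (n + 1) → ℝ)).det = d * (1 - PK p v v) := det_one p hp
    have e4 : Ga p ρ ρ' = d * (bt p ρ * bt p ρ' + ∫ v in Set.Icc (-ρ) ρ, ((1 - PK p v v) -
        ∫ w in Set.Icc (-ρ') ρ', (sc (v - w) - PK p v w) ^ 2)) := by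
      unfold Ga
      simp_rw [e1, e3]
      have i1 : IntegrableOn (fun v => (1 - PK p v v)) (Set.Icc (-ρ) ρ) :=
        (continuous_const.sub (PKd_cont p)).continuousOn.integrableOn_compact isCompact_Icc
      have i2 : IntegrableOn (fun v => (1 - PK p v v) * (2 * ρ' - n + bt p ρ')) (Set.Icc (-ρ) ρ) :=
        i1.mul_const _
      have i3 : IntegrableOn (fun v => ∫ w in Set.Icc (-ρ') ρ', (sc (v - w) - PK p v w) ^ 2)
          (Set.Icc (-ρ) ρ) := hcK.continuousOn.integrableOn_compact isCompact_Icc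
      rw [integral_const_mul, integral_const_mul, integral_const_mul, integral_sub i2 i3,
        integral_sub i1 i3, integral_mul_const, k_eq p hρ, k_eq p hρ', ← hd]
      ring
    -- the inner difference
    have e5 : ∀ v : ℝ, (1 - PK p v v) - ∫ w in Set.Icc (-ρ') ρ', (sc (v - w) - PK p v w) ^ 2 ≤
        2 * (1 - ∫ w in Set.Icc (-ρ') ρ', sc (v - w) ^ 2) + 2 * bt p ρ' * PK p v v := by
      intro v
      have h1 := integral_add_compl (measurableSet_Icc (a := -ρ') (b := ρ')) (Kp_int p v)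
      rw [Kp_total p hp] at h1
      have h2 : (1 - PK p v v) - ∫ w in Set.Icc (-ρ') ρ', (sc (v - w) - PK p v w) ^ 2 =
          ∫ w in (Set.Icc (-ρ') ρ')ᶜ, (sc (v - w) - PK p v w) ^ 2 := by linarith
      rw [h2, c0_inner, bt_eq p hp]
      have h3 : ∫ w in (Set.Icc (-ρ') ρ')ᶜ, (sc (v - w) - PK p v w) ^ 2 ≤
          ∫ w in (Set.Icc (-ρ') ρ')ᶜ, (2 * sc (v - w) ^ 2 + 2 * PK p v v * PK p w w) := by
        refine integral_mono (Kp_int p v).integrableOn ?_ fun w => ?_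
        · exact (((sc_row_int v).const_mul 2).add ((PKd_int p).const_mul _)).integrableOn
        · have h4 := PK_cs p v w
          show (sc (v - w) - PK p v w) ^ 2 ≤ 2 * sc (v - w) ^ 2 + 2 * PK p v v * PK p w w
          nlinarith [sq_nonneg (sc (v - w) + PK p v w)]
      refine h3.trans (le_of_eq ?_)
      rw [integral_add ((sc_row_int v).const_mul 2).integrableOn
        ((PKd_int p).const_mul _).integrableOn, integral_const_mul, integral_const_mul]
      ring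
    have e6 : ∫ v in Set.Icc (-ρ) ρ, ((1 - PK p v v) -
        ∫ w in Set.Icc (-ρ') ρ', (sc (v - w) - PK p v w) ^ 2) ≤ 2 * c0 ρ ρ' + 2 * n * bt p ρ' := by
      have i1 : IntegrableOn (fun v => (1 - PK p v v)) (Set.Icc (-ρ) ρ) :=
        (continuous_const.sub (PKd_cont p)).continuousOn.integrableOn_compact isCompact_Icc
      have i3 : IntegrableOn (fun v => ∫ w in Set.Icc (-ρ') ρ', (sc (v - w) - PK p v w) ^ 2)
          (Set.Icc (-ρ) ρ) := hcK.continuousOn.integrableOn_compact isCompact_Icc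
      have i4 : IntegrableOn (fun v => 1 - ∫ w in Set.Icc (-ρ') ρ', sc (v - w) ^ 2)
          (Set.Icc (-ρ) ρ) :=
        (continuous_const.sub hcS).continuousOn.integrableOn_compact isCompact_Icc
      have i5 : IntegrableOn (fun v => PK p v v) (Set.Icc (-ρ) ρ) := (PKd_int p).integrableOn
      have h1 : ∫ v in Set.Icc (-ρ) ρ, ((1 - PK p v v) -
          ∫ w in Set.Icc (-ρ') ρ', (sc (v - w) - PK p v w) ^ 2) ≤
          ∫ v in Set.Icc (-ρ) ρ, (2 * (1 - ∫ w in Set.Icc (-ρ') ρ', sc (v - w) ^ 2) +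
            2 * bt p ρ' * PK p v v) :=
        integral_mono (i1.sub i3) ((i4.const_mul 2).add (i5.const_mul (2 * bt p ρ')))
          fun v => e5 v
      refine h1.trans ?_
      rw [integral_add (i4.const_mul 2) (i5.const_mul (2 * bt p ρ')), integral_const_mul,
        integral_const_mul]
      have h2 : ∫ v in Set.Icc (-ρ) ρ, PK p v v ≤ n := by
        have := bt_nonneg p hp ρ
        unfold bt at this
        linarith
      have h3 := mul_le_mul_of_nonneg_left h2 (mul_nonneg zero_le_two (bt_nonneg p hp ρ'))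
      unfold c0
      linarith
    rw [e4, be_eq p hp hρ', ← hd]
    have h1 : bt p ρ * bt p ρ' ≤ n * bt p ρ' :=
      mul_le_mul_of_nonneg_right (bt_le p ρ) (bt_nonneg p hp ρ')
    have h2 : bt p ρ * bt p ρ' + ∫ v in Set.Icc (-ρ) ρ, ((1 - PK p v v) -
        ∫ w in Set.Icc (-ρ') ρ', (sc (v - w) - PK p v w) ^ 2) ≤ 3 * n * bt p ρ' + 2 * c0 ρ ρ' := by
      linarith
    have h3 := mul_le_mul_of_nonneg_left h2 hd0
    have h4 : d * (2 * c0 ρ ρ') ≤ 2 * c0 ρ ρ' :=
      mul_le_of_le_one_left (mul_nonneg zero_le_two (c0_nonneg ρ ρ')) hd1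
    nlinarith

end Q241.KL
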