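import Pool.Agent.Q241.KL.K4

/-! # The covariances of the numbers of points in windows -/

set_option autoImplicit false

namespace Q241.KL

open Filter Topology MeasureTheory

theorem tail_int {c x : ℝ} (h : c < x) :
    IntegrableOn (fun w : ℝ => 1 / (w - c) ^ 2) (Set.Ioi x) ∧
      ∫ w in Set.Ioi x, 1 / (w - c) ^ 2 = 1 / (x - c) := by
  have hd : ∀ w ∈ Set.Ici x, HasDerivAt (fun w : ℝ => -(1 / (w - c))) (1 / (w - c) ^ 2) w := by
    intro w hw
    have hw0 : w - c ≠ 0 := by
      have : x ≤ w := hw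
      intro h0
      linarith
    have h1 : HasDerivAt (fun w : ℝ => w - c) 1 w := (hasDerivAt_id w).sub_const c
    have h2 := (h1.inv hw0).neg
    have e1 : (fun w : ℝ => -(1 / (w - c))) = fun w : ℝ => -(w - c)⁻¹ := by
      funext w
      rw [one_div]
    rw [e1]
    have e2 : 1 / (w - c) ^ 2 = -(-1 / (w - c) ^ 2) := by ring
    rw [e2]
    exact h2
  have hlim : Tendsto (fun w : ℝ => -(1 / (w - c))) atTop (𝓝 0) := by
    have h1 : Tendsto (fun w : ℝ => w - c) atTop atTop := tendsto_atTop_add_const_right _ _ tendsto_id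
    have h2 := (h1.inv_tendsto_atTop).neg
    rw [neg_zero] at h2
    refine h2.congr fun w => ?_
    simp
  have hint := integrableOn_Ioi_deriv_of_nonneg' hd (fun w _ => by positivity) hlim
  refine ⟨hint, ?_⟩
  rw [integral_Ioi_of_hasDerivAt_of_tendsto' hd hint hlim]
  ring

/-- one tail -/
theorem tl_le {v ρ : ℝ} (h : v ≤ ρ) :
    ∫ w in Set.Ioi ρ, sc (v - w) ^ 2 ≤ 1 / (ρ - v + 1 / 2) := by
  obtain ⟨h1, h2⟩ := tail_int (c := v - 1 / 2) (x := ρ) (by linarith)
  have e : ρ - (v - 1 / 2) = ρ - v + 1 / 2 := by ring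
  rw [e] at h2
  rw [← h2]
  refine setIntegral_mono_on (sc_row_int v).integrableOn h1 measurableSet_Ioi fun w hw => ?_
  have hw' : ρ < w := hw
  refine (sc_sq_le (v - w)).trans (le_of_eq ?_)
  rw [abs_of_nonpos (by linarith), div_pow, one_pow]
  congr 2
  ring

theorem inner_le {v ρ : ℝ} (h : |v| ≤ ρ) :
    1 - ∫ w in Set.Icc (-ρ) ρ, sc (v - w) ^ 2 ≤ 1 / (ρ - v + 1 / 2) + 1 / (ρ + v + 1 / 2) := by
  have hv := abs_le.mp h
  have h0 : -ρ ≤ ρ := by linarith [abs_nonneg v]
  rw [c0_inner]
  have e : (Set.Icc (-ρ) ρ)ᶜ = Set.Iio (-ρ) ∪ Set.Ioi ρ := by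
    ext w
    simp only [Set.mem_compl_iff, Set.mem_Icc, not_and_or, not_le, Set.mem_union, Set.mem_Iio,
      Set.mem_Ioi]
  rw [e, setIntegral_union (by
    rw [Set.disjoint_left]
    intro w h1 h2
    have h3 : w < -ρ := h1
    have h4 : ρ < w := h2
    linarith) measurableSet_Ioi (sc_row_int v).integrableOn (sc_row_int v).integrableOn]
  have h1 : ∫ w in Set.Iio (-ρ), sc (v - w) ^ 2 = ∫ w in Set.Ioi ρ, sc (-v - w) ^ 2 := by
    rw [← integral_Iic_eq_integral_Iio, ← integral_comp_neg_Ioi ρ (fun w => sc (v - w) ^ 2)]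
    refine setIntegral_congr_fun measurableSet_Ioi fun w _ => ?_
    show sc (v - -w) ^ 2 = sc (-v - w) ^ 2
    rw [← sc_neg]
    congr 2
    ring
  rw [h1]
  have h2 := tl_le (v := -v) (ρ := ρ) (by linarith)
  have h3 := tl_le (v := v) (ρ := ρ) (by linarith)
  have e2 : ρ - -v + 1 / 2 = ρ + v + 1 / 2 := by ring
  rw [e2] at h2
  linarith

theorem c0_off {ρ ρ' : ℝ} (h0 : 0 < ρ) (h : ρ < ρ') : c0 ρ ρ' ≤ 4 * ρ / (ρ' - ρ) := by
  unfold c0
  have hfin : volume (Set.Icc (-ρ) ρ) < ⊤ := isCompact_Icc.measure_lt_top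
  have h1 : ‖∫ v in Set.Icc (-ρ) ρ, (1 - ∫ w in Set.Icc (-ρ') ρ', sc (v - w) ^ 2)‖ ≤
      (2 / (ρ' - ρ)) * volume.real (Set.Icc (-ρ) ρ) := by
    refine norm_setIntegral_le_of_norm_le_const hfin fun v hv => ?_
    have hv' : |v| ≤ ρ := abs_le.mpr hv
    rw [Real.norm_eq_abs, abs_of_nonneg (c0_inner_nonneg v ρ')]
    refine (inner_le (hv'.trans h.le)).trans ?_
    have h2 : 1 / (ρ' - v + 1 / 2) ≤ 1 / (ρ' - ρ) :=
      one_div_le_one_div_of_le (by linarith) (by linarith [hv.2])
    have h3 : 1 / (ρ' + v + 1 / 2) ≤ 1 / (ρ' - ρ) :=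
      one_div_le_one_div_of_le (by linarith) (by linarith [hv.1])
    have e : 2 / (ρ' - ρ) = 1 / (ρ' - ρ) + 1 / (ρ' - ρ) := by ring
    rw [e]
    linarith
  rw [vol_Icc h0.le] at h1
  refine (le_abs_self _).trans (h1.trans (le_of_eq ?_))
  ring

theorem c0_diag {ρ : ℝ} (h0 : 0 < ρ) : c0 ρ ρ ≤ 2 * Real.log (4 * ρ + 1) := by
  unfold c0
  have hcontS : Continuous fun x : ℝ × ℝ => sc (x.1 - x.2) ^ 2 :=
    (sc_cont.comp (continuous_fst.sub continuous_snd)).pow 2
  have hcS : Continuous fun v : ℝ => ∫ w in Set.Icc (-ρ) ρ, sc (v - w) ^ 2 :=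
    continuous_parametric_integral_of_continuous
      (f := fun v w : ℝ => sc (v - w) ^ 2) hcontS isCompact_Icc
  have i1 : ContinuousOn (fun v : ℝ => 1 / (ρ - v + 1 / 2)) (Set.uIcc (-ρ) ρ) := by
    intro v hv
    rw [Set.uIcc_of_le (by linarith)] at hv
    refine ContinuousAt.continuousWithinAt ?_
    refine ContinuousAt.div continuousAt_const (by fun_prop) ?_
    linarith [hv.2]
  have i2 : ContinuousOn (fun v : ℝ => 1 / (ρ + v + 1 / 2)) (Set.uIcc (-ρ) ρ) := by
    intro v hv
    rw [Set.uIcc_of_le (by linarith)] at hv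
    refine ContinuousAt.continuousWithinAt ?_
    refine ContinuousAt.div continuousAt_const (by fun_prop) ?_
    linarith [hv.1]
  rw [integral_Icc_eq_integral_Ioc, ← intervalIntegral.integral_of_le (by linarith)]
  have h1 : ∫ v in (-ρ)..ρ, (1 - ∫ w in Set.Icc (-ρ) ρ, sc (v - w) ^ 2) ≤
      ∫ v in (-ρ)..ρ, (1 / (ρ - v + 1 / 2) + 1 / (ρ + v + 1 / 2)) := by
    refine intervalIntegral.integral_mono_on (by linarith)
      ((continuous_const.sub hcS).intervalIntegrable _ _)
      (i1.intervalIntegrable.add i2.intervalIntegrable) fun v hv => ?_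
    exact inner_le (abs_le.mpr hv)
  refine h1.trans (le_of_eq ?_)
  rw [intervalIntegral.integral_add i1.intervalIntegrable i2.intervalIntegrable]
  have e1 : ∫ v in (-ρ)..ρ, 1 / (ρ - v + 1 / 2) = Real.log (4 * ρ + 1) := by
    have h2 := intervalIntegral.integral_comp_sub_left (a := -ρ) (b := ρ) (fun x : ℝ => 1 / x) (ρ + 1 / 2)
    have e : ∀ v : ℝ, ρ + 1 / 2 - v = ρ - v + 1 / 2 := fun v => by ring
    simp_rw [e] at h2
    rw [h2, integral_one_div_of_pos (by linarith) (by linarith)]
    congr 1
    field_simp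
    ring
  have e2 : ∫ v in (-ρ)..ρ, 1 / (ρ + v + 1 / 2) = Real.log (4 * ρ + 1) := by
    have h2 := intervalIntegral.integral_comp_add_left (a := -ρ) (b := ρ) (fun x : ℝ => 1 / x) (ρ + 1 / 2)
    have e : ∀ v : ℝ, ρ + 1 / 2 + v = ρ + v + 1 / 2 := fun v => by ring
    simp_rw [e] at h2
    rw [h2, integral_one_div_of_pos (by linarith) (by linarith)]
    congr 1
    field_simp
    ring
  rw [e1, e2]
  ring

/-- the covariance of two windows in any order -/
noncomputable def cs (ρ ρ' : ℝ) : ℝ := c0 (min ρ ρ') (max ρ ρ')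

/-- **choice of windows** for which the average of the numbers of points has small variance -/
theorem windows {ε R : ℝ} (hε : 0 < ε) (hR : 1 ≤ R) :
    ∃ N : ℕ, 0 < N ∧ ∃ r : ℕ → ℝ, (∀ m, R ≤ r m) ∧
      ∑ m ∈ Finset.range N, ∑ m' ∈ Finset.range N, cs (r m) (r m') ≤ ε * N ^ 2 := by
  set η : ℝ := ε / 8 with hη
  have hη0 : 0 < η := by positivity
  set q : ℝ := 1 + η with hq
  have hq1 : 1 < q := by linarith
  have hq0 : 0 < q := by linarith
  set r : ℕ → ℝ := fun m => R * q ^ m with hr
  have hr0 : ∀ m, R ≤ r m := by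
    intro m
    have : 1 ≤ q ^ m := one_le_pow₀ hq1.le
    show R ≤ R * q ^ m
    nlinarith
  -- off-diagonal bound
  set f : ℕ → ℝ := fun d => 4 / (η * d) with hf
  have hf0 : ∀ d, 0 ≤ f d := fun d => by
    show 0 ≤ 4 / (η * d)
    positivity
  have hoff : ∀ m d : ℕ, 0 < d → c0 (r m) (r (m + d)) ≤ f d := by
    intro m d hd
    have hd0 : (0 : ℝ) < d := by exact_mod_cast hd
    have hb : 1 + d * η ≤ q ^ d := by
      have := one_add_mul_le_pow (a := η) (by linarith) d
      exact this
    have hrm : 0 < r m := by linarith [hr0 m]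
    have e : r (m + d) = r m * q ^ d := by
      show R * q ^ (m + d) = R * q ^ m * q ^ d
      rw [pow_add]
      ring
    have hgt : r m < r (m + d) := by
      rw [e]
      nlinarith [mul_pos hd0 hη0]
    refine (c0_off hrm hgt).trans ?_
    show 4 * r m / (r (m + d) - r m) ≤ 4 / (η * d)
    rw [div_le_div_iff₀ (by linarith) (by positivity), e]
    have h2 : r m * (η * d) ≤ r m * (q ^ d - 1) := mul_le_mul_of_nonneg_left (by linarith) hrm.le
    nlinarith
  have hlim : Tendsto f atTop (𝓝 0) := by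
    have h1 : Tendsto (fun d : ℕ => η * (d : ℝ)) atTop atTop :=
      Tendsto.const_mul_atTop hη0 tendsto_natCast_atTop_atTop
    exact Tendsto.div_atTop tendsto_const_nhds h1
  have hces := hlim.cesaro
  have hdiag : Tendsto (fun N : ℕ => 2 * Real.log (5 * R) / N) atTop (𝓝 0) :=
    tendsto_const_div_atTop_nhds_zero_nat _
  obtain ⟨N, h1, h2, h3⟩ := (((tendsto_order.1 hces).2 (ε / 8) (by positivity)).and
    (((tendsto_order.1 hdiag).2 (ε / 4) (by positivity)).and (eventually_gt_atTop 0))).exists
  have hN0 : (0 : ℝ) < N := by exact_mod_cast h3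
  refine ⟨N, h3, r, hr0, ?_⟩
  set SN : ℝ := ∑ d ∈ Finset.range N, f d with hSN
  have hSN1 : SN ≤ ε / 8 * N := by
    have : (N : ℝ)⁻¹ * SN < ε / 8 := h1
    rw [inv_mul_lt_iff₀ hN0] at this
    linarith
  have hlogq : Real.log q ≤ η := by
    have := Real.log_le_sub_one_of_pos hq0
    linarith
  have hrow : ∀ m ∈ Finset.range N, ∑ m' ∈ Finset.range N, cs (r m) (r m') ≤
      2 * (Real.log (5 * R) + N * η) + 2 * SN := by
    intro m hm
    rw [Finset.mem_range] at hm
    rw [← Finset.add_sum_erase _ _ (Finset.mem_range.mpr hm)]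
    have hd : cs (r m) (r m) ≤ 2 * (Real.log (5 * R) + N * η) := by
      unfold cs
      rw [min_self, max_self]
      refine (c0_diag (by linarith [hr0 m])).trans ?_
      have h4 : 4 * r m + 1 ≤ 5 * R * q ^ N := by
        have h5 : q ^ m ≤ q ^ N := pow_le_pow_right₀ hq1.le hm.le
        have h6 : 1 ≤ q ^ N := one_le_pow₀ hq1.le
        show 4 * (R * q ^ m) + 1 ≤ 5 * R * q ^ N
        have h7 : R * q ^ m ≤ R * q ^ N := mul_le_mul_of_nonneg_left h5 (by linarith)
        have h8 : 1 * 1 ≤ R * q ^ N := mul_le_mul hR h6 zero_le_one (by linarith)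
        nlinarith
      have h5 : Real.log (4 * r m + 1) ≤ Real.log (5 * R * q ^ N) :=
        Real.log_le_log (by linarith [hr0 m]) h4
      rw [Real.log_mul (by positivity) (by positivity), Real.log_pow] at h5
      have h6 : N * Real.log q ≤ N * η := mul_le_mul_of_nonneg_left hlogq hN0.le
      linarith
    have ho : ∑ m' ∈ (Finset.range N).erase m, cs (r m) (r m') ≤ 2 * SN := by
      have h4 : ∀ m' ∈ (Finset.range N).erase m, cs (r m) (r m') ≤
          (if m' < m then f (m - m') else 0) + (if m < m' then f (m' - m) else 0) := by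
        intro m' hm'
        rw [Finset.mem_erase, Finset.mem_range] at hm'
        rcases lt_or_gt_of_ne hm'.1 with h5 | h5
        · rw [if_pos h5, if_neg (by omega), add_zero]
          have e : m' + (m - m') = m := by omega
          have h6 := hoff m' (m - m') (by omega)
          rw [e] at h6
          unfold cs
          have h7 : r m' ≤ r m :=
            mul_le_mul_of_nonneg_left (pow_le_pow_right₀ hq1.le h5.le) (by linarith)
          rw [min_eq_right h7, max_eq_left h7]
          exact h6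
        · rw [if_neg (by omega), if_pos h5, zero_add]
          have e : m + (m' - m) = m' := by omega
          have h6 := hoff m (m' - m) (by omega)
          rw [e] at h6
          unfold cs
          have h7 : r m ≤ r m' :=
            mul_le_mul_of_nonneg_left (pow_le_pow_right₀ hq1.le h5.le) (by linarith)
          rw [min_eq_left h7, max_eq_right h7]
          exact h6
      refine (Finset.sum_le_sum h4).trans ?_
      rw [Finset.sum_add_distrib]
      have h5 : ∑ m' ∈ (Finset.range N).erase m, (if m' < m then f (m - m') else 0) ≤ SN := by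
        rw [← Finset.sum_filter]
        have h6 : ∑ m' ∈ ((Finset.range N).erase m).filter (fun m' => m' < m), f (m - m') =
            ∑ d ∈ (((Finset.range N).erase m).filter (fun m' => m' < m)).image (fun m' => m - m'),
              f d := by
          rw [Finset.sum_image]
          intro x hx y hy hxy
          rw [Finset.mem_coe, Finset.mem_filter] at hx hy
          dsimp only at hxy
          omega
        rw [h6]
        refine Finset.sum_le_sum_of_subset_of_nonneg ?_ fun d _ _ => hf0 d
        intro d hd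
        rw [Finset.mem_image] at hd
        obtain ⟨m', hm', rfl⟩ := hd
        rw [Finset.mem_filter, Finset.mem_erase, Finset.mem_range] at hm'
        rw [Finset.mem_range]
        omega
      have h7 : ∑ m' ∈ (Finset.range N).erase m, (if m < m' then f (m' - m) else 0) ≤ SN := by
        rw [← Finset.sum_filter]
        have h6 : ∑ m' ∈ ((Finset.range N).erase m).filter (fun m' => m < m'), f (m' - m) =
            ∑ d ∈ (((Finset.range N).erase m).filter (fun m' => m < m')).image (fun m' => m' - m),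
              f d := by
          rw [Finset.sum_image]
          intro x hx y hy hxy
          rw [Finset.mem_coe, Finset.mem_filter] at hx hy
          dsimp only at hxy
          omega
        rw [h6]
        refine Finset.sum_le_sum_of_subset_of_nonneg ?_ fun d _ _ => hf0 d
        intro d hd
        rw [Finset.mem_image] at hd
        obtain ⟨m', hm', rfl⟩ := hd
        rw [Finset.mem_filter, Finset.mem_erase, Finset.mem_range] at hm'
        rw [Finset.mem_range]
        omega
      linarith
    linarith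
  refine (Finset.sum_le_sum hrow).trans ?_
  rw [Finset.sum_const, Finset.card_range, nsmul_eq_mul]
  have h4 : 2 * Real.log (5 * R) ≤ ε / 4 * N := by
    have : 2 * Real.log (5 * R) / N < ε / 4 := h2
    rw [div_lt_iff₀ hN0] at this
    exact this.le
  have h5 : 2 * (Real.log (5 * R) + N * η) + 2 * SN ≤ ε * N := by
    have : N * η = ε / 8 * N := by rw [hη]; ring
    rw [mul_add, this]
    have h6 : 0 < ε * N := by positivity
    nlinarith
  calc (N : ℝ) * (2 * (Real.log (5 * R) + N * η) + 2 * SN) ≤ N * (ε * N) :=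
        mul_le_mul_of_nonneg_left h5 hN0.le
    _ = ε * N ^ 2 := by ring

end Q241.KL
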