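import Pool.Agent.Q241.KL.K5

/-! # Screening for boxes -/

set_option autoImplicit false

namespace Q241.KL

open Filter Topology MeasureTheory

/-- Fubini for the first coordinate, inner -/
theorem fub2 {r : ℕ} (a b : Fin r → ℝ) (c d : ℝ) {f : (Fin (r + 1) → ℝ) → ℝ} (hf : Continuous f) :
    ∫ w in Set.Icc (Fin.cons c a : Fin (r + 1) → ℝ) (Fin.cons d b), f w =
      ∫ u in Set.Icc a b, ∫ v in Set.Icc c d, f (Fin.cons v u) := by
  set e : ℝ × (Fin r → ℝ) ≃ᵐ (Fin (r + 1) → ℝ) :=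
    (MeasurableEquiv.piFinSuccAbove (fun _ => ℝ) 0).symm with he
  have hem : MeasurePreserving e :=
    (volume_preserving_piFinSuccAbove (fun _ : Fin (r + 1) => ℝ) 0).symm _
  have hev : ∀ p, e p = Fin.cons p.1 p.2 := by
    intro p
    rw [he, MeasurableEquiv.piFinSuccAbove_symm_apply]
    exact Fin.insertNth_zero' p.1 p.2
  have hpre : e ⁻¹' (Set.Icc (Fin.cons c a : Fin (r + 1) → ℝ) (Fin.cons d b)) =
      Set.Icc c d ×ˢ Set.Icc a b := by
    ext p
    rw [Set.mem_preimage, hev, Set.mem_prod, Set.mem_Icc, Set.mem_Icc, Set.mem_Icc]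
    simp only [Pi.le_def, Fin.forall_fin_succ, Fin.cons_zero, Fin.cons_succ]
    tauto
  rw [← hem.setIntegral_preimage_emb e.measurableEmbedding f, hpre]
  have hfe : ∀ p : ℝ × (Fin r → ℝ), f (e p) = f (Fin.cons p.1 p.2) := fun p => by rw [hev]
  simp_rw [hfe]
  have hcont : Continuous fun p : (Fin r → ℝ) × ℝ => f (Fin.cons p.2 p.1 : Fin (r + 1) → ℝ) := by
    refine hf.comp (continuous_pi fun i => ?_)
    refine Fin.cases ?_ (fun i => ?_) i
    · simp only [Fin.cons_zero]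
      exact continuous_snd
    · simp only [Fin.cons_succ]
      exact (continuous_apply i).comp continuous_fst
  rw [Measure.volume_eq_prod, ← setIntegral_prod_swap]
  have h2 := setIntegral_prod (μ := (volume : Measure (Fin r → ℝ))) (ν := (volume : Measure ℝ))
    (fun p : (Fin r → ℝ) × ℝ => f (Fin.cons p.2 p.1 : Fin (r + 1) → ℝ)) (s := Set.Icc a b)
    (t := Set.Icc c d) (hcont.continuousOn.integrableOn_compact (isCompact_Icc.prod isCompact_Icc))
  exact h2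

theorem cons_cont {r : ℕ} : Continuous fun p : (Fin r → ℝ) × ℝ => (Fin.cons p.2 p.1 : Fin (r + 1) → ℝ) := by
  refine continuous_pi fun i => ?_
  refine Fin.cases ?_ (fun i => ?_) i
  · simp only [Fin.cons_zero]
    exact continuous_snd
  · simp only [Fin.cons_succ]
    exact (continuous_apply i).comp continuous_fst

/-- one more coordinate -/
theorem SI_one_more (r : ℕ) (a b : Fin r → ℝ) (c d : ℝ) :
    SI (r + 1) (Fin.cons c a) (Fin.cons d b) = ∫ u in Set.Icc a b, ∫ v in Set.Icc c d,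
      (SA (Fin.cons v (Fin.snoc u 0 : Fin (r + 1) → ℝ) : Fin (r + 2) → ℝ)).det := by
  unfold SI
  rw [fub2 a b c d (SA_cont snoc_cont)]
  simp only [Fin.cons_snoc_eq_snoc_cons]

/-- two more coordinates -/
theorem SI_two_more (r : ℕ) (a b : Fin r → ℝ) (c d c' d' : ℝ) :
    SI (r + 2) (Fin.cons c' (Fin.cons c a : Fin (r + 1) → ℝ)) (Fin.cons d' (Fin.cons d b : Fin (r + 1) → ℝ)) =
      ∫ u in Set.Icc a b, ∫ v in Set.Icc c d, ∫ w in Set.Icc c' d',
      (SA (Fin.cons w (Fin.cons v (Fin.snoc u 0 : Fin (r + 1) → ℝ) : Fin (r + 2) → ℝ) :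
        Fin (r + 3) → ℝ)).det := by
  rw [SI_one_more (r + 1)]
  have hc : Continuous fun u : Fin (r + 1) → ℝ => ∫ w in Set.Icc c' d',
      (SA (Fin.cons w (Fin.snoc u 0 : Fin (r + 2) → ℝ) : Fin (r + 3) → ℝ)).det := by
    refine continuous_parametric_integral_of_continuous
      (f := fun (u : Fin (r + 1) → ℝ) (w : ℝ) =>
        (SA (Fin.cons w (Fin.snoc u 0 : Fin (r + 2) → ℝ) : Fin (r + 3) → ℝ)).det) ?_ isCompact_Icc
    exact SA_cont (cons_cont.comp ((snoc_cont.comp continuous_fst).prodMk continuous_snd))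
  rw [fub2 a b c d hc]
  simp only [Fin.cons_snoc_eq_snoc_cons]

/-- the screening defect of a box -/
noncomputable def SB (r : ℕ) (a b : Fin r → ℝ) (ρ : ℝ) : ℝ :=
  SI (r + 1) (Fin.cons (-ρ) a) (Fin.cons ρ b) + (((r + 1 : ℕ) : ℝ) - 2 * ρ) * SI r a b

theorem inner_cont (r : ℕ) (ρ : ℝ) : Continuous fun u : Fin r → ℝ => ∫ v in Set.Icc (-ρ) ρ,
    (SA (Fin.cons v (Fin.snoc u 0 : Fin (r + 1) → ℝ) : Fin (r + 2) → ℝ)).det := by
  refine continuous_parametric_integral_of_continuous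
    (f := fun (u : Fin r → ℝ) (v : ℝ) =>
      (SA (Fin.cons v (Fin.snoc u 0 : Fin (r + 1) → ℝ) : Fin (r + 2) → ℝ)).det) ?_ isCompact_Icc
  exact SA_cont (cons_cont.comp ((snoc_cont.comp continuous_fst).prodMk continuous_snd))

theorem SB_eq (r : ℕ) (a b : Fin r → ℝ) (ρ : ℝ) :
    SB r a b ρ = ∫ u in Set.Icc a b, be (Fin.snoc u 0 : Fin (r + 1) → ℝ) ρ := by
  unfold SB be
  rw [SI_one_more]
  have i1 : IntegrableOn (fun u : Fin r → ℝ => (((r + 1 : ℕ) : ℝ) - 2 * ρ) *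
      (SA (Fin.snoc u 0 : Fin (r + 1) → ℝ)).det) (Set.Icc a b) :=
    (continuous_const.mul (SA_cont snoc_cont)).continuousOn.integrableOn_compact isCompact_Icc
  rw [integral_add i1 ((inner_cont r ρ).continuousOn.integrableOn_compact isCompact_Icc),
    integral_const_mul]
  unfold SI
  ring

theorem SB_nonneg (r : ℕ) (a b : Fin r → ℝ) {ρ : ℝ} (hρ : 0 ≤ ρ) : 0 ≤ SB r a b ρ := by
  rw [SB_eq]
  exact integral_nonneg fun u => be_nonneg _ hρ

theorem be_cont (r : ℕ) (ρ : ℝ) :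
    Continuous fun u : Fin r → ℝ => be (Fin.snoc u 0 : Fin (r + 1) → ℝ) ρ :=
  (continuous_const.mul (SA_cont snoc_cont)).add (inner_cont r ρ)

/-- **perfect screening** -/
theorem SB_lim (r : ℕ) (a b : Fin r → ℝ) : Tendsto (SB r a b) atTop (𝓝 0) := by
  have h0 : ∫ _u in Set.Icc a b, (0 : ℝ) = 0 := by simp
  rw [← h0]
  have e : SB r a b = fun ρ => ∫ u in Set.Icc a b, be (Fin.snoc u 0 : Fin (r + 1) → ℝ) ρ :=
    funext fun ρ => SB_eq r a b ρ
  rw [e]
  refine tendsto_integral_filter_of_dominated_convergence (fun _ => ((r + 1 : ℕ) : ℝ)) ?_ ?_ ?_ ?_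
  · exact Eventually.of_forall fun ρ => (be_cont r ρ).aestronglyMeasurable
  · filter_upwards [eventually_ge_atTop (0 : ℝ)] with ρ hρ
    refine Eventually.of_forall fun u => ?_
    rw [Real.norm_eq_abs, abs_of_nonneg (be_nonneg _ hρ)]
    exact be_le _ hρ
  · exact integrableOn_const isCompact_Icc.measure_ne_top
  · exact Eventually.of_forall fun u => be_lim _

/-- the second moment for two windows -/
noncomputable def SV (r : ℕ) (a b : Fin r → ℝ) (ρ ρ' : ℝ) : ℝ :=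
  SI (r + 2) (Fin.cons (-ρ') (Fin.cons (-ρ) a : Fin (r + 1) → ℝ))
    (Fin.cons ρ' (Fin.cons ρ b : Fin (r + 1) → ℝ)) +
  (((r + 1 : ℕ) : ℝ) + 1 - 2 * ρ') * SI (r + 1) (Fin.cons (-ρ) a) (Fin.cons ρ b) +
  (((r + 1 : ℕ) : ℝ) - 2 * ρ) * SI (r + 1) (Fin.cons (-ρ') a) (Fin.cons ρ' b) +
  (((r + 1 : ℕ) : ℝ) - 2 * ρ) * (((r + 1 : ℕ) : ℝ) - 2 * ρ') * SI r a b

theorem int4 {α : Type*} [MeasurableSpace α] {μ : Measure α} {f g h k : α → ℝ}
    (hf : Integrable f μ) (hg : Integrable g μ) (hh : Integrable h μ) (hk : Integrable k μ) :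
    ∫ x, (f x + g x + h x + k x) ∂μ = ∫ x, f x ∂μ + ∫ x, g x ∂μ + ∫ x, h x ∂μ + ∫ x, k x ∂μ := by
  have e1 : ∫ x, (f x + g x) ∂μ = ∫ x, f x ∂μ + ∫ x, g x ∂μ := integral_add hf hg
  have e2 : ∫ x, (f x + g x + h x) ∂μ = ∫ x, (f x + g x) ∂μ + ∫ x, h x ∂μ :=
    integral_add (hf.add hg) hh
  have e3 : ∫ x, (f x + g x + h x + k x) ∂μ = ∫ x, (f x + g x + h x) ∂μ + ∫ x, k x ∂μ :=
    integral_add ((hf.add hg).add hh) hk
  rw [e3, e2, e1]

theorem SV_eq (r : ℕ) (a b : Fin r → ℝ) (ρ ρ' : ℝ) :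
    SV r a b ρ ρ' = ∫ u in Set.Icc a b, Ga (Fin.snoc u 0 : Fin (r + 1) → ℝ) ρ ρ' := by
  unfold SV Ga
  rw [SI_two_more, SI_one_more, SI_one_more]
  have hc1 : Continuous fun u : Fin r → ℝ => ∫ v in Set.Icc (-ρ) ρ, ∫ w in Set.Icc (-ρ') ρ',
      (SA (Fin.cons w (Fin.cons v (Fin.snoc u 0 : Fin (r + 1) → ℝ) : Fin (r + 2) → ℝ) :
        Fin (r + 3) → ℝ)).det := by
    refine continuous_parametric_integral_of_continuous
      (f := fun (u : Fin r → ℝ) (v : ℝ) => ∫ w in Set.Icc (-ρ') ρ',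
        (SA (Fin.cons w (Fin.cons v (Fin.snoc u 0 : Fin (r + 1) → ℝ) : Fin (r + 2) → ℝ) :
        Fin (r + 3) → ℝ)).det) ?_ isCompact_Icc
    refine continuous_parametric_integral_of_continuous
      (f := fun (x : (Fin r → ℝ) × ℝ) (w : ℝ) =>
        (SA (Fin.cons w (Fin.cons x.2 (Fin.snoc x.1 0 : Fin (r + 1) → ℝ) : Fin (r + 2) → ℝ) :
        Fin (r + 3) → ℝ)).det) ?_ isCompact_Icc
    exact SA_cont (cons_cont.comp ((cons_cont.comp (((snoc_cont.comp continuous_fst).prodMk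
      continuous_snd).comp continuous_fst)).prodMk continuous_snd))
  have i1 := hc1.continuousOn.integrableOn_compact (μ := volume) (isCompact_Icc (a := a) (b := b))
  have i2 := ((inner_cont r ρ).continuousOn.integrableOn_compact (μ := volume)
    (isCompact_Icc (a := a) (b := b))).const_mul (((r + 1 : ℕ) : ℝ) + 1 - 2 * ρ')
  have i3 := ((inner_cont r ρ').continuousOn.integrableOn_compact (μ := volume)
    (isCompact_Icc (a := a) (b := b))).const_mul (((r + 1 : ℕ) : ℝ) - 2 * ρ)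
  have i4 : IntegrableOn (fun u : Fin r → ℝ => (((r + 1 : ℕ) : ℝ) - 2 * ρ) *
      (((r + 1 : ℕ) : ℝ) - 2 * ρ') * (SA (Fin.snoc u 0 : Fin (r + 1) → ℝ)).det) (Set.Icc a b) :=
    (continuous_const.mul (SA_cont snoc_cont)).continuousOn.integrableOn_compact isCompact_Icc
  have h4 := int4 i1 i2 i3 i4
  rw [integral_const_mul, integral_const_mul, integral_const_mul] at h4
  exact h4.symm

theorem SV_le (r : ℕ) (a b : Fin r → ℝ) {ρ ρ' : ℝ} (hρ : 0 ≤ ρ) (hρ' : 0 ≤ ρ') :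
    SV r a b ρ ρ' ≤ 3 * ((r + 1 : ℕ) : ℝ) * SB r a b ρ' +
      2 * volume.real (Set.Icc a b) * c0 ρ ρ' := by
  rw [SV_eq, SB_eq]
  have hfin : volume (Set.Icc a b) ≠ ⊤ := isCompact_Icc.measure_ne_top
  have i0 : IntegrableOn (fun _ : Fin r → ℝ => 2 * c0 ρ ρ') (Set.Icc a b) := integrableOn_const hfin
  have i1 : IntegrableOn (fun u : Fin r → ℝ => 3 * ((r + 1 : ℕ) : ℝ) *
      be (Fin.snoc u 0 : Fin (r + 1) → ℝ) ρ') (Set.Icc a b) :=
    (continuous_const.mul (be_cont r ρ')).continuousOn.integrableOn_compact isCompact_Icc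
  have h1 : ∫ u in Set.Icc a b, Ga (Fin.snoc u 0 : Fin (r + 1) → ℝ) ρ ρ' ≤
      ∫ u in Set.Icc a b, (3 * ((r + 1 : ℕ) : ℝ) * be (Fin.snoc u 0 : Fin (r + 1) → ℝ) ρ' +
        2 * c0 ρ ρ') := by
    by_cases hi : IntegrableOn (fun u : Fin r → ℝ => Ga (Fin.snoc u 0 : Fin (r + 1) → ℝ) ρ ρ')
      (Set.Icc a b)
    · exact integral_mono hi (i1.add i0) fun u => Ga_le _ hρ hρ'
    · rw [integral_undef hi]
      refine integral_nonneg fun u => ?_
      have h1 := be_nonneg (Fin.snoc u 0 : Fin (r + 1) → ℝ) hρ'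
      have h2 := c0_nonneg ρ ρ'
      show 0 ≤ 3 * ((r + 1 : ℕ) : ℝ) * be (Fin.snoc u 0 : Fin (r + 1) → ℝ) ρ' + 2 * c0 ρ ρ'
      positivity
  refine h1.trans (le_of_eq ?_)
  rw [integral_add i1 i0, integral_const_mul, setIntegral_const, smul_eq_mul]
  ring

/-- additivity in the first coordinate -/
theorem SI_split (r : ℕ) (a b : Fin r → ℝ) {c d e : ℝ} (hcd : c ≤ d) (hde : d ≤ e) :
    SI (r + 1) (Fin.cons c a) (Fin.cons e b) =
      SI (r + 1) (Fin.cons c a) (Fin.cons d b) + SI (r + 1) (Fin.cons d a) (Fin.cons e b) := by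
  rw [SI_one_more, SI_one_more, SI_one_more]
  have hc : ∀ c d : ℝ, Continuous fun u : Fin r → ℝ => ∫ v in Set.Icc c d,
    (SA (Fin.cons v (Fin.snoc u 0 : Fin (r + 1) → ℝ) : Fin (r + 2) → ℝ)).det := by
    intro c d
    refine continuous_parametric_integral_of_continuous
      (f := fun (u : Fin r → ℝ) (v : ℝ) =>
        (SA (Fin.cons v (Fin.snoc u 0 : Fin (r + 1) → ℝ) : Fin (r + 2) → ℝ)).det) ?_ isCompact_Icc
    exact SA_cont (cons_cont.comp ((snoc_cont.comp continuous_fst).prodMk continuous_snd))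
  rw [← integral_add ((hc c d).continuousOn.integrableOn_compact isCompact_Icc)
    ((hc d e).continuousOn.integrableOn_compact isCompact_Icc)]
  refine setIntegral_congr_fun measurableSet_Icc fun u _ => ?_
  have hv : Continuous fun v : ℝ =>
      (SA (Fin.cons v (Fin.snoc u 0 : Fin (r + 1) → ℝ) : Fin (r + 2) → ℝ)).det :=
    SA_cont (cons_cont.comp (continuous_const.prodMk continuous_id))
  rw [integral_Icc_eq_integral_Ioc, integral_Icc_eq_integral_Ioc, integral_Icc_eq_integral_Ioc,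
    ← intervalIntegral.integral_of_le hcd, ← intervalIntegral.integral_of_le hde,
    ← intervalIntegral.integral_of_le (hcd.trans hde),
    intervalIntegral.integral_add_adjacent_intervals (hv.intervalIntegrable _ _)
      (hv.intervalIntegrable _ _)]

end Q241.KL
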