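import Pool.Agent.Q241.KL.K6

/-! # The upper half implies the conjecture, at every level -/

set_option autoImplicit false

namespace Q241.KL

open Finset Filter Topology

variable {ι : Type*} [DecidableEq ι]

/-- the deviation of the averaged number of points -/
noncomputable def psi (J : Finset ι) (x : ι → ℝ) (N : ℕ) (r : ℕ → ℝ) (j : ι) : ℝ :=
  (∑ m ∈ range N, ((w J x (r m) j : ℝ) + 1 - 2 * r m)) / N

/-- the product moment of two windows -/
theorem prod_two (J : Finset ι) (x : ι → ℝ) (t : ℕ) (a b : Fin t → ℝ) {ρ ρ' : ℝ}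
    (ha : ∀ l, -ρ ≤ a l) (hb : ∀ l, b l ≤ ρ) (_hρ0 : 0 ≤ ρ) (hρ : ρ ≤ ρ') :
    ∑ j ∈ J, ((E J x j t a b).card : ℝ) *
      (((w J x ρ j : ℝ) + 1 - 2 * ρ) * ((w J x ρ' j : ℝ) + 1 - 2 * ρ')) =
    (cnt J x (t + 2) (Fin.cons (-ρ') (Fin.cons (-ρ) a : Fin (t + 1) → ℝ))
      (Fin.cons ρ' (Fin.cons ρ b : Fin (t + 1) → ℝ)) : ℝ) +
    (((t + 1 : ℕ) : ℝ) + 1 - 2 * ρ') * (cnt J x (t + 1) (Fin.cons (-ρ) a) (Fin.cons ρ b) : ℝ) +
    (((t + 1 : ℕ) : ℝ) - 2 * ρ) * (cnt J x (t + 1) (Fin.cons (-ρ') a) (Fin.cons ρ' b) : ℝ) +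
    (((t + 1 : ℕ) : ℝ) - 2 * ρ) * (((t + 1 : ℕ) : ℝ) - 2 * ρ') * (cnt J x t a b : ℝ) := by
  unfold cnt
  push_cast
  rw [Finset.mul_sum, Finset.mul_sum, Finset.mul_sum, ← Finset.sum_add_distrib,
    ← Finset.sum_add_distrib, ← Finset.sum_add_distrib]
  refine Finset.sum_congr rfl fun j _ => ?_
  have ha' : ∀ l, -ρ' ≤ a l := fun l => by linarith [ha l]
  have hb' : ∀ l, b l ≤ ρ' := fun l => by linarith [hb l]
  have ha2 : ∀ l : Fin (t + 1), -ρ' ≤ (Fin.cons (-ρ) a : Fin (t + 1) → ℝ) l := by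
    intro l
    refine Fin.cases ?_ (fun l => ?_) l
    · simp only [Fin.cons_zero]; linarith
    · simp only [Fin.cons_succ]; exact ha' l
  have hb2 : ∀ l : Fin (t + 1), (Fin.cons ρ b : Fin (t + 1) → ℝ) l ≤ ρ' := by
    intro l
    refine Fin.cases ?_ (fun l => ?_) l
    · simp only [Fin.cons_zero]; linarith
    · simp only [Fin.cons_succ]; exact hb' l
  rw [E_succ J x j (t + 1) _ _ ρ' ha2 hb2, E_succ J x j t a b ρ ha hb, E_succ J x j t a b ρ' ha' hb']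
  rcases Nat.eq_zero_or_pos (E J x j t a b).card with h0 | h0
  · rw [h0]; simp
  · obtain ⟨s, hs⟩ := Finset.card_pos.mp h0
    have hw1 : t ≤ w J x ρ j := le_w ha hb hs
    have hw2 : w J x ρ j ≤ w J x ρ' j := w_mono J x j hρ
    obtain ⟨α, hα⟩ : ∃ α, w J x ρ j = t + α := ⟨w J x ρ j - t, by omega⟩
    obtain ⟨β, hβ⟩ : ∃ β, w J x ρ' j = t + α + β := ⟨w J x ρ' j - (t + α), by omega⟩
    rw [hα, hβ]
    have e1 : t + α - t = α := by omega
    have e2 : t + α + β - t = α + β := by omega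
    rw [e1, e2]
    rcases Nat.eq_zero_or_pos α with h1 | h1
    · subst h1
      push_cast
      simp only [mul_zero, zero_mul]
      ring
    · obtain ⟨α', rfl⟩ : ∃ α', α = α' + 1 := ⟨α - 1, by omega⟩
      have e3 : t + (α' + 1) + β - (t + 1) = α' + β := by omega
      rw [e3]
      push_cast
      ring

variable (F : Fam ι)

theorem n_le_of_full {r : ℕ} (h : F.Full SI r) (a b : Fin r → ℝ) (hab : ∀ l, a l < b l) (c : ℝ) :
    Le (fun T => c * F.n r a b T) (c * SI r a b) := le_of_tendsto' ((h a b hab).const_mul c)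

/-- one pair of windows -/
theorem pair_le {t : ℕ} (h2 : F.Up SI (t + 2)) (h1 : F.Full SI (t + 1)) (h0 : F.Full SI t)
    (a b : Fin t → ℝ) (hab : ∀ l, a l < b l) {ρ ρ' : ℝ}
    (ha : ∀ l, -ρ ≤ a l) (hb : ∀ l, b l ≤ ρ) (hρ0 : 0 < ρ) (hρ : ρ ≤ ρ') :
    Le (fun T => (∑ j ∈ F.J T, ((E (F.J T) (F.x T) j t a b).card : ℝ) *
      (((w (F.J T) (F.x T) ρ j : ℝ) + 1 - 2 * ρ) * ((w (F.J T) (F.x T) ρ' j : ℝ) + 1 - 2 * ρ'))) /
        F.X T) (SV t a b ρ ρ') := by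
  have g2 := h2 (Fin.cons (-ρ') (Fin.cons (-ρ) a : Fin (t + 1) → ℝ))
    (Fin.cons ρ' (Fin.cons ρ b : Fin (t + 1) → ℝ))
    (cons_lt (cons_lt hab hρ0) (by linarith))
  have g1 := n_le_of_full F h1 (Fin.cons (-ρ) a) (Fin.cons ρ b) (cons_lt hab hρ0)
    (((t + 1 : ℕ) : ℝ) + 1 - 2 * ρ')
  have g1' := n_le_of_full F h1 (Fin.cons (-ρ') a) (Fin.cons ρ' b) (cons_lt hab (by linarith))
    (((t + 1 : ℕ) : ℝ) - 2 * ρ)
  have g0 := n_le_of_full F h0 a b hab ((((t + 1 : ℕ) : ℝ) - 2 * ρ) * (((t + 1 : ℕ) : ℝ) - 2 * ρ'))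
  refine (((g2.add g1).add g1').add g0).mono (Eventually.of_forall fun T => ?_) le_rfl
  rw [prod_two _ _ t a b ha hb hρ0.le hρ]
  unfold Fam.n
  apply le_of_eq
  ring

theorem prod_comm' (J : Finset ι) (x : ι → ℝ) (t : ℕ) (a b : Fin t → ℝ) (ρ ρ' : ℝ) :
    ∑ j ∈ J, ((E J x j t a b).card : ℝ) *
      (((w J x ρ j : ℝ) + 1 - 2 * ρ) * ((w J x ρ' j : ℝ) + 1 - 2 * ρ')) =
    ∑ j ∈ J, ((E J x j t a b).card : ℝ) *
      (((w J x (min ρ ρ') j : ℝ) + 1 - 2 * (min ρ ρ')) *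
        ((w J x (max ρ ρ') j : ℝ) + 1 - 2 * (max ρ ρ'))) := by
  rcases le_total ρ ρ' with h | h
  · rw [min_eq_left h, max_eq_right h]
  · rw [min_eq_right h, max_eq_left h]
    refine Finset.sum_congr rfl fun j _ => ?_
    ring

theorem psi_sq (J : Finset ι) (x : ι → ℝ) (C : ι → ℝ) (N : ℕ) (r : ℕ → ℝ) :
    ∑ j ∈ J, C j * psi J x N r j ^ 2 = 1 / (N : ℝ) ^ 2 * ∑ m ∈ range N, ∑ m' ∈ range N, ∑ j ∈ J,
      C j * (((w J x (r m) j : ℝ) + 1 - 2 * r m) * ((w J x (r m') j : ℝ) + 1 - 2 * r m')) := by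
  have e1 : ∑ m ∈ range N, ∑ m' ∈ range N, ∑ j ∈ J,
      C j * (((w J x (r m) j : ℝ) + 1 - 2 * r m) * ((w J x (r m') j : ℝ) + 1 - 2 * r m')) =
      ∑ j ∈ J, C j * (∑ m ∈ range N, ((w J x (r m) j : ℝ) + 1 - 2 * r m)) ^ 2 := by
    have e2 : ∀ m ∈ range N, ∑ m' ∈ range N, ∑ j ∈ J,
        C j * (((w J x (r m) j : ℝ) + 1 - 2 * r m) * ((w J x (r m') j : ℝ) + 1 - 2 * r m')) =
        ∑ j ∈ J, C j * (((w J x (r m) j : ℝ) + 1 - 2 * r m) *
          ∑ m' ∈ range N, ((w J x (r m') j : ℝ) + 1 - 2 * r m')) := by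
      intro m _
      rw [Finset.sum_comm]
      refine Finset.sum_congr rfl fun j _ => ?_
      rw [Finset.mul_sum, Finset.mul_sum]
    rw [Finset.sum_congr rfl e2, Finset.sum_comm]
    refine Finset.sum_congr rfl fun j _ => ?_
    rw [← Finset.mul_sum, ← Finset.sum_mul, sq]
  rw [e1, Finset.mul_sum]
  refine Finset.sum_congr rfl fun j _ => ?_
  unfold psi
  rw [div_pow]
  ring

/-- **the averaged number of points has small weighted variance** -/
theorem psi_small {t : ℕ} (h2 : F.Up SI (t + 2)) (h1 : F.Full SI (t + 1)) (h0 : F.Full SI t)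
    {R : ℝ} (hR : 1 ≤ R) {ε : ℝ} (hε : 0 < ε) (R0 : ℝ) :
    ∃ N : ℕ, 0 < N ∧ ∃ r : ℕ → ℝ, (∀ m, R ≤ r m) ∧ (∀ m, R0 ≤ r m) ∧
      Le (fun T => (∑ j ∈ F.J T, ((E (F.J T) (F.x T) j t (fun _ => -R) (fun _ => R)).card : ℝ) *
        psi (F.J T) (F.x T) N r j ^ 2) / F.X T) ε := by
  set a : Fin t → ℝ := fun _ => -R with ha
  set b : Fin t → ℝ := fun _ => R with hb
  set v : ℝ := MeasureTheory.volume.real (Set.Icc a b) with hv
  have hv0 : 0 ≤ v := MeasureTheory.measureReal_nonneg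
  -- screening
  obtain ⟨R1, hR1⟩ : ∃ R1 : ℝ, ∀ ρ, R1 ≤ ρ → 3 * ((t + 1 : ℕ) : ℝ) * SB t a b ρ ≤ ε / 2 := by
    have h3 := (SB_lim t a b).const_mul (3 * ((t + 1 : ℕ) : ℝ))
    rw [mul_zero] at h3
    obtain ⟨R1, h4⟩ := eventually_atTop.1 ((tendsto_order.1 h3).2 (ε / 2) (by positivity))
    exact ⟨R1, fun ρ hρ => (h4 ρ hρ).le⟩
  obtain ⟨N, hN, r, hr, hsum⟩ := windows (ε := ε / (4 * (v + 1))) (R := max R (max R0 R1))
    (by positivity) (hR.trans (le_max_left _ _))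
  have hrR : ∀ m, R ≤ r m := fun m => (le_max_left _ _).trans (hr m)
  have hrR0 : ∀ m, R0 ≤ r m := fun m => ((le_max_left _ _).trans (le_max_right _ _)).trans (hr m)
  have hrR1 : ∀ m, R1 ≤ r m := fun m => ((le_max_right _ _).trans (le_max_right _ _)).trans (hr m)
  have hr0 : ∀ m, 0 < r m := fun m => by linarith [hrR m]
  refine ⟨N, hN, r, hrR, hrR0, ?_⟩
  have hN0 : (0 : ℝ) < N := by exact_mod_cast hN
  have hpair : ∀ m ∈ range N, ∀ m' ∈ range N, Le (fun T =>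
      (∑ j ∈ F.J T, ((E (F.J T) (F.x T) j t a b).card : ℝ) *
      (((w (F.J T) (F.x T) (r m) j : ℝ) + 1 - 2 * r m) *
        ((w (F.J T) (F.x T) (r m') j : ℝ) + 1 - 2 * r m'))) / F.X T)
      (ε / 2 + 2 * v * cs (r m) (r m')) := by
    intro m _ m' _
    have hmin : R ≤ min (r m) (r m') := le_min (hrR m) (hrR m')
    have hmin0 : 0 < min (r m) (r m') := by linarith
    have hmm : min (r m) (r m') ≤ max (r m) (r m') := min_le_max
    have g := pair_le F h2 h1 h0 a b (fun _ => by show -R < R; linarith)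
      (ρ := min (r m) (r m')) (ρ' := max (r m) (r m'))
      (fun _ => by show -(min (r m) (r m')) ≤ -R; linarith) (fun _ => hmin) hmin0 hmm
    refine g.mono (Eventually.of_forall fun T => ?_) ?_
    · rw [prod_comm']
    · have h4 := SV_le t a b hmin0.le (hmin0.le.trans hmm)
      have h5 := hR1 (max (r m) (r m')) ((hrR1 m).trans (le_max_left _ _))
      unfold cs
      linarith
  have hall := (Le.sum (range N) fun m hm => Le.sum (range N) fun m' hm' => hpair m hm m' hm').const_mul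
    (show 0 ≤ 1 / (N : ℝ) ^ 2 by positivity)
  refine hall.mono (Eventually.of_forall fun T => ?_) ?_
  · apply le_of_eq
    rw [psi_sq]
    simp_rw [Finset.sum_div]
    rw [mul_div_assoc]
    simp_rw [Finset.sum_div]
  · rw [Finset.sum_congr rfl fun m _ => Finset.sum_add_distrib]
    rw [Finset.sum_add_distrib]
    simp_rw [← Finset.mul_sum]
    rw [sum_const, sum_const, card_range, nsmul_eq_mul, nsmul_eq_mul]
    have h6 : 2 * v * ∑ m ∈ range N, ∑ m' ∈ range N, cs (r m) (r m') ≤ ε / 2 * N ^ 2 := by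
      have h7 := mul_le_mul_of_nonneg_left hsum (show 0 ≤ 2 * v by positivity)
      refine h7.trans ?_
      have h8 : 2 * v * (ε / (4 * (v + 1)) * N ^ 2) = (v / (v + 1)) * (ε / 2 * N ^ 2) := by
        field_simp
        ring
      rw [h8]
      apply mul_le_of_le_one_left (by positivity)
      rw [div_le_one (by positivity)]
      linarith
    rw [one_div, inv_mul_le_iff₀ (by positivity)]
    nlinarith

end Q241.KL
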