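import Pool.Agent.Q241.KL.D

/-! # The determinants of the sine kernel -/

set_option autoImplicit false

namespace Q241.KL

open Finset Filter Topology MeasureTheory

/-- the matrix of the sine kernel -/
noncomputable def SA {n : ℕ} (p : Fin n → ℝ) : Matrix (Fin n) (Fin n) ℝ :=
  Matrix.of fun i j => Real.sinc (Real.pi * (p i - p j))

theorem sinc_int (x : ℝ) : Real.sinc x = ∫ t in (0 : ℝ)..1, Real.cos (x * t) := by
  by_cases hx : x = 0
  · subst hx
    simp
  · rw [Real.sinc_of_ne_zero hx, intervalIntegral.integral_comp_mul_left (fun t => Real.cos t) hx]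
    rw [integral_cos]
    simp
    field_simp

theorem SA_psd {n : ℕ} (p : Fin n → ℝ) : (SA p).PosSemidef := by
  refine Matrix.PosSemidef.of_dotProduct_mulVec_nonneg ?_ fun c => ?_
  · ext i j
    simp only [Matrix.conjTranspose_apply, SA, Matrix.of_apply, star_trivial]
    rw [← Real.sinc_neg]
    congr 1
    ring
  · have e : star c ⬝ᵥ (SA p).mulVec c = ∑ i, ∑ j, c i * c j * Real.sinc (Real.pi * (p i - p j)) := by
      simp only [dotProduct, Matrix.mulVec, star_trivial, SA, Matrix.of_apply]
      refine Finset.sum_congr rfl fun i _ => ?_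
      rw [Finset.mul_sum]
      refine Finset.sum_congr rfl fun j _ => ?_
      ring
    rw [e]
    have hI : ∀ i j : Fin n, IntervalIntegrable
        (fun t : ℝ => c i * c j * Real.cos (Real.pi * (p i - p j) * t)) volume 0 1 := fun i j =>
      Continuous.intervalIntegrable (by fun_prop) _ _
    have e2 : ∑ i, ∑ j, c i * c j * Real.sinc (Real.pi * (p i - p j)) =
        ∫ t in (0 : ℝ)..1, ∑ i, ∑ j, c i * c j * Real.cos (Real.pi * (p i - p j) * t) := by
      rw [intervalIntegral.integral_finsetSum]
      · refine Finset.sum_congr rfl fun i _ => ?_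
        rw [intervalIntegral.integral_finsetSum]
        · refine Finset.sum_congr rfl fun j _ => ?_
          rw [intervalIntegral.integral_const_mul, ← sinc_int]
        · intro j _
          exact hI i j
      · intro i _
        apply Continuous.intervalIntegrable
        fun_prop
    rw [e2]
    apply intervalIntegral.integral_nonneg zero_le_one
    intro t _
    have e3 : ∑ i, ∑ j, c i * c j * Real.cos (Real.pi * (p i - p j) * t) =
        (∑ i, c i * Real.cos (Real.pi * p i * t)) ^ 2 + (∑ i, c i * Real.sin (Real.pi * p i * t)) ^ 2 := by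
      rw [sq, sq, Finset.sum_mul_sum, Finset.sum_mul_sum, ← Finset.sum_add_distrib]
      refine Finset.sum_congr rfl fun i _ => ?_
      rw [← Finset.sum_add_distrib]
      refine Finset.sum_congr rfl fun j _ => ?_
      have : Real.pi * (p i - p j) * t = Real.pi * p i * t - Real.pi * p j * t := by ring
      rw [this, Real.cos_sub]
      ring
    rw [e3]
    positivity

theorem SA_det_nonneg {n : ℕ} (p : Fin n → ℝ) : 0 ≤ (SA p).det := (SA_psd p).det_nonneg

/-- Hadamard's inequality by the arithmetic-geometric mean inequality for the eigenvalues -/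
theorem SA_det_le {n : ℕ} (p : Fin n → ℝ) : (SA p).det ≤ 1 := by
  have hS := SA_psd p
  have h1 := hS.isHermitian.det_eq_prod_eigenvalues
  have h2 := hS.isHermitian.trace_eq_sum_eigenvalues
  simp only [RCLike.ofReal_real_eq_id, id_eq] at h1 h2
  have ht : (SA p).trace = n := by
    simp [Matrix.trace, SA]
  rw [h1]
  calc ∏ i, hS.isHermitian.eigenvalues i
      ≤ ∏ i, Real.exp (hS.isHermitian.eigenvalues i - 1) := by
        apply Finset.prod_le_prod
        · intro i _; exact hS.eigenvalues_nonneg i
        · intro i _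
          have := Real.add_one_le_exp (hS.isHermitian.eigenvalues i - 1)
          linarith
    _ = Real.exp (∑ i, (hS.isHermitian.eigenvalues i - 1)) := by
        rw [Real.exp_sum]
    _ = 1 := by
        rw [Finset.sum_sub_distrib, ← h2, ht]
        simp

theorem SA_det_abs {n : ℕ} (p : Fin n → ℝ) : |(SA p).det| ≤ 1 := by
  rw [abs_of_nonneg (SA_det_nonneg p)]
  exact SA_det_le p

theorem SA_cont {n : ℕ} {Y : Type*} [TopologicalSpace Y] {f : Y → Fin n → ℝ} (hf : Continuous f) :
    Continuous fun y => (SA (f y)).det := by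
  refine Continuous.matrix_det ?_
  refine continuous_matrix fun i j => ?_
  unfold SA
  simp only [Matrix.of_apply]
  refine Real.continuous_sinc.comp (continuous_const.mul ?_)
  exact ((continuous_apply i).comp hf).sub ((continuous_apply j).comp hf)

theorem sinc_lim : Tendsto Real.sinc (cocompact ℝ) (𝓝 0) := by
  have h1 : Tendsto (fun x : ℝ => 1 / |x|) (cocompact ℝ) (𝓝 0) := by
    refine Tendsto.div_atTop tendsto_const_nhds ?_
    exact tendsto_norm_cocompact_atTop
  refine squeeze_zero_norm' ?_ h1
  have h2 : ({0} : Set ℝ)ᶜ ∈ cocompact ℝ := isCompact_singleton.compl_mem_cocompact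
  filter_upwards [h2] with x hx
  have hx0 : x ≠ 0 := hx
  rw [Real.sinc_of_ne_zero hx0, Real.norm_eq_abs, abs_div]
  exact div_le_div_of_nonneg_right (Real.abs_sin_le_one x) (abs_nonneg _)

theorem SA_det_lim {n : ℕ} (q : Fin n → ℝ) :
    Tendsto (fun v : ℝ => (SA (Fin.cons v q : Fin (n + 1) → ℝ)).det) (cocompact ℝ)
      (𝓝 (SA q).det) := by
  set B : Matrix (Fin (n + 1)) (Fin (n + 1)) ℝ :=
    Matrix.of (Fin.cons (Fin.cons 1 0) (fun i => Fin.cons 0 (SA q i))) with hBdef
  have hB : B.det = (SA q).det := by
    rw [Matrix.det_succ_row_zero, Fin.sum_univ_succ]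
    have h0 : ∑ i : Fin n, (-1 : ℝ) ^ ((i.succ : Fin (n + 1)) : ℕ) * B 0 i.succ *
        (B.submatrix Fin.succ (Fin.succAbove i.succ)).det = 0 := by
      refine Finset.sum_eq_zero fun i _ => ?_
      have : B 0 i.succ = 0 := by simp [hBdef]
      rw [this]
      ring
    rw [h0, add_zero]
    have h1 : B 0 0 = 1 := by simp [hBdef]
    have h2 : B.submatrix Fin.succ (Fin.succAbove 0) = SA q := by
      ext i j
      simp [hBdef]
    rw [h1, h2]
    simp
  rw [← hB]
  have hlim : ∀ c : ℝ, Tendsto (fun v : ℝ => Real.sinc (Real.pi * (v - c))) (cocompact ℝ) (𝓝 0) := by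
    intro c
    refine sinc_lim.comp ?_
    have h1 : Tendsto (fun v : ℝ => v - c) (cocompact ℝ) (cocompact ℝ) :=
      (Homeomorph.subRight c).isClosedEmbedding.tendsto_cocompact
    have h2 : Tendsto (fun v : ℝ => Real.pi * v) (cocompact ℝ) (cocompact ℝ) :=
      (Homeomorph.mulLeft₀ Real.pi Real.pi_ne_zero).isClosedEmbedding.tendsto_cocompact
    exact h2.comp h1
  have h : Tendsto (fun v : ℝ => SA (Fin.cons v q : Fin (n + 1) → ℝ)) (cocompact ℝ) (𝓝 B) := by
    refine tendsto_pi_nhds.mpr fun i => tendsto_pi_nhds.mpr fun j => ?_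
    refine Fin.cases ?_ (fun i => ?_) i
    · refine Fin.cases ?_ (fun j => ?_) j
      · have e : B 0 0 = 1 := by simp [hBdef]
        rw [e]
        have : (fun v : ℝ => SA (Fin.cons v q : Fin (n + 1) → ℝ) 0 0) = fun _ => 1 := by
          funext v
          simp [SA]
        rw [this]
        exact tendsto_const_nhds
      · have e : B 0 j.succ = 0 := by simp [hBdef]
        rw [e]
        have : (fun v : ℝ => SA (Fin.cons v q : Fin (n + 1) → ℝ) 0 j.succ) =
            fun v => Real.sinc (Real.pi * (v - q j)) := by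
          funext v
          simp [SA]
        rw [this]
        exact hlim _
    · refine Fin.cases ?_ (fun j => ?_) j
      · have e : B i.succ 0 = 0 := by simp [hBdef]
        rw [e]
        have : (fun v : ℝ => SA (Fin.cons v q : Fin (n + 1) → ℝ) i.succ 0) =
            fun v => Real.sinc (Real.pi * (v - q i)) := by
          funext v
          simp only [SA, Matrix.of_apply, Fin.cons_succ, Fin.cons_zero]
          rw [← Real.sinc_neg]
          congr 1
          ring
        rw [this]
        exact hlim _
      · have e : B i.succ j.succ = SA q i j := by simp [hBdef]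
        rw [e]
        have : (fun v : ℝ => SA (Fin.cons v q : Fin (n + 1) → ℝ) i.succ j.succ) =
            fun _ => SA q i j := by
          funext v
          simp [SA]
        rw [this]
        exact tendsto_const_nhds
  exact ((continuous_id.matrix_det).tendsto B).comp h

/-- the intensities of the sine process -/
noncomputable def SI (r : ℕ) (a b : Fin r → ℝ) : ℝ :=
  ∫ u in Set.Icc a b, (SA (Fin.snoc u 0 : Fin (r + 1) → ℝ)).det

theorem snoc_cont {r : ℕ} : Continuous fun u : Fin r → ℝ => (Fin.snoc u 0 : Fin (r + 1) → ℝ) := by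
  refine continuous_pi fun i => ?_
  refine Fin.lastCases ?_ (fun i => ?_) i
  · simp only [Fin.snoc_last]
    exact continuous_const
  · simp only [Fin.snoc_castSucc]
    exact continuous_apply i

theorem SI_cube (r : ℕ) {R : ℝ} (hR : 0 < R) : SI r (fun _ => -R) (fun _ => R) ≤ (2 * R) ^ r := by
  unfold SI
  have h1 : ‖∫ u in Set.Icc (fun _ => -R) (fun _ => R), (SA (Fin.snoc u 0 : Fin (r + 1) → ℝ)).det‖ ≤
      1 * (volume.real (Set.Icc (fun _ : Fin r => -R) (fun _ => R))) := by
    refine norm_setIntegral_le_of_norm_le_const ?_ fun u _ => SA_det_abs _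
    exact isCompact_Icc.measure_lt_top
  have h2 : volume.real (Set.Icc (fun _ : Fin r => -R) (fun _ => R)) = (2 * R) ^ r := by
    rw [Measure.real, Real.volume_Icc_pi, Finset.prod_const, ENNReal.toReal_pow,
      ENNReal.toReal_ofReal (by linarith), Finset.card_univ, Fintype.card_fin]
    congr 1
    ring
  rw [h2, one_mul] at h1
  exact (le_abs_self _).trans h1

/-- Fubini for the first coordinate -/
theorem fub {r : ℕ} (a b : Fin r → ℝ) (L : ℝ) {f : (Fin (r + 1) → ℝ) → ℝ} (hf : Continuous f) :
    ∫ w in Set.Icc (Fin.cons (-L) a : Fin (r + 1) → ℝ) (Fin.cons L b), f w =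
      ∫ v in Set.Icc (-L) L, ∫ u in Set.Icc a b, f (Fin.cons v u) := by
  set e : ℝ × (Fin r → ℝ) ≃ᵐ (Fin (r + 1) → ℝ) :=
    (MeasurableEquiv.piFinSuccAbove (fun _ => ℝ) 0).symm with he
  have hem : MeasurePreserving e :=
    (volume_preserving_piFinSuccAbove (fun _ : Fin (r + 1) => ℝ) 0).symm _
  have hev : ∀ p, e p = Fin.cons p.1 p.2 := by
    intro p
    rw [he, MeasurableEquiv.piFinSuccAbove_symm_apply]
    exact Fin.insertNth_zero' p.1 p.2
  have hpre : e ⁻¹' (Set.Icc (Fin.cons (-L) a : Fin (r + 1) → ℝ) (Fin.cons L b)) =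
      Set.Icc (-L) L ×ˢ Set.Icc a b := by
    ext p
    rw [Set.mem_preimage, hev, Set.mem_prod, Set.mem_Icc, Set.mem_Icc, Set.mem_Icc]
    simp only [Pi.le_def, Fin.forall_fin_succ, Fin.cons_zero, Fin.cons_succ]
    tauto
  rw [← hem.setIntegral_preimage_emb e.measurableEmbedding f, hpre]
  have hfe : ∀ p : ℝ × (Fin r → ℝ), f (e p) = f (Fin.cons p.1 p.2) := fun p => by rw [hev]
  simp_rw [hfe]
  have hcont : Continuous fun p : ℝ × (Fin r → ℝ) => f (Fin.cons p.1 p.2 : Fin (r + 1) → ℝ) := by
    refine hf.comp (continuous_pi fun i => ?_)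
    refine Fin.cases ?_ (fun i => ?_) i
    · simp only [Fin.cons_zero]
      exact continuous_fst
    · simp only [Fin.cons_succ]
      exact (continuous_apply i).comp continuous_snd
  rw [Measure.volume_eq_prod, setIntegral_prod]
  exact (hcont.continuousOn.integrableOn_compact (isCompact_Icc.prod isCompact_Icc))

theorem SI_lim (r : ℕ) (a b : Fin r → ℝ) : Tendsto
    (fun L : ℝ => SI (r + 1) (Fin.cons (-L) a) (Fin.cons L b) / (2 * L)) atTop (𝓝 (SI r a b)) := by
  set G : ℝ → ℝ := fun v => ∫ u in Set.Icc a b, (SA (Fin.cons v (Fin.snoc u 0 : Fin (r + 1) → ℝ) :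
    Fin (r + 2) → ℝ)).det with hG
  have hcc : Continuous fun p : ℝ × (Fin r → ℝ) =>
      (SA (Fin.cons p.1 (Fin.snoc p.2 0 : Fin (r + 1) → ℝ) : Fin (r + 2) → ℝ)).det := by
    refine SA_cont (continuous_pi fun i => ?_)
    refine Fin.cases ?_ (fun i => ?_) i
    · simp only [Fin.cons_zero]
      exact continuous_fst
    · simp only [Fin.cons_succ]
      exact (continuous_apply i).comp (snoc_cont.comp continuous_snd)
  have hGc : Continuous G := continuous_parametric_integral_of_continuous hcc isCompact_Icc
  have hfin : volume (Set.Icc a b) < ⊤ := isCompact_Icc.measure_lt_top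
  have hGb : ∀ v, |G v| ≤ volume.real (Set.Icc a b) := by
    intro v
    have h1 := norm_setIntegral_le_of_norm_le_const (μ := volume) (s := Set.Icc a b) (C := 1)
      (f := fun u => (SA (Fin.cons v (Fin.snoc u 0 : Fin (r + 1) → ℝ) : Fin (r + 2) → ℝ)).det)
      hfin fun u _ => SA_det_abs _
    rw [one_mul] at h1
    exact h1
  have hco : ∀ t : ℝ, t ≠ 0 → Tendsto (fun L : ℝ => L * t) atTop (cocompact ℝ) := by
    intro t ht
    rw [cocompact_eq_atBot_atTop]
    rcases lt_or_gt_of_ne ht with h | h
    · exact (tendsto_id.atTop_mul_const_of_neg h).mono_right le_sup_left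
    · exact (tendsto_id.atTop_mul_const h).mono_right le_sup_right
  have hGlim : ∀ t : ℝ, t ≠ 0 → Tendsto (fun L : ℝ => G (L * t)) atTop (𝓝 (SI r a b)) := by
    intro t ht
    refine tendsto_integral_filter_of_dominated_convergence (fun _ => 1) ?_ ?_ ?_ ?_
    · refine Eventually.of_forall fun L => ?_
      exact (hcc.comp (continuous_const.prodMk continuous_id)).aestronglyMeasurable
    · exact Eventually.of_forall fun L => Eventually.of_forall fun u => SA_det_abs _
    · exact integrableOn_const hfin.ne
    · exact Eventually.of_forall fun u => (SA_det_lim _).comp (hco t ht)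
  have hmain : Tendsto (fun L : ℝ => ∫ t in (-1 : ℝ)..1, G (L * t)) atTop
      (𝓝 (∫ t in (-1 : ℝ)..1, SI r a b)) := by
    refine intervalIntegral.tendsto_integral_filter_of_dominated_convergence
      (fun _ => volume.real (Set.Icc a b)) ?_ ?_ ?_ ?_
    · exact Eventually.of_forall fun L =>
        (hGc.comp (continuous_const.mul continuous_id)).aestronglyMeasurable
    · exact Eventually.of_forall fun L => Eventually.of_forall fun t _ => hGb _
    · exact intervalIntegrable_const
    · have h0 : ∀ᵐ t : ℝ, t ≠ 0 := by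
        have : volume ({0} : Set ℝ) = 0 := Real.volume_singleton
        exact measure_eq_zero_iff_ae_notMem.mp this
      filter_upwards [h0] with t ht _
      exact hGlim t ht
  rw [intervalIntegral.integral_const, smul_eq_mul] at hmain
  have h2 := hmain.const_mul (1 / 2)
  have e1 : 1 / 2 * ((1 - -1) * SI r a b) = SI r a b := by ring
  rw [e1] at h2
  refine h2.congr' ?_
  filter_upwards [eventually_gt_atTop (0 : ℝ)] with L hL
  rw [intervalIntegral.integral_comp_mul_left G hL.ne']
  have e2 : SI (r + 1) (Fin.cons (-L) a) (Fin.cons L b) = ∫ v in (-L)..L, G v := by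
    unfold SI
    rw [fub a b L (SA_cont snoc_cont), intervalIntegral.integral_of_le (by linarith),
      integral_Icc_eq_integral_Ioc]
    refine setIntegral_congr_fun measurableSet_Ioc fun v _ => ?_
    rw [hG]
    refine setIntegral_congr_fun measurableSet_Icc fun u _ => ?_
    simp only [Fin.cons_snoc_eq_snoc_cons]
  rw [e2, smul_eq_mul]
  have e3 : L * -1 = -L := by ring
  rw [e3, mul_one]
  field_simp

theorem SI_int0 : Int0 SI := ⟨fun r _ hR => SI_cube r hR, fun r _ a b _ => SI_lim r a b⟩

end Q241.KL
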