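import Pool.Agent.Q241.KL.S
import Pool.Agent.Q241.HF.Fin

/-! # The zeros of zeta -/

set_option autoImplicit false

namespace Q241.KL

open Finset Filter Topology MeasureTheory
open H370 TH803TW Pool.Agent.Y744

/-- the zeros with labels -/
noncomputable def JZ (T : ℝ) : Finset (ℂ × ℕ) :=
  (Zt T).biUnion fun s => (range (mult riemannZeta s)).image fun i => (s, i)

theorem mem_JZ {T : ℝ} {p : ℂ × ℕ} : p ∈ JZ T ↔ p.1 ∈ Zt T ∧ p.2 < mult riemannZeta p.1 := by
  unfold JZ
  simp only [mem_biUnion, mem_image, mem_range]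
  constructor
  · rintro ⟨s, hs, i, hi, rfl⟩
    exact ⟨hs, hi⟩
  · rintro ⟨h1, h2⟩
    exact ⟨p.1, h1, p.2, h2, rfl⟩

theorem sum_JZ (T : ℝ) (f : ℂ → ℝ) : ∑ p ∈ JZ T, f p.1 = ∑ s ∈ Zt T, mz s * f s := by
  rw [Finset.sum_finset_product (JZ T) (Zt T) (fun s => range (mult riemannZeta s)) (by
    intro p
    rw [mem_JZ, mem_range])]
  refine Finset.sum_congr rfl fun s _ => ?_
  show ∑ _i ∈ range (mult riemannZeta s), f s = mz s * f s
  rw [sum_const, card_range, nsmul_eq_mul]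
  rfl

theorem card_JZ (T : ℝ) : ((JZ T).card : ℝ) = (NN riemannZeta 0 T : ℝ) := by
  have h := sum_JZ T fun _ => 1
  rw [sum_const, nsmul_eq_mul, mul_one] at h
  rw [h, ← sum_Zt]
  exact Finset.sum_congr rfl fun s _ => mul_one _

/-- the normalised ordinate -/
noncomputable def xz (T : ℝ) (p : ℂ × ℕ) : ℝ := p.1.im * Real.log T / (2 * Real.pi)

theorem Xf_tend : Tendsto Xf atTop atTop := by
  unfold Xf
  refine Tendsto.atTop_div_const (by positivity) ?_
  exact tendsto_id.atTop_mul_atTop₀ Real.tendsto_log_atTop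

theorem card_lim : Tendsto (fun T => ((JZ T).card : ℝ) / Xf T) atTop (𝓝 1) := by
  rw [Metric.tendsto_nhds]
  intro ε hε
  obtain ⟨T0, hT0, h⟩ := Pool.Agent.W54.TCF.NT_asymp' (ε / 2) (by positivity)
  filter_upwards [eventually_ge_atTop T0] with T hT
  have hX := Xf_pos (V := T) (by linarith)
  obtain ⟨h1, h2⟩ := h T hT
  have e : T / (2 * Real.pi) * Real.log T = Xf T := by unfold Xf; ring
  rw [e] at h1 h2
  rw [card_JZ, Real.dist_eq, abs_lt]
  constructor
  · have : 1 - ε / 2 ≤ (NN riemannZeta 0 T : ℝ) / Xf T := by rwa [le_div_iff₀ hX]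
    linarith
  · have : (NN riemannZeta 0 T : ℝ) / Xf T ≤ 1 + ε / 2 := by rwa [div_le_iff₀ hX]
    linarith

/-- the family of the zeros -/
noncomputable def FZ : Fam (ℂ × ℕ) where
  J := JZ
  x := xz
  X := Xf
  hX := Xf_tend
  hJ := card_lim
  hx := by
    filter_upwards [eventually_gt_atTop (1 : ℝ)] with T hT p hp
    rw [mem_JZ, mem_Zt] at hp
    obtain ⟨⟨-, -, h1, h2, -⟩, -⟩ := hp
    have hlog : 0 < Real.log T := Real.log_pos hT
    have hpi := Real.pi_pos
    unfold xz Xf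
    refine ⟨by positivity, ?_⟩
    refine div_le_div_of_nonneg_right ?_ (by positivity)
    exact mul_le_mul_of_nonneg_right h2 hlog.le

theorem PC_eq (T : ℝ) (S : Set ℝ) :
    PC T S = ∑ j ∈ JZ T, ∑ i ∈ JZ T, S.indicator (fun _ => (1 : ℝ)) (xz T i - xz T j) := by
  have h1 : ∀ j ∈ JZ T, ∑ i ∈ JZ T, S.indicator (fun _ => (1 : ℝ)) (xz T i - xz T j) =
      ∑ s ∈ Zt T, mz s * S.indicator (fun _ => (1 : ℝ)) (dd T s j.1) := by
    intro j _
    rw [← sum_JZ T fun s => S.indicator (fun _ => (1 : ℝ)) (dd T s j.1)]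
    refine Finset.sum_congr rfl fun i _ => ?_
    congr 1
    unfold xz dd
    ring
  rw [Finset.sum_congr rfl h1]
  rw [sum_JZ T fun s' => ∑ s ∈ Zt T, mz s * S.indicator (fun _ => (1 : ℝ)) (dd T s s')]
  unfold PC
  rw [Finset.sum_comm]
  refine Finset.sum_congr rfl fun s' _ => ?_
  rw [Finset.mul_sum]
  refine Finset.sum_congr rfl fun s _ => ?_
  ring

/-- level one and pairs -/
theorem cnt_one (T : ℝ) (a b : Fin 1 → ℝ) : (cnt (JZ T) (xz T) 1 a b : ℝ) =
    PC T (Set.Icc (a 0) (b 0)) - (Set.Icc (a 0) (b 0)).indicator (fun _ => (1 : ℝ)) 0 * (JZ T).card := by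
  classical
  have h1 : ∀ j ∈ JZ T, ((E (JZ T) (xz T) j 1 a b).card : ℝ) =
      ∑ i ∈ JZ T, (Set.Icc (a 0) (b 0)).indicator (fun _ => (1 : ℝ)) (xz T i - xz T j) -
        (Set.Icc (a 0) (b 0)).indicator (fun _ => (1 : ℝ)) 0 := by
    intro j hj
    have h2 : (E (JZ T) (xz T) j 1 a b).card =
        ((JZ T).filter fun i => i ≠ j ∧ xz T i - xz T j ∈ Set.Icc (a 0) (b 0)).card := by
      refine card_nbij' (fun t => t 0) (fun i _ => i) ?_ ?_ ?_ ?_
      · intro t ht
        rw [mem_coe, mem_E] at ht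
        rw [mem_coe, mem_filter]
        exact ⟨ht.1 0, ht.2.2.1 0, ht.2.2.2 0⟩
      · intro i hi
        rw [mem_coe, mem_filter] at hi
        rw [mem_coe, mem_E]
        refine ⟨fun _ => hi.1, fun _ _ _ => Subsingleton.elim _ _, fun _ => hi.2.1, fun l => ?_⟩
        rw [Subsingleton.elim l 0]
        exact hi.2.2
      · intro t _
        funext l
        rw [Subsingleton.elim l 0]
      · intro i _
        rfl
    rw [h2, ← Finset.add_sum_erase _ _ hj, sub_self]
    have e : ((JZ T).filter fun i => i ≠ j ∧ xz T i - xz T j ∈ Set.Icc (a 0) (b 0)) =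
        ((JZ T).erase j).filter fun i => xz T i - xz T j ∈ Set.Icc (a 0) (b 0) := by
      ext i
      rw [mem_filter, mem_filter, mem_erase]
      tauto
    rw [e, Finset.card_filter]
    push_cast
    rw [add_sub_cancel_left]
    refine Finset.sum_congr rfl fun i _ => ?_
    by_cases h : xz T i - xz T j ∈ Set.Icc (a 0) (b 0)
    · rw [if_pos h, Set.indicator_of_mem h]
    · rw [if_neg h, Set.indicator_of_notMem h]
  unfold cnt
  push_cast
  rw [Finset.sum_congr rfl h1, Finset.sum_sub_distrib, sum_const, nsmul_eq_mul, PC_eq]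
  ring

theorem SI_one (a b : Fin 1 → ℝ) (h : a 0 < b 0) : SI 1 a b = gp (b 0) - gp (a 0) := by
  unfold SI
  have hmp := (volume_preserving_funUnique (Fin 1) ℝ).symm (MeasurableEquiv.funUnique (Fin 1) ℝ)
  have hint := hmp.setIntegral_preimage_emb
    (MeasurableEquiv.funUnique (Fin 1) ℝ).symm.measurableEmbedding
    (fun u : Fin 1 → ℝ => (SA (Fin.snoc u 0 : Fin (1 + 1) → ℝ)).det) (Set.Icc a b)
  refine hint.symm.trans ?_
  have hpre : (MeasurableEquiv.funUnique (Fin 1) ℝ).symm ⁻¹' Set.Icc a b = Set.Icc (a 0) (b 0) := by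
    ext y
    rw [Set.mem_preimage, Set.mem_Icc, Set.mem_Icc, Pi.le_def, Pi.le_def]
    simp
  rw [hpre, gp_sub, intervalIntegral.integral_of_le h.le, integral_Icc_eq_integral_Ioc]
  refine setIntegral_congr_fun measurableSet_Ioc fun y _ => ?_
  have e : (Fin.snoc ((MeasurableEquiv.funUnique (Fin 1) ℝ).symm y) 0 : Fin 2 → ℝ) = ![y, 0] := by
    funext i
    fin_cases i
    · rfl
    · rfl
  show (SA (Fin.snoc ((MeasurableEquiv.funUnique (Fin 1) ℝ).symm y) 0 : Fin 2 → ℝ)).det = gd y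
  rw [e, Matrix.det_fin_two]
  simp only [SA, Matrix.of_apply, Matrix.cons_val_zero, Matrix.cons_val_one, sub_self, mul_zero,
    Real.sinc_zero, sub_zero, zero_sub, mul_neg, Real.sinc_neg, mul_one]
  unfold gd
  ring

end Q241.KL
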